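import Mathlib

set_option autoImplicit false

/-!
One-variable changes of variables for increasing functions.
-/

open MeasureTheory Set Filter Topology ENNReal NNReal Metric

namespace Pool.Agent.D0H14.KP

variable {u u' : ℝ → ℝ} {α β : ℝ}

theorem strictMonoOn_of_der (hder : ∀ t ∈ Icc α β, HasDerivAt u (u' t) t)
    (hpos : ∀ t ∈ Icc α β, 0 < u' t) : StrictMonoOn u (Icc α β) := by
  apply strictMonoOn_of_deriv_pos (convex_Icc α β)
  · exact fun t ht => (hder t ht).continuousAt.continuousWithinAt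
  · intro t ht
    rw [interior_Icc] at ht
    have ht' : t ∈ Icc α β := Ioo_subset_Icc_self ht
    rw [(hder t ht').deriv]
    exact hpos t ht'

theorem upper (hder : ∀ t ∈ Icc α β, HasDerivAt u (u' t) t) {σ : ℝ} (hσ : 0 < σ)
    (hpos : ∀ t ∈ Icc α β, σ ≤ u' t) {S : Set ℝ} (hS : MeasurableSet S) (hSI : S ⊆ Icc α β)
    {J : Set ℝ} (hJ : ∀ t ∈ S, u t ∈ J) (G : ℝ → ℝ≥0∞) :
    ENNReal.ofReal σ * ∫⁻ t in S, G (u t) ≤ ∫⁻ y in J, G y := by
  have hmono := strictMonoOn_of_der hder (fun t ht => hσ.trans_le (hpos t ht))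
  have h1 := lintegral_image_eq_lintegral_abs_deriv_mul hS
    (fun t ht => (hder t (hSI ht)).hasDerivWithinAt) (hmono.injOn.mono hSI) G
  calc ENNReal.ofReal σ * ∫⁻ t in S, G (u t) = ∫⁻ t in S, ENNReal.ofReal σ * G (u t) := by
        rw [lintegral_const_mul' _ _ ENNReal.ofReal_ne_top]
    _ ≤ ∫⁻ t in S, ENNReal.ofReal |u' t| * G (u t) := by
        apply setLIntegral_mono' hS
        intro t ht
        gcongr
        exact (hpos t (hSI ht)).trans (le_abs_self _)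
    _ = ∫⁻ y in u '' S, G y := h1.symm
    _ ≤ _ := lintegral_mono_set (by rintro _ ⟨t, ht, rfl⟩; exact hJ t ht)

theorem lower (hαβ : α ≤ β) (hder : ∀ t ∈ Icc α β, HasDerivAt u (u' t) t) {σ : ℝ}
    (hpos : ∀ t ∈ Icc α β, 0 < u' t) (hle : ∀ t ∈ Icc α β, u' t ≤ σ) {A₁ A₂ : ℝ}
    (h1 : u α ≤ A₁) (h2 : A₂ ≤ u β) (G : ℝ → ℝ≥0∞) :
    ∫⁻ y in Ico A₁ A₂, G y ≤
      ENNReal.ofReal σ * ∫⁻ t in Icc α β ∩ u ⁻¹' (Ico A₁ A₂), G (u t) := by
  have hmono := strictMonoOn_of_der hder hpos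
  have hcont : ContinuousOn u (Icc α β) :=
    fun t ht => (hder t ht).continuousAt.continuousWithinAt
  set S := Icc α β ∩ u ⁻¹' (Ico A₁ A₂) with hS
  have hSm : MeasurableSet S := by
    have hord : S.OrdConnected := by
      constructor
      rintro x ⟨hx1, hx2⟩ y ⟨hy1, hy2⟩ z ⟨hz1, hz2⟩
      have hz : z ∈ Icc α β := ⟨hx1.1.trans hz1, hz2.trans hy1.2⟩
      refine ⟨hz, ?_, ?_⟩
      · exact hx2.1.trans (hmono.monotoneOn hx1 hz hz1)
      · exact (hmono.monotoneOn hz hy1 hz2).trans_lt hy2.2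
    exact hord.measurableSet
  have hsub : Ico A₁ A₂ ⊆ u '' S := by
    intro y hy
    have h3 := intermediate_value_Icc hαβ hcont
    obtain ⟨t, ht, hty⟩ := h3 ⟨h1.trans hy.1, hy.2.le.trans h2⟩
    exact ⟨t, ⟨ht, by rw [mem_preimage, hty]; exact hy⟩, hty⟩
  have h3 := lintegral_image_eq_lintegral_abs_deriv_mul hSm
    (fun t ht => (hder t ht.1).hasDerivWithinAt) (hmono.injOn.mono inter_subset_left) G
  calc ∫⁻ y in Ico A₁ A₂, G y ≤ ∫⁻ y in u '' S, G y := lintegral_mono_set hsub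
    _ = ∫⁻ t in S, ENNReal.ofReal |u' t| * G (u t) := h3
    _ ≤ ∫⁻ t in S, ENNReal.ofReal σ * G (u t) := by
        apply setLIntegral_mono' hSm
        intro t ht
        gcongr
        rw [abs_of_pos (hpos t ht.1)]
        exact hle t ht.1
    _ = _ := by rw [lintegral_const_mul' _ _ ENNReal.ofReal_ne_top]

end Pool.Agent.D0H14.KP
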