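import Mathlib

set_option autoImplicit false

/-!
One-variable facts: interpolation, and polynomials without roots near a point are almost constant.
-/

open MeasureTheory Set Filter Topology ENNReal NNReal Metric Polynomial

namespace Pool.Agent.D0H14.KP

/-- Values at `D + 1` equidistant points control a polynomial of degree at most `D`. -/
theorem interp01 (D : ℕ) (hD : 1 ≤ D) : ∃ Λ : ℝ, 1 ≤ Λ ∧ ∀ (p : ℝ[X]) (M : ℝ), p.natDegree ≤ D →
    (∀ k : ℕ, k ≤ D → |p.eval ((k:ℝ) / D)| ≤ M) → ∀ s ∈ Icc (0:ℝ) 1, |p.eval s| ≤ Λ * M := by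
  classical
  have hD0 : (0:ℝ) < D := by exact_mod_cast hD
  set v : ℕ → ℝ := fun k => (k:ℝ) / D with hv
  have hinj : Set.InjOn v (Finset.range (D + 1) : Set ℕ) := by
    intro a _ b _ h
    simp only [hv] at h
    have := (div_left_inj' hD0.ne').1 h
    exact_mod_cast this
  have hbd : ∀ k : ℕ, ∃ B : ℝ, 0 ≤ B ∧ ∀ s ∈ Icc (0:ℝ) 1,
      |(Lagrange.basis (Finset.range (D + 1)) v k).eval s| ≤ B := by
    intro k
    have hc : ContinuousOn (fun s : ℝ => |(Lagrange.basis (Finset.range (D + 1)) v k).eval s|)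
        (Icc 0 1) := by
      apply Continuous.continuousOn
      exact (Polynomial.continuous _).abs
    obtain ⟨x, hx, hmax⟩ := isCompact_Icc.exists_isMaxOn (⟨0, by simp⟩ : (Icc (0:ℝ) 1).Nonempty) hc
    exact ⟨_, abs_nonneg _, fun s hs => hmax hs⟩
  choose B hB0 hB using hbd
  refine ⟨1 + ∑ k ∈ Finset.range (D + 1), B k, ?_, ?_⟩
  · have : 0 ≤ ∑ k ∈ Finset.range (D + 1), B k := Finset.sum_nonneg fun k _ => hB0 k
    linarith
  intro p M hp hM s hs
  have hM0 : 0 ≤ M := (abs_nonneg _).trans (hM 0 (Nat.zero_le _))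
  have hdeg : p.degree < ((Finset.range (D + 1)).card : ℕ) := by
    rw [Finset.card_range]
    refine lt_of_le_of_lt Polynomial.degree_le_natDegree ?_
    exact_mod_cast Nat.lt_succ_of_le hp
  have hL := Lagrange.eq_interpolate hinj hdeg
  rw [hL, Lagrange.interpolate_apply, Polynomial.eval_finset_sum]
  simp only [Polynomial.eval_mul, Polynomial.eval_C]
  calc |∑ k ∈ Finset.range (D + 1), eval (v k) p *
        eval s (Lagrange.basis (Finset.range (D + 1)) v k)|
      ≤ ∑ k ∈ Finset.range (D + 1), |eval (v k) p *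
        eval s (Lagrange.basis (Finset.range (D + 1)) v k)| := Finset.abs_sum_le_sum_abs _ _
    _ ≤ ∑ k ∈ Finset.range (D + 1), M * B k := by
        apply Finset.sum_le_sum
        intro k hk
        rw [abs_mul]
        have h1 := hM k (Nat.lt_succ_iff.1 (Finset.mem_range.1 hk))
        have h2 := hB k s hs
        gcongr
    _ = M * ∑ k ∈ Finset.range (D + 1), B k := by rw [Finset.mul_sum]
    _ ≤ _ := by nlinarith [Finset.sum_nonneg fun k (_ : k ∈ Finset.range (D + 1)) => hB0 k]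

/-- The scaled version, with a constant subtracted. -/
theorem interp (D : ℕ) (hD : 1 ≤ D) : ∃ Λ : ℝ, 1 ≤ Λ ∧ ∀ (p : ℝ[X]) (t₀ h c M : ℝ),
    p.natDegree ≤ D → 0 < h → (∀ k : ℕ, k ≤ D → |p.eval (t₀ + (k:ℝ) / D * h) - c| ≤ M) →
    ∀ s ∈ Icc t₀ (t₀ + h), |p.eval s - c| ≤ Λ * M := by
  obtain ⟨Λ, hΛ, H⟩ := interp01 D hD
  refine ⟨Λ, hΛ, ?_⟩
  intro p t₀ h c M hp hh hM s hs
  set q : ℝ[X] := p.comp (C h * X + C t₀) - C c with hq
  have hqe : ∀ x, q.eval x = p.eval (t₀ + x * h) - c := by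
    intro x
    simp only [hq, eval_sub, eval_comp, eval_add, eval_mul, eval_C, eval_X]
    congr 2; ring
  have hqd : q.natDegree ≤ D := by
    rw [hq, Polynomial.natDegree_sub_C]
    refine Polynomial.natDegree_comp_le.trans ?_
    have : (C h * X + C t₀ : ℝ[X]).natDegree ≤ 1 := Polynomial.natDegree_linear_le
    nlinarith
  have := H q M hqd (fun k hk => by rw [hqe]; exact hM k hk) ((s - t₀) / h) (by
    constructor
    · apply div_nonneg _ hh.le; linarith [hs.1]
    · rw [div_le_one hh]; linarith [hs.2])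
  rw [hqe] at this
  have e : t₀ + (s - t₀) / h * h = s := by field_simp; ring
  rwa [e] at this

theorem multiset_near (t s h K : ℝ) (hh : 0 < h) (hK : 1 ≤ K) (hst : |s - t| ≤ h) (M : Multiset ℂ)
    (hM : ∀ z ∈ M, K * h ≤ |t - z.re|) :
    ‖(M.map fun z => (s:ℂ) - z).prod - (M.map fun z => (t:ℂ) - z).prod‖ ≤
      ((1 + 1 / K) ^ M.card - 1) * ‖(M.map fun z => (t:ℂ) - z).prod‖ := by
  have hK0 : 0 < K := by linarith
  induction M using Multiset.induction with
  | empty => simp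
  | cons z M ih =>
    have ih' := ih (fun w hw => hM w (Multiset.mem_cons_of_mem hw))
    have hz := hM z (Multiset.mem_cons_self z M)
    simp only [Multiset.map_cons, Multiset.prod_cons, Multiset.card_cons]
    set A := (M.map fun z => (t:ℂ) - z).prod with hA
    set A' := (M.map fun z => (s:ℂ) - z).prod with hA'
    have h1 : h ≤ 1 / K * ‖(t:ℂ) - z‖ := by
      have h2 : |t - z.re| ≤ ‖(t:ℂ) - z‖ := by
        have := Complex.abs_re_le_norm ((t:ℂ) - z)
        simpa using this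
      rw [one_div, inv_mul_eq_div, le_div_iff₀ hK0]
      linarith
    have h3 : ‖A'‖ ≤ (1 + 1 / K) ^ M.card * ‖A‖ := by
      calc ‖A'‖ = ‖(A' - A) + A‖ := by congr 1; ring
        _ ≤ ‖A' - A‖ + ‖A‖ := norm_add_le _ _
        _ ≤ ((1 + 1 / K) ^ M.card - 1) * ‖A‖ + ‖A‖ := by linarith
        _ = _ := by ring
    have h4 : ‖((s:ℂ) - z) * A' - ((t:ℂ) - z) * A‖ ≤ |s - t| * ‖A'‖ + ‖(t:ℂ) - z‖ * ‖A' - A‖ := by
      have e : ((s:ℂ) - z) * A' - ((t:ℂ) - z) * A = ((s:ℂ) - t) * A' + ((t:ℂ) - z) * (A' - A) := by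
        ring
      rw [e]
      refine (norm_add_le _ _).trans ?_
      rw [norm_mul, norm_mul]
      have : ‖(s:ℂ) - t‖ = |s - t| := by
        rw [← Complex.ofReal_sub, Complex.norm_real, Real.norm_eq_abs]
      rw [this]
    refine h4.trans ?_
    rw [norm_mul]
    have hn : 0 ≤ ‖(t:ℂ) - z‖ := norm_nonneg _
    have hA0 : 0 ≤ ‖A‖ := norm_nonneg _
    calc |s - t| * ‖A'‖ + ‖(t:ℂ) - z‖ * ‖A' - A‖
        ≤ (1 / K * ‖(t:ℂ) - z‖) * ((1 + 1 / K) ^ M.card * ‖A‖) +
          ‖(t:ℂ) - z‖ * (((1 + 1 / K) ^ M.card - 1) * ‖A‖) := by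
          have := hst.trans h1
          gcongr
      _ = _ := by rw [pow_succ]; ring

/-- A polynomial without roots near `t` is almost constant near `t`. -/
theorem near_of_roots {p : ℝ[X]} (hp : p ≠ 0) {t h K : ℝ} (hh : 0 < h) (hK : 1 ≤ K)
    (hr : ∀ z ∈ (p.map (algebraMap ℝ ℂ)).roots, K * h ≤ |t - z.re|) {s : ℝ} (hs : |s - t| ≤ h) :
    |p.eval s - p.eval t| ≤ ((1 + 1 / K) ^ p.natDegree - 1) * |p.eval t| := by
  set P := p.map (algebraMap ℝ ℂ) with hP
  have hK0 : 0 < K := by linarith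
  have hev : ∀ x : ℝ, P.eval (x:ℂ) = ((p.eval x : ℝ) : ℂ) := by
    intro x
    rw [hP, Polynomial.eval_map]
    rw [show (x:ℂ) = algebraMap ℝ ℂ x from rfl, Polynomial.eval₂_at_apply]
    rfl
  have hfac : ∀ x : ℂ, P.eval x = P.leadingCoeff * (P.roots.map fun z => x - z).prod := by
    intro x
    have h1 := (IsAlgClosed.splits P).eq_prod_roots
    conv_lhs => rw [h1]
    rw [Polynomial.eval_mul, Polynomial.eval_C, Polynomial.eval_multiset_prod, Multiset.map_map]
    simp
  have hcard : P.roots.card ≤ p.natDegree := by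
    refine (Polynomial.card_roots' P).trans ?_
    rw [hP, Polynomial.natDegree_map]
  have h1 := multiset_near t s h K hh hK hs P.roots hr
  have h2 : |p.eval s - p.eval t| = ‖P.eval (s:ℂ) - P.eval (t:ℂ)‖ := by
    rw [hev, hev, ← Complex.ofReal_sub, Complex.norm_real, Real.norm_eq_abs]
  have h3 : |p.eval t| = ‖P.eval (t:ℂ)‖ := by
    rw [hev, Complex.norm_real, Real.norm_eq_abs]
  rw [h2, h3, hfac, hfac, ← mul_sub, norm_mul, norm_mul]
  have h4 : (1 + 1 / K) ^ P.roots.card ≤ (1 + 1 / K) ^ p.natDegree := by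
    apply pow_le_pow_right₀ _ hcard
    have : 0 < 1 / K := by positivity
    linarith
  calc ‖P.leadingCoeff‖ * ‖(P.roots.map fun z => (s:ℂ) - z).prod - (P.roots.map fun z => (t:ℂ) - z).prod‖
      ≤ ‖P.leadingCoeff‖ * (((1 + 1 / K) ^ P.roots.card - 1) *
          ‖(P.roots.map fun z => (t:ℂ) - z).prod‖) := by gcongr
    _ ≤ ‖P.leadingCoeff‖ * (((1 + 1 / K) ^ p.natDegree - 1) *
          ‖(P.roots.map fun z => (t:ℂ) - z).prod‖) := by gcongr
    _ = _ := by ring

/-- Away from at most `D` points a polynomial of degree at most `D` is almost constant. -/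
theorem flat_points (D : ℕ) (ε : ℝ) (hε : 0 < ε) : ∃ K : ℝ, 1 ≤ K ∧ ∀ p : ℝ[X], p.natDegree ≤ D →
    ∃ B : Finset ℝ, B.card ≤ D ∧ ∀ t h : ℝ, 0 < h → (∀ r ∈ B, K * h ≤ |t - r|) →
      ∀ s : ℝ, |s - t| ≤ h → |p.eval s - p.eval t| ≤ ε * |p.eval t| := by
  classical
  obtain ⟨K, hK1, hK⟩ : ∃ K : ℝ, 1 ≤ K ∧ (1 + 1 / K) ^ D ≤ 1 + ε := by
    have hlog : 0 < Real.log (1 + ε) := Real.log_pos (by linarith)
    set K := max 1 (D / Real.log (1 + ε)) with hKdef
    have hK1 : 1 ≤ K := le_max_left _ _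
    have hK0 : 0 < K := by linarith
    refine ⟨K, hK1, ?_⟩
    have h1 : (D:ℝ) / K ≤ Real.log (1 + ε) := by
      rw [div_le_iff₀ hK0]
      have : (D:ℝ) / Real.log (1 + ε) ≤ K := le_max_right _ _
      rw [div_le_iff₀ hlog] at this
      linarith
    calc (1 + 1 / K) ^ D ≤ (Real.exp (1 / K)) ^ D := by
          apply pow_le_pow_left₀ (by positivity)
          have := Real.add_one_le_exp (1 / K)
          linarith
      _ = Real.exp (D / K) := by rw [← Real.exp_nat_mul]; congr 1; ring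
      _ ≤ Real.exp (Real.log (1 + ε)) := Real.exp_le_exp.2 h1
      _ = 1 + ε := Real.exp_log (by linarith)
  refine ⟨K, hK1, ?_⟩
  intro p hp
  by_cases hp0 : p = 0
  · refine ⟨∅, by simp, ?_⟩
    intro t h _ _ s _
    simp [hp0]
  refine ⟨((p.map (algebraMap ℝ ℂ)).roots.map fun z => z.re).toFinset, ?_, ?_⟩
  · refine (Multiset.toFinset_card_le _).trans ?_
    rw [Multiset.card_map]
    refine (Polynomial.card_roots' _).trans ?_
    rw [Polynomial.natDegree_map]
    exact hp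
  · intro t h hh hB s hs
    have h1 := near_of_roots hp0 hh hK1 (t := t) (fun z hz => hB z.re (by
      rw [Multiset.mem_toFinset]
      exact Multiset.mem_map_of_mem _ hz)) hs
    refine h1.trans ?_
    gcongr
    have h2 : (1 + 1 / K) ^ p.natDegree ≤ (1 + 1 / K) ^ D := by
      apply pow_le_pow_right₀ _ hp
      have : 0 < 1 / K := by positivity
      linarith
    linarith

end Pool.Agent.D0H14.KP
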