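import Pool.Agent.R250.AC3
import Pool.Agent.D0H14.KP.Poly1
import Pool.Agent.D0H14.KP.Area1

set_option autoImplicit false

/-!
Classes of lines given by polynomial inequalities, abstract data.
-/

open MeasureTheory Set Filter Topology ENNReal NNReal Metric

namespace Pool.Agent.D0H14.KP

open Pool.Agent.H803R2.Kak Pool.Agent.H803R2.KakFTO Pool.Agent.H805R3.Kk Pool.Agent.W770.SA
  Pool.Agent.R250.AC

variable {d : ℕ}

/-- The constant of the estimate for line integrals. -/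
noncomputable def Ap (d : ℕ) (p : ℝ) : ℝ≥0∞ := (d * Ksing (d / (p - 1))) ^ (p - 1)

theorem class_bound (hd : 1 ≤ d) {ι : Type*} [Fintype ι]
    (Q : ι → MvPolynomial (Fin d ⊕ Fin d) ℝ) {E : ℕ} (hE : ∑ k, (Q k).totalDegree ≤ E)
    {B₀ : Set (Vec d)} (hB₀ : MeasurableSet B₀) {p : ℝ} (hp : 1 < p) {F : Vec d × ℝ → ℝ≥0∞}
    (hF : Measurable F) (m : ℝ≥0∞) (h₀ : ℝ)
    (hm : ∀ v ∈ B₀, ∀ a, (∀ k, 0 < ev (Q k) (v, a)) →
      m ≤ ∫⁻ t in Icc h₀ (h₀ + 3), F (a + t • v, t)) :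
    m ^ p * volume {v | v ∈ B₀ ∧ ∃ z, ∀ k, 0 < ev (Q k) (v, z)} ≤
      Ap d p * (bez d (2 + E) * ∫⁻ q, F q ^ p) := by
  classical
  set e := Fintype.equivFin ι
  have hset : {v : Vec d | v ∈ B₀ ∧ ∃ z, ∀ k, 0 < ev (Q k) (v, z)} =
      {v | v ∈ B₀ ∧ ∃ z, ∀ k, 0 < ev (Q (e.symm k)) (v, z)} := by
    ext v
    simp only [mem_ofPred_eq]
    refine and_congr_right fun _ => exists_congr fun z => ?_
    constructor
    · intro h k; exact h _
    · intro h k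
      have := h (e k)
      rwa [Equiv.symm_apply_apply] at this
  rw [hset]
  have hE' : ∑ k, (Q (e.symm k)).totalDegree ≤ E := by
    rw [Equiv.sum_comp e.symm (fun k => (Q k).totalDegree)]
    exact hE
  have key := classes hd (fun k => Q (e.symm k)) hE' hB₀ (fun _ => m ^ p)
    (Ap d p * (bez d (2 + E) * ∫⁻ q, F q ^ p)) ?_
  · rwa [setLIntegral_const] at key
  · intro B' g hB' hB'sub hg hN hcl
    refine le_trans ?_ (lineIntegrals hd hp hB' hg (hN univ) hF (fun y t ht => absurd (mem_univ t) ht))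
    apply setLIntegral_mono' hB'
    intro v hv
    refine le_trans ?_ (le_iSup (fun h : ℝ => (∫⁻ t in Icc h (h+3), F (g v + t • v, t)) ^ p) h₀)
    have h1 : ∀ k, 0 < ev (Q k) (v, g v) := by
      intro k
      have := hcl v hv (e k)
      rwa [Equiv.symm_apply_apply] at this
    exact ENNReal.rpow_le_rpow (hm v (hB'sub hv) (g v) h1) (by linarith)

/-- Polynomial functions of points, which may depend on the velocity of a line through them. -/
def PF (D : ℕ) (φ : Vec d → Vec d × ℝ → ℝ) : Prop :=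
  Continuous (fun z : Vec d × (Vec d × ℝ) => φ z.1 z.2) ∧
  (∀ v a, ∃ p : Polynomial ℝ, p.natDegree ≤ D ∧ ∀ t, p.eval t = φ v (a + t • v, t)) ∧
  (∀ t : ℝ, ∃ m : MvPolynomial (Fin d ⊕ Fin d) ℝ, m.totalDegree ≤ D ∧
    ∀ v a, ev m (v, a) = φ v (a + t • v, t))

/-- The abstract data: the function `P / Q`, the numerator `Φ rN` of its derivative along lines,
the square `W` of the numerator of its gradient, and an open set `A`. -/
structure Dat (d D M : ℕ) where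
  Φ : Fin M → Vec d → Vec d × ℝ → ℝ
  P : Vec d × ℝ → ℝ
  Q : Vec d × ℝ → ℝ
  W : Vec d × ℝ → ℝ
  A : Set (Vec d × ℝ)
  rN : Fin M
  rQ : Fin M
  rW : Fin M
  hΦ : ∀ r, PF D (Φ r)
  hP : PF D (fun _ => P)
  hQ : ∀ v, Φ rQ v = Q
  hW : ∀ v, Φ rW v = W
  hA : ∀ v x, (∀ r, 0 < Φ r v x) → x ∈ A
  hAm : MeasurableSet A
  hder : ∀ v a t, 0 < Q (a + t • v, t) →
    HasDerivAt (fun s : ℝ => P (a + s • v, s) / Q (a + s • v, s))
      (Φ rN v (a + t • v, t) / Q (a + t • v, t) ^ 2) t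
  hNW : ∀ v x, Φ rN v x ^ 2 ≤ (1 + ‖v‖ ^ 2) * W x

namespace Dat

variable {D M : ℕ} (𝔇 : Dat d D M)

/-- The function `P / Q`. -/
noncomputable def u (x : Vec d × ℝ) : ℝ := 𝔇.P x / 𝔇.Q x

/-- `|∇ (P/Q)|²`. -/
noncomputable def om (x : Vec d × ℝ) : ℝ := 𝔇.W x / 𝔇.Q x ^ 4

theorem measurable_P : Measurable 𝔇.P := by
  have h : Continuous (fun x : Vec d × ℝ => ((0 : Vec d), x)) := by fun_prop
  exact (𝔇.hP.1.comp h).measurable

theorem measurable_Φ (r : Fin M) (v : Vec d) : Measurable (𝔇.Φ r v) := by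
  have h : Continuous (fun x : Vec d × ℝ => (v, x)) := by fun_prop
  exact ((𝔇.hΦ r).1.comp h).measurable

theorem measurable_Q : Measurable 𝔇.Q := by
  have := 𝔇.measurable_Φ 𝔇.rQ 0
  rwa [𝔇.hQ] at this

theorem measurable_W : Measurable 𝔇.W := by
  have := 𝔇.measurable_Φ 𝔇.rW 0
  rwa [𝔇.hW] at this

theorem measurable_u : Measurable 𝔇.u := 𝔇.measurable_P.div 𝔇.measurable_Q

theorem measurable_om : Measurable 𝔇.om := 𝔇.measurable_W.div (𝔇.measurable_Q.pow_const 4)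

/-- The function `1_A g(P/Q)`. -/
noncomputable def F (g : ℝ → ℝ≥0∞) (x : Vec d × ℝ) : ℝ≥0∞ := 𝔇.A.indicator (fun x => g (𝔇.u x)) x

theorem measurable_F {g : ℝ → ℝ≥0∞} (hg : Measurable g) : Measurable (𝔇.F g) :=
  (hg.comp 𝔇.measurable_u).indicator 𝔇.hAm

theorem F_le (g : ℝ → ℝ≥0∞) (x : Vec d × ℝ) : 𝔇.F g x ≤ g (𝔇.u x) := indicator_le_self _ _ _

/-- A line given by `v`, `a` belongs to the class with parameters `t₁`, `h`, `i`, `w`. -/
def Cls (Λ κ h t₁ : ℝ) (i w : ℤ) (v a : Vec d) : Prop :=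
  (∀ (r : Fin M) (k : Fin (D + 1)),
    |𝔇.Φ r v (a + (t₁ + (k:ℝ) / D * h) • v, t₁ + (k:ℝ) / D * h) - 𝔇.Φ r v (a + t₁ • v, t₁)| <
      1 / (16 * Λ) * 𝔇.Φ r v (a + t₁ • v, t₁)) ∧
  (2:ℝ) ^ (i - 1) * 𝔇.Q (a + t₁ • v, t₁) ^ 2 < 𝔇.Φ 𝔇.rN v (a + t₁ • v, t₁) ∧
  𝔇.Φ 𝔇.rN v (a + t₁ • v, t₁) < (2:ℝ) ^ (i + 1) * 𝔇.Q (a + t₁ • v, t₁) ^ 2 ∧
  𝔇.P (a + t₁ • v, t₁) < w * (h * 2 ^ i / 8) * 𝔇.Q (a + t₁ • v, t₁) ∧
  (w + 1) * (h * 2 ^ i / 8) * 𝔇.Q (a + (t₁ + h) • v, t₁ + h) < 𝔇.P (a + (t₁ + h) • v, t₁ + h) ∧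
  κ * 𝔇.W (a + t₁ • v, t₁) < 8 * 4 ^ i * 𝔇.Q (a + t₁ • v, t₁) ^ 4

/-- The degree bound for the classes. -/
def EE (D M : ℕ) : ℕ := 2 * M * (D + 1) * D + 20 * D

theorem ev_add (p q : MvPolynomial (Fin d ⊕ Fin d) ℝ) (x : Vec d × Vec d) :
    ev (p + q) x = ev p x + ev q x := by simp [ev]

theorem ev_sub (p q : MvPolynomial (Fin d ⊕ Fin d) ℝ) (x : Vec d × Vec d) :
    ev (p - q) x = ev p x - ev q x := by simp [ev]

theorem ev_mul (p q : MvPolynomial (Fin d ⊕ Fin d) ℝ) (x : Vec d × Vec d) :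
    ev (p * q) x = ev p x * ev q x := by simp [ev]

theorem ev_pow (p : MvPolynomial (Fin d ⊕ Fin d) ℝ) (k : ℕ) (x : Vec d × Vec d) :
    ev (p ^ k) x = ev p x ^ k := by simp [ev]

theorem ev_C (c : ℝ) (x : Vec d × Vec d) :
    ev (MvPolynomial.C c : MvPolynomial (Fin d ⊕ Fin d) ℝ) x = c := by simp [ev]

theorem deg_C_mul (c : ℝ) (p : MvPolynomial (Fin d ⊕ Fin d) ℝ) :
    (MvPolynomial.C c * p).totalDegree ≤ p.totalDegree := by
  refine (MvPolynomial.totalDegree_mul _ _).trans ?_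
  rw [MvPolynomial.totalDegree_C, zero_add]

/-- The classes are given by polynomial inequalities. -/
theorem cls_polys (Λ κ h t₁ : ℝ) (i w : ℤ) :
    ∃ Q : (Fin M × Fin (D + 1) × Bool) ⊕ Fin 5 → MvPolynomial (Fin d ⊕ Fin d) ℝ,
      ∑ k, (Q k).totalDegree ≤ EE D M ∧
      ∀ v a, 𝔇.Cls Λ κ h t₁ i w v a ↔ ∀ k, 0 < ev (Q k) (v, a) := by
  choose mΦ hmΦd hmΦ using fun (r : Fin M) (t : ℝ) => (𝔇.hΦ r).2.2 t
  choose mP hmPd hmP using fun (t : ℝ) => 𝔇.hP.2.2 t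
  have hQd : ∀ t, (mΦ 𝔇.rQ t).totalDegree ≤ D := fun t => hmΦd _ t
  have hQe : ∀ t v a, ev (mΦ 𝔇.rQ t) (v, a) = 𝔇.Q (a + t • v, t) := by
    intro t v a; rw [hmΦ, 𝔇.hQ]
  have hWe : ∀ t v a, ev (mΦ 𝔇.rW t) (v, a) = 𝔇.W (a + t • v, t) := by
    intro t v a; rw [hmΦ, 𝔇.hW]
  set ε : ℝ := 1 / (16 * Λ) with hε
  set q : Fin 5 → MvPolynomial (Fin d ⊕ Fin d) ℝ := ![
    mΦ 𝔇.rN t₁ - MvPolynomial.C ((2:ℝ) ^ (i - 1)) * mΦ 𝔇.rQ t₁ ^ 2,
    MvPolynomial.C ((2:ℝ) ^ (i + 1)) * mΦ 𝔇.rQ t₁ ^ 2 - mΦ 𝔇.rN t₁,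
    MvPolynomial.C (w * (h * 2 ^ i / 8)) * mΦ 𝔇.rQ t₁ - mP t₁,
    mP (t₁ + h) - MvPolynomial.C ((w + 1) * (h * 2 ^ i / 8)) * mΦ 𝔇.rQ (t₁ + h),
    MvPolynomial.C (8 * (4:ℝ) ^ i) * mΦ 𝔇.rQ t₁ ^ 4 - MvPolynomial.C κ * mΦ 𝔇.rW t₁] with hq
  set s : Fin (D + 1) → ℝ := fun k => t₁ + (k:ℝ) / D * h with hs
  refine ⟨Sum.elim (fun x => if x.2.2 then mΦ x.1 (s x.2.1) - MvPolynomial.C (1 - ε) * mΦ x.1 t₁
      else MvPolynomial.C (1 + ε) * mΦ x.1 t₁ - mΦ x.1 (s x.2.1)) q, ?_, ?_⟩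
  · rw [Fintype.sum_sum_type]
    have h1 : ∑ x : Fin M × Fin (D + 1) × Bool, (Sum.elim (fun x : Fin M × Fin (D + 1) × Bool =>
        if x.2.2 then mΦ x.1 (s x.2.1) - MvPolynomial.C (1 - ε) * mΦ x.1 t₁
        else MvPolynomial.C (1 + ε) * mΦ x.1 t₁ - mΦ x.1 (s x.2.1)) q (Sum.inl x)).totalDegree ≤
        2 * M * (D + 1) * D := by
      calc _ ≤ ∑ _x : Fin M × Fin (D + 1) × Bool, D := by
            apply Finset.sum_le_sum
            rintro ⟨r, k, b⟩ _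
            simp only [Sum.elim_inl]
            cases b
            · simp only [Bool.false_eq_true, if_false]
              refine (MvPolynomial.totalDegree_sub _ _).trans (max_le ?_ (hmΦd _ _))
              exact (deg_C_mul _ _).trans (hmΦd _ _)
            · simp only [if_true]
              refine (MvPolynomial.totalDegree_sub _ _).trans (max_le (hmΦd _ _) ?_)
              exact (deg_C_mul _ _).trans (hmΦd _ _)
        _ = 2 * M * (D + 1) * D := by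
            simp only [Finset.sum_const, Finset.card_univ, Fintype.card_prod, Fintype.card_fin,
              Fintype.card_bool, smul_eq_mul]
            ring
    have hp : ∀ (m : MvPolynomial (Fin d ⊕ Fin d) ℝ) (k : ℕ), m.totalDegree ≤ D →
        (m ^ k).totalDegree ≤ k * D := fun m k hm =>
      (MvPolynomial.totalDegree_pow _ _).trans (Nat.mul_le_mul_left _ hm)
    have h2 : ∑ x : Fin 5, (q x).totalDegree ≤ 20 * D := by
      have hall : ∀ x : Fin 5, (q x).totalDegree ≤ 4 * D := by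
        intro x
        have a1 : (mΦ 𝔇.rN t₁).totalDegree ≤ 4 * D := (hmΦd _ _).trans (by omega)
        have a2 := hp _ 2 (hQd t₁)
        have a3 := hp _ 4 (hQd t₁)
        fin_cases x
        · simp only [hq]
          refine (MvPolynomial.totalDegree_sub _ _).trans (max_le a1 ?_)
          exact (deg_C_mul _ _).trans (a2.trans (by omega))
        · simp only [hq]
          refine (MvPolynomial.totalDegree_sub _ _).trans (max_le ?_ a1)
          exact (deg_C_mul _ _).trans (a2.trans (by omega))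
        · simp only [hq]
          refine (MvPolynomial.totalDegree_sub _ _).trans (max_le ?_ ((hmPd _).trans (by omega)))
          exact (deg_C_mul _ _).trans ((hQd _).trans (by omega))
        · simp only [hq]
          refine (MvPolynomial.totalDegree_sub _ _).trans (max_le ((hmPd _).trans (by omega)) ?_)
          exact (deg_C_mul _ _).trans ((hQd _).trans (by omega))
        · simp only [hq]
          refine (MvPolynomial.totalDegree_sub _ _).trans (max_le ?_ ?_)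
          · exact (deg_C_mul _ _).trans a3
          · exact (deg_C_mul _ _).trans ((hmΦd _ _).trans (by omega))
      calc _ ≤ ∑ _x : Fin 5, 4 * D := Finset.sum_le_sum fun x _ => hall x
        _ = 20 * D := by simp; ring
    unfold EE
    exact add_le_add h1 h2
  · intro v a
    have e0 : ev (q 0) (v, a) = 𝔇.Φ 𝔇.rN v (a + t₁ • v, t₁) -
        (2:ℝ) ^ (i - 1) * 𝔇.Q (a + t₁ • v, t₁) ^ 2 := by
      rw [show q 0 = mΦ 𝔇.rN t₁ - MvPolynomial.C ((2:ℝ) ^ (i - 1)) * mΦ 𝔇.rQ t₁ ^ 2 from rfl,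
        ev_sub, ev_mul, ev_pow, ev_C, hQe, hmΦ]
    have e1 : ev (q 1) (v, a) = (2:ℝ) ^ (i + 1) * 𝔇.Q (a + t₁ • v, t₁) ^ 2 -
        𝔇.Φ 𝔇.rN v (a + t₁ • v, t₁) := by
      rw [show q 1 = MvPolynomial.C ((2:ℝ) ^ (i + 1)) * mΦ 𝔇.rQ t₁ ^ 2 - mΦ 𝔇.rN t₁ from rfl,
        ev_sub, ev_mul, ev_pow, ev_C, hQe, hmΦ]
    have e2 : ev (q 2) (v, a) = w * (h * 2 ^ i / 8) * 𝔇.Q (a + t₁ • v, t₁) -
        𝔇.P (a + t₁ • v, t₁) := by
      rw [show q 2 = MvPolynomial.C (w * (h * 2 ^ i / 8)) * mΦ 𝔇.rQ t₁ - mP t₁ from rfl,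
        ev_sub, ev_mul, ev_C, hQe, hmP]
    have e3 : ev (q 3) (v, a) = 𝔇.P (a + (t₁ + h) • v, t₁ + h) -
        (w + 1) * (h * 2 ^ i / 8) * 𝔇.Q (a + (t₁ + h) • v, t₁ + h) := by
      rw [show q 3 = mP (t₁ + h) - MvPolynomial.C ((w + 1) * (h * 2 ^ i / 8)) * mΦ 𝔇.rQ (t₁ + h)
        from rfl, ev_sub, ev_mul, ev_C, hQe, hmP]
    have e4 : ev (q 4) (v, a) = 8 * 4 ^ i * 𝔇.Q (a + t₁ • v, t₁) ^ 4 -
        κ * 𝔇.W (a + t₁ • v, t₁) := by
      rw [show q 4 = MvPolynomial.C (8 * (4:ℝ) ^ i) * mΦ 𝔇.rQ t₁ ^ 4 -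
        MvPolynomial.C κ * mΦ 𝔇.rW t₁ from rfl, ev_sub, ev_mul, ev_mul, ev_pow, ev_C, ev_C, hQe, hWe]
    have f1 : ∀ (r : Fin M) (k : Fin (D + 1)), ev (mΦ r (s k) - MvPolynomial.C (1 - ε) * mΦ r t₁)
        (v, a) = 𝔇.Φ r v (a + (t₁ + (k:ℝ) / D * h) • v, t₁ + (k:ℝ) / D * h) -
          (1 - ε) * 𝔇.Φ r v (a + t₁ • v, t₁) := by
      intro r k
      rw [ev_sub, ev_mul, ev_C, hmΦ, hmΦ]
    have f2 : ∀ (r : Fin M) (k : Fin (D + 1)), ev (MvPolynomial.C (1 + ε) * mΦ r t₁ - mΦ r (s k))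
        (v, a) = (1 + ε) * 𝔇.Φ r v (a + t₁ • v, t₁) -
          𝔇.Φ r v (a + (t₁ + (k:ℝ) / D * h) • v, t₁ + (k:ℝ) / D * h) := by
      intro r k
      rw [ev_sub, ev_mul, ev_C, hmΦ, hmΦ]
    unfold Cls
    constructor
    · rintro ⟨c1, c2, c3, c4, c5, c6⟩ k
      rcases k with ⟨r, k, b⟩ | k
      · have := abs_lt.1 (c1 r k)
        cases b
        · simp only [Sum.elim_inl, Bool.false_eq_true, if_false]
          rw [f2, hε]; linarith [this.2]
        · simp only [Sum.elim_inl, if_true]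
          rw [f1, hε]; linarith [this.1]
      · simp only [Sum.elim_inr]
        fin_cases k
        · show 0 < ev (q 0) (v, a)
          rw [e0]; linarith
        · show 0 < ev (q 1) (v, a)
          rw [e1]; linarith
        · show 0 < ev (q 2) (v, a)
          rw [e2]; linarith
        · show 0 < ev (q 3) (v, a)
          rw [e3]; linarith
        · show 0 < ev (q 4) (v, a)
          rw [e4]; linarith
    · intro h
      have g0 := h (Sum.inr 0)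
      have g1 := h (Sum.inr 1)
      have g2 := h (Sum.inr 2)
      have g3 := h (Sum.inr 3)
      have g4 := h (Sum.inr 4)
      simp only [Sum.elim_inr] at g0 g1 g2 g3 g4
      rw [e0] at g0
      rw [e1] at g1
      rw [e2] at g2
      rw [e3] at g3
      rw [e4] at g4
      refine ⟨?_, by linarith, by linarith, by linarith, by linarith, by linarith⟩
      intro r k
      have a1 := h (Sum.inl (r, k, true))
      have a2 := h (Sum.inl (r, k, false))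
      simp only [Sum.elim_inl, if_true, Bool.false_eq_true, if_false] at a1 a2
      rw [f1] at a1
      rw [f2] at a2
      rw [abs_lt, ← hε]
      constructor <;> linarith

end Dat

end Pool.Agent.D0H14.KP
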