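import Pool.Agent.D0H14.KP.Cls

set_option autoImplicit false

/-!
The constant of the one-dimensional estimate close to the critical exponent.
-/

open MeasureTheory Set Filter Topology ENNReal NNReal Metric

namespace Pool.Agent.D0H14.KP

open Pool.Agent.H805R3.Kk

theorem half_sing {s : ℝ} (hs1 : s < 1) :
    ∫⁻ u in Ioc (0:ℝ) 1, ENNReal.ofReal (|u| ^ (-s)) ≤ ENNReal.ofReal (1 / (1 - s)) := by
  have h1 : IntegrableOn (fun u : ℝ => u ^ (-s)) (Ioc 0 1) := by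
    have := intervalIntegral.intervalIntegrable_rpow' (a := 0) (b := 1) (r := -s) (by linarith)
    rwa [intervalIntegrable_iff_integrableOn_Ioc_of_le zero_le_one] at this
  have h2 : ∫⁻ u in Ioc (0:ℝ) 1, ENNReal.ofReal (|u| ^ (-s)) =
      ∫⁻ u in Ioc (0:ℝ) 1, ENNReal.ofReal (u ^ (-s)) := by
    apply setLIntegral_congr_fun measurableSet_Ioc
    intro u hu
    simp only
    rw [abs_of_pos hu.1]
  rw [h2, ← ofReal_integral_eq_lintegral_ofReal h1]
  · apply ENNReal.ofReal_le_ofReal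
    rw [← intervalIntegral.integral_of_le zero_le_one, integral_rpow (Or.inl (by linarith))]
    rw [Real.one_rpow, Real.zero_rpow (by linarith)]
    apply le_of_eq
    congr 1 <;> ring
  · filter_upwards [self_mem_ae_restrict measurableSet_Ioc] with u hu
    exact Real.rpow_nonneg hu.1.le _

theorem Ksing_le {s : ℝ} (hs1 : s < 1) : Ksing s ≤ ENNReal.ofReal (2 / (1 - s) + 3) := by
  have hpos : 0 < 1 - s := by linarith
  have h0 := half_sing hs1
  have hneg : ∫⁻ u in Ico (-1:ℝ) 0, ENNReal.ofReal (|u| ^ (-s)) =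
      ∫⁻ u in Ioc (0:ℝ) 1, ENNReal.ofReal (|u| ^ (-s)) := by
    have h1 := (Measure.measurePreserving_neg (volume : Measure ℝ)).setLIntegral_comp_preimage_emb
      (MeasurableEquiv.neg ℝ).measurableEmbedding
      (fun u : ℝ => ENNReal.ofReal (|u| ^ (-s))) (Ioc (0:ℝ) 1)
    have h2 : (Neg.neg : ℝ → ℝ) ⁻¹' (Ioc 0 1) = Ico (-1) 0 := by
      ext u
      simp only [mem_preimage, mem_Ioc, mem_Ico]
      constructor <;> rintro ⟨h3, h4⟩ <;> constructor <;> linarith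
    have h3 : (fun a : ℝ => -a) ⁻¹' (Ioc 0 1) = Ico (-1) 0 := h2
    simp only [abs_neg] at h1
    rw [h3] at h1
    exact h1
  unfold Ksing
  have hsub : Icc (-1:ℝ) 1 ⊆ (Ico (-1:ℝ) 0 ∪ {0}) ∪ Ioc (0:ℝ) 1 := by
    intro u hu
    rcases lt_trichotomy u 0 with h | h | h
    · exact Or.inl (Or.inl ⟨hu.1, h⟩)
    · exact Or.inl (Or.inr h)
    · exact Or.inr ⟨h, hu.2⟩
  calc (∫⁻ u in Icc (-1:ℝ) 1, ENNReal.ofReal (|u| ^ (-s))) + 3
      ≤ (∫⁻ u in (Ico (-1:ℝ) 0 ∪ {0}) ∪ Ioc (0:ℝ) 1, ENNReal.ofReal (|u| ^ (-s))) + 3 := by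
        gcongr
    _ ≤ ((∫⁻ u in Ico (-1:ℝ) 0 ∪ {0}, ENNReal.ofReal (|u| ^ (-s))) +
          ∫⁻ u in Ioc (0:ℝ) 1, ENNReal.ofReal (|u| ^ (-s))) + 3 := by
        gcongr
        exact lintegral_union_le _ _ _
    _ ≤ (((∫⁻ u in Ico (-1:ℝ) 0, ENNReal.ofReal (|u| ^ (-s))) +
          ∫⁻ u in {(0:ℝ)}, ENNReal.ofReal (|u| ^ (-s))) +
          ∫⁻ u in Ioc (0:ℝ) 1, ENNReal.ofReal (|u| ^ (-s))) + 3 := by
        gcongr
        exact lintegral_union_le _ _ _
    _ = ((∫⁻ u in Ioc (0:ℝ) 1, ENNReal.ofReal (|u| ^ (-s))) +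
          ∫⁻ u in Ioc (0:ℝ) 1, ENNReal.ofReal (|u| ^ (-s))) + 3 := by
        rw [hneg]
        simp
    _ ≤ (ENNReal.ofReal (1 / (1 - s)) + ENNReal.ofReal (1 / (1 - s))) + ENNReal.ofReal 3 := by
        gcongr
        simp
    _ = _ := by
        rw [← ENNReal.ofReal_add (by positivity) (by positivity),
          ← ENNReal.ofReal_add (by positivity) (by positivity)]
        congr 1
        ring

theorem Ap_le {d : ℕ} (hd : 1 ≤ d) {η : ℝ} (hη : 0 < η) (hη1 : η ≤ 1) :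
    Ap d (d + 1 + η) ≤ ENNReal.ofReal ((d * (2 * d + 5) / η) ^ (d + 1)) := by
  have hd1 : (1:ℝ) ≤ d := by exact_mod_cast hd
  unfold Ap
  have e1 : (d:ℝ) + 1 + η - 1 = d + η := by ring
  rw [e1]
  have hs1 : (d:ℝ) / (d + η) < 1 := by
    rw [div_lt_one (by positivity)]; linarith
  have h1 := Ksing_le hs1
  have h2 : 2 / (1 - (d:ℝ) / (d + η)) + 3 ≤ (2 * d + 5) / η := by
    have e2 : 1 - (d:ℝ) / (d + η) = η / (d + η) := by field_simp; ring
    rw [e2, div_div_eq_mul_div, le_div_iff₀ hη, add_mul, div_mul_cancel₀ _ hη.ne']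
    nlinarith
  have h3 : (d:ℝ≥0∞) * Ksing (d / (d + η)) ≤ ENNReal.ofReal (d * (2 * d + 5) / η) := by
    calc (d:ℝ≥0∞) * Ksing (d / (d + η)) ≤ ENNReal.ofReal d * ENNReal.ofReal ((2 * d + 5) / η) := by
          rw [ENNReal.ofReal_natCast]
          gcongr
          exact h1.trans (ENNReal.ofReal_le_ofReal h2)
      _ = _ := by
          rw [← ENNReal.ofReal_mul (by positivity)]
          congr 1; ring
  have h4 : 1 ≤ (d:ℝ) * (2 * d + 5) / η := by
    rw [le_div_iff₀ hη]; nlinarith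
  calc ((d:ℝ≥0∞) * Ksing (d / (d + η))) ^ ((d:ℝ) + η)
      ≤ ENNReal.ofReal (d * (2 * d + 5) / η) ^ ((d:ℝ) + η) :=
        ENNReal.rpow_le_rpow h3 (by positivity)
    _ ≤ ENNReal.ofReal (d * (2 * d + 5) / η) ^ (((d + 1 : ℕ)) : ℝ) := by
        apply ENNReal.rpow_le_rpow_of_exponent_le
        · rw [← ENNReal.ofReal_one]; exact ENNReal.ofReal_le_ofReal h4
        · push_cast; linarith
    _ = _ := by rw [ENNReal.rpow_natCast, ENNReal.ofReal_pow (by positivity)]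

theorem rpow_sum_le {ι : Type*} [Fintype ι] {p : ℝ} (hp : 1 ≤ p) (x : ι → ℝ≥0∞) :
    (∑ i, x i) ^ p ≤ (Fintype.card ι : ℝ≥0∞) ^ p * ∑ i, x i ^ p := by
  by_cases hne : Fintype.card ι = 0
  · have : IsEmpty ι := Fintype.card_eq_zero_iff.1 hne
    simp [ENNReal.zero_rpow_of_pos (show 0 < p by linarith)]
  have h := ENNReal.rpow_sum_le_const_mul_sum_rpow (s := (Finset.univ : Finset ι)) (f := x)
    (p := p) hp
  refine h.trans ?_
  gcongr ?_ * _
  rw [Finset.card_univ]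
  apply ENNReal.rpow_le_rpow_of_exponent_le
  · exact_mod_cast Nat.one_le_iff_ne_zero.2 hne
  · linarith

end Pool.Agent.D0H14.KP
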