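import Pool.Agent.D0H14.KP.Shear

set_option autoImplicit false

/-!
Nearby directions: every point is good for one of them or exceptional.
-/

open MeasureTheory Set Filter Topology ENNReal NNReal Metric

namespace Pool.Agent.D0H14.KP

open Pool.Agent.H803R2.Kak Pool.Agent.H803R2.KakFTO Pool.Agent.H805R3.Kk Pool.Agent.W770.SA
  Pool.Agent.R250.AC

variable {d : ℕ}

/-- The nearby velocities. -/
noncomputable def wd (δ : ℝ) (v : Vec d) : Option (Fin d) → Vec d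
  | none => v
  | some l => v + EuclideanSpace.single l δ

theorem norm_wd_sub {δ : ℝ} (hδ : 0 ≤ δ) (v : Vec d) (o : Option (Fin d)) : ‖wd δ v o - v‖ ≤ δ := by
  cases o with
  | none => simp [wd, hδ]
  | some l => simp [wd, abs_of_nonneg hδ]

theorem NN_eq (i₀ : Fin (d + 1)) (P Q : MvPolynomial (Fin (d + 1)) ℝ) (v : Vec d)
    (x : Vec d × ℝ) : NN i₀ P Q v x = pf i₀ (VV P Q i₀) x +
      ∑ l, v l * pf i₀ (VV P Q (i₀.succAbove l)) x := by
  unfold NN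
  rw [Fin.sum_univ_succAbove _ i₀]
  unfold dv
  simp only [crd_self, crd_above, one_mul]

theorem NN_wd (i₀ : Fin (d + 1)) (P Q : MvPolynomial (Fin (d + 1)) ℝ) (δ : ℝ) (v : Vec d)
    (l : Fin d) (x : Vec d × ℝ) : NN i₀ P Q (wd δ v (some l)) x = NN i₀ P Q v x +
      δ * pf i₀ (VV P Q (i₀.succAbove l)) x := by
  classical
  rw [NN_eq, NN_eq, add_assoc]
  congr 1
  unfold wd
  simp only [PiLp.add_apply, add_mul, Finset.sum_add_distrib]
  congr 1
  rw [Finset.sum_eq_single l]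
  · simp
  · intro j _ hj
    simp [hj]
  · intro h; exact absurd (Finset.mem_univ l) h

theorem WW_eq (i₀ : Fin (d + 1)) (P Q : MvPolynomial (Fin (d + 1)) ℝ) (x : Vec d × ℝ) :
    WW i₀ P Q x = pf i₀ (VV P Q i₀) x ^ 2 +
      ∑ l, pf i₀ (VV P Q (i₀.succAbove l)) x ^ 2 := by
  unfold WW
  rw [Fin.sum_univ_succAbove _ i₀]

/-- The constant of transversality. -/
noncomputable def c0 (d : ℕ) (R₀ : ℝ) : ℝ := 1 / ((1 + 2 * d * R₀) ^ 2 + 4 * d)

theorem c0_pos (d : ℕ) {R₀ : ℝ} (hR : 0 ≤ R₀) : 0 < c0 d R₀ := by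
  unfold c0; positivity

theorem transversal (i₀ : Fin (d + 1)) (P Q : MvPolynomial (Fin (d + 1)) ℝ) {δ : ℝ} (hδ : 0 < δ)
    (hδ1 : δ ≤ 1) {v : Vec d} {R₀ : ℝ} (hv : ‖v‖ ≤ R₀) {x : Vec d × ℝ} (hW : 0 < WW i₀ P Q x) :
    ∃ o, c0 d R₀ * δ ^ 2 * WW i₀ P Q x ≤ NN i₀ P Q (wd δ v o) x ^ 2 := by
  by_contra hno
  push Not at hno
  have hR0 : 0 ≤ R₀ := (norm_nonneg _).trans hv
  have hc0 := c0_pos d hR0
  set W := WW i₀ P Q x with hWd
  set m := √(c0 d R₀ * δ ^ 2 * W) with hm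
  have hm0 : 0 < m := Real.sqrt_pos.2 (by positivity)
  have hm2 : m ^ 2 = c0 d R₀ * δ ^ 2 * W := Real.sq_sqrt (by positivity)
  have hN : ∀ o, |NN i₀ P Q (wd δ v o) x| < m := by
    intro o
    apply Real.lt_sqrt_of_sq_lt
    rw [sq_abs]
    exact hno o
  have h0 := hN none
  have h0' : |NN i₀ P Q v x| < m := h0
  have hl : ∀ l, |pf i₀ (VV P Q (i₀.succAbove l)) x| ≤ 2 * (m / δ) := by
    intro l
    have h1 := hN (some l)
    rw [NN_wd] at h1
    have h2 : |δ * pf i₀ (VV P Q (i₀.succAbove l)) x| ≤ 2 * m := by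
      have e : δ * pf i₀ (VV P Q (i₀.succAbove l)) x = (NN i₀ P Q v x +
        δ * pf i₀ (VV P Q (i₀.succAbove l)) x) - NN i₀ P Q v x := by ring
      rw [e]
      refine (abs_sub _ _).trans ?_
      linarith
    rw [abs_mul, abs_of_pos hδ] at h2
    have h3 : 2 * (m / δ) = 2 * m / δ := by ring
    rw [h3, le_div_iff₀ hδ]
    linarith
  have hmδ : m ≤ m / δ := by rw [le_div_iff₀ hδ]; nlinarith
  have hi : |pf i₀ (VV P Q i₀) x| < (m / δ) * (1 + 2 * d * R₀) := by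
    have h1 : pf i₀ (VV P Q i₀) x = NN i₀ P Q v x -
        ∑ l, v l * pf i₀ (VV P Q (i₀.succAbove l)) x := by rw [NN_eq]; ring
    have h2 : |∑ l, v l * pf i₀ (VV P Q (i₀.succAbove l)) x| ≤ d * (R₀ * (2 * (m / δ))) := by
      refine (Finset.abs_sum_le_sum_abs _ _).trans ?_
      calc ∑ l, |v l * pf i₀ (VV P Q (i₀.succAbove l)) x| ≤ ∑ _l : Fin d, R₀ * (2 * (m / δ)) := by
            apply Finset.sum_le_sum
            intro l _
            rw [abs_mul]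
            have h3 : |v l| ≤ R₀ := by
              have := PiLp.norm_apply_le v l
              rw [Real.norm_eq_abs] at this
              exact this.trans hv
            have h4 := hl l
            gcongr
        _ = _ := by simp
    rw [h1]
    refine lt_of_le_of_lt (abs_sub _ _) ?_
    nlinarith
  have hW1 : W < (m / δ) ^ 2 * ((1 + 2 * d * R₀) ^ 2 + 4 * d) := by
    rw [hWd, WW_eq]
    have h1 : pf i₀ (VV P Q i₀) x ^ 2 < ((m / δ) * (1 + 2 * d * R₀)) ^ 2 := by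
      rw [← sq_abs]
      apply pow_lt_pow_left₀ hi (abs_nonneg _) (by norm_num)
    have h2 : ∑ l, pf i₀ (VV P Q (i₀.succAbove l)) x ^ 2 ≤ d * (2 * (m / δ)) ^ 2 := by
      calc ∑ l, pf i₀ (VV P Q (i₀.succAbove l)) x ^ 2 ≤ ∑ _l : Fin d, (2 * (m / δ)) ^ 2 := by
            apply Finset.sum_le_sum
            intro l _
            rw [← sq_abs]
            exact pow_le_pow_left₀ (abs_nonneg _) (hl l) 2
        _ = _ := by simp
    nlinarith
  have h3 : (m / δ) ^ 2 = c0 d R₀ * W := by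
    rw [div_pow, hm2]; field_simp
  rw [h3] at hW1
  unfold c0 at hW1
  have h4 : 0 < (1 + 2 * d * R₀) ^ 2 + 4 * d := by positivity
  have h5 : 1 / ((1 + 2 * d * R₀) ^ 2 + 4 * d) * W * ((1 + 2 * d * R₀) ^ 2 + 4 * d) = W := by
    field_simp
  rw [h5] at hW1
  exact lt_irrefl _ hW1



section cover

variable (i₀ : Fin (d + 1)) (P Q : MvPolynomial (Fin (d + 1)) ℝ) {q : ℕ}
    (T : Fin q → MvPolynomial (Fin (d + 1)) ℝ)

theorem VV_neg (j : Fin (d + 1)) : VV (-P) Q j = - VV P Q j := by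
  unfold VV
  rw [map_neg]; ring

theorem pf_neg (p : MvPolynomial (Fin (d + 1)) ℝ) (x : Vec d × ℝ) : pf i₀ (-p) x = - pf i₀ p x := by
  simp [pf]

theorem NN_neg (v : Vec d) (x : Vec d × ℝ) : NN i₀ (-P) Q v x = - NN i₀ P Q v x := by
  unfold NN
  simp only [VV_neg, pf_neg, mul_neg, Finset.sum_neg_distrib]

theorem WW_neg (x : Vec d × ℝ) : WW i₀ (-P) Q x = WW i₀ P Q x := by
  unfold WW
  simp only [VV_neg, pf_neg, neg_sq]

variable {k : ℕ} (hP : P.totalDegree ≤ k) (hP' : (-P).totalDegree ≤ k)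
    (hQ : Q.totalDegree ≤ k) (hT : ∀ j, (T j).totalDegree ≤ k)

theorem mk_zero : (mk i₀ P Q T hP hQ hT).Φ 0 = NN i₀ P Q := rfl

theorem mk_one : (mk i₀ P Q T hP hQ hT).Φ (Fin.succ 0) = fun _ => pf i₀ Q := rfl

theorem mk_two : (mk i₀ P Q T hP hQ hT).Φ (Fin.succ (Fin.succ 0)) = fun _ => WW i₀ P Q := rfl

theorem mk_succ (j : Fin q) :
    (mk i₀ P Q T hP hQ hT).Φ (Fin.succ (Fin.succ (Fin.succ j))) = fun _ => pf i₀ (T j) := rfl

theorem Φ_neg (r : Fin (q + 1 + 1 + 1)) :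
    (∀ v x, (mk i₀ (-P) Q T hP' hQ hT).Φ r v x = (mk i₀ P Q T hP hQ hT).Φ r v x) ∨
    (∀ v x, (mk i₀ (-P) Q T hP' hQ hT).Φ r v x = -(mk i₀ P Q T hP hQ hT).Φ r v x) := by
  refine Fin.cases ?_ (fun r => Fin.cases ?_ (fun r => Fin.cases ?_ (fun r => ?_) r) r) r
  · right
    intro v x
    rw [mk_zero, mk_zero, NN_neg]
  · left
    intro v x
    rw [mk_one, mk_one]
  · left
    intro v x
    rw [mk_two, mk_two]
    exact WW_neg i₀ P Q x
  · left
    intro v x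
    rw [mk_succ, mk_succ]

theorem Flat_neg (η h : ℝ) (v : Vec d) (x : Vec d × ℝ) :
    (mk i₀ (-P) Q T hP' hQ hT).Flat η h v x ↔ (mk i₀ P Q T hP hQ hT).Flat η h v x := by
  unfold Dat.Flat
  refine forall_congr' fun r => forall_congr' fun s => imp_congr_right fun _ => ?_
  rcases Φ_neg i₀ P Q T hP hP' hQ hT r with hr | hr
  · rw [hr, hr]
  · rw [hr, hr, abs_neg, ← neg_add', abs_neg, ← sub_eq_add_neg]

theorem F_neg (g : ℝ → ℝ≥0∞) (x : Vec d × ℝ) :
    (mk i₀ (-P) Q T hP' hQ hT).F (fun y => g (-y)) x = (mk i₀ P Q T hP hQ hT).F g x := by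
  have hA : (mk i₀ (-P) Q T hP' hQ hT).A = (mk i₀ P Q T hP hQ hT).A := rfl
  have hu : -(mk i₀ (-P) Q T hP' hQ hT).u x = (mk i₀ P Q T hP hQ hT).u x := by
    show -(pf i₀ (-P) x / pf i₀ Q x) = pf i₀ P x / pf i₀ Q x
    rw [pf_neg]; ring
  unfold Dat.F
  rw [hA]
  by_cases hx : x ∈ (mk i₀ P Q T hP hQ hT).A
  · rw [indicator_of_mem hx, indicator_of_mem hx, ← hu]
  · rw [indicator_of_notMem hx, indicator_of_notMem hx]

theorem good_of {κ : ℝ} {v : Vec d} {x : Vec d × ℝ} (hW : 0 < WW i₀ P Q x)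
    (hN : 0 < NN i₀ P Q v x) (hκ : κ * WW i₀ P Q x ≤ NN i₀ P Q v x ^ 2)
    (hA : (∀ j, 0 < pf i₀ (T j) x) ∧ 0 < pf i₀ Q x) : (mk i₀ P Q T hP hQ hT).Good κ v x := by
  refine ⟨?_, hκ⟩
  intro r
  refine Fin.cases ?_ (fun r => Fin.cases ?_ (fun r => Fin.cases ?_ (fun r => ?_) r) r) r
  · rw [mk_zero]; exact hN
  · rw [mk_one]; exact hA.2
  · rw [mk_two]; exact hW
  · rw [mk_succ]; exact hA.1 r

/-- Every point is good for a nearby direction or exceptional. -/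
theorem cover {δ : ℝ} (hδ : 0 < δ) (hδ1 : δ ≤ 1) {v : Vec d} {R₀ : ℝ} (hv : ‖v‖ ≤ R₀) (η h : ℝ)
    {g : ℝ → ℝ≥0∞} {τ : ℝ≥0∞} (hτ : ∀ y, g y ≤ τ) {x : Vec d × ℝ} (hW : 0 < WW i₀ P Q x) :
    (mk i₀ P Q T hP hQ hT).F g x ≤ ∑ o : Option (Fin d),
      ((mk i₀ P Q T hP hQ hT).Gd (c0 d R₀ * δ ^ 2) η h g (wd δ v o) x +
        (mk i₀ (-P) Q T hP' hQ hT).Gd (c0 d R₀ * δ ^ 2) η h (fun y => g (-y)) (wd δ v o) x +
        τ * (mk i₀ P Q T hP hQ hT).Bd η h (wd δ v o) x) := by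
  classical
  have hR0 : 0 ≤ R₀ := (norm_nonneg _).trans hv
  by_cases hA : (∀ j, 0 < pf i₀ (T j) x) ∧ 0 < pf i₀ Q x
  swap
  · have : (mk i₀ P Q T hP hQ hT).F g x = 0 := by
      unfold Dat.F
      exact indicator_of_notMem (by exact hA) _
    rw [this]
    exact zero_le
  obtain ⟨o, ho⟩ := transversal i₀ P Q hδ hδ1 hv hW
  refine le_trans ?_ (Finset.single_le_sum (f := fun o =>
      ((mk i₀ P Q T hP hQ hT).Gd (c0 d R₀ * δ ^ 2) η h g (wd δ v o) x +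
        (mk i₀ (-P) Q T hP' hQ hT).Gd (c0 d R₀ * δ ^ 2) η h (fun y => g (-y)) (wd δ v o) x +
        τ * (mk i₀ P Q T hP hQ hT).Bd η h (wd δ v o) x)) (fun _ _ => zero_le)
      (Finset.mem_univ o))
  have hpos : 0 < NN i₀ P Q (wd δ v o) x ^ 2 := by
    refine lt_of_lt_of_le ?_ ho
    have := c0_pos d hR0
    positivity
  by_cases hfl : (mk i₀ P Q T hP hQ hT).Flat η h (wd δ v o) x
  · rcases lt_trichotomy (NN i₀ P Q (wd δ v o) x) 0 with hN | hN | hN
    · refine le_trans ?_ (le_trans le_add_self le_self_add)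
      unfold Dat.Gd
      rw [indicator_of_mem]
      · rw [F_neg i₀ P Q T hP hP' hQ hT]
      · refine ⟨?_, (Flat_neg i₀ P Q T hP hP' hQ hT η h _ _).2 hfl⟩
        apply good_of
        · rw [WW_neg]; exact hW
        · rw [NN_neg]; linarith
        · rw [WW_neg, NN_neg, neg_sq]; exact ho
        · exact hA
    · rw [hN] at hpos
      norm_num at hpos
    · refine le_trans ?_ (le_trans le_self_add le_self_add)
      unfold Dat.Gd
      rw [indicator_of_mem]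
      exact ⟨good_of i₀ P Q T hP hQ hT hW hN ho hA, hfl⟩
  · refine le_trans ?_ le_add_self
    unfold Dat.Bd
    rw [indicator_of_mem (by exact hfl), Pi.one_apply, mul_one]
    exact (Dat.F_le _ _ _).trans (hτ _)

end cover

end Pool.Agent.D0H14.KP
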