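import Pool.Agent.D0H14.KP.Cover

set_option autoImplicit false

/-!
The bound for sheared cylinders.
-/

open MeasureTheory Set Filter Topology ENNReal NNReal Metric

namespace Pool.Agent.D0H14.KP

open Pool.Agent.H803R2.Kak Pool.Agent.H803R2.KakFTO Pool.Agent.H805R3.Kk Pool.Agent.W770.SA
  Pool.Agent.R250.AC

variable {d : ℕ}

/-- The bound for one line. -/
noncomputable def Bl {D M : ℕ} (𝔇 : Dat d D M) (Λ K κ R : ℝ) (J : ℕ) (g : ℝ → ℝ≥0∞) (p : ℝ)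
    (w : Vec d) : ℝ≥0∞ :=
  ((J + 1 : ℕ) : ℝ≥0∞) * (Dat.Np D M K : ℝ≥0∞) * (ENNReal.ofReal (5 / 2) *
    𝔇.Psi Λ κ R J g p w ^ (1 / p))

theorem Gd_cyl {D M : ℕ} (𝔇 : Dat d D M) {Λ : ℝ} (hD : 1 ≤ D) (hΛ : IsLam D Λ) {K : ℝ}
    (hK : IsK D (1 / (64 * Λ)) K) {κ : ℝ} (hκ : 0 < κ) {R : ℝ} {p : ℝ} (hp : 1 < p)
    {g : ℝ → ℝ≥0∞} (hg : Measurable g) (J : ℕ) {w : Vec d} (hw : ‖w‖ ≤ R) (x₀ : Vec d × ℝ) (r : ℝ) :
    ∫⁻ x in cyl w x₀ r, 𝔇.Gd κ (1 / (64 * Λ)) ((1 / 2) ^ J) g w x ≤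
      volume (closedBall (0 : Vec d) r) * Bl 𝔇 Λ K κ R J g p w := by
  refine shear_bound (𝔇.measurable_Gd κ _ _ hg w) ?_
  intro a t₀
  exact 𝔇.line_le hD hΛ hK hκ hp hg J hw a t₀

theorem Bd_cyl {D M : ℕ} (𝔇 : Dat d D M) {ε K : ℝ} (hK : IsK D ε K) {h : ℝ} (hh : 0 < h)
    (w : Vec d) (x₀ : Vec d × ℝ) (r : ℝ) :
    ∫⁻ x in cyl w x₀ r, 𝔇.Bd ε h w x ≤
      volume (closedBall (0 : Vec d) r) * (((M * D : ℕ) : ℝ≥0∞) * ENNReal.ofReal (2 * K * h)) := by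
  refine shear_bound (𝔇.measurable_Bd ε h w) ?_
  intro a t₀
  exact 𝔇.bad_line hK hh w a t₀

theorem cyl_bound (i₀ : Fin (d + 1)) (P Q : MvPolynomial (Fin (d + 1)) ℝ) {q : ℕ}
    (T : Fin q → MvPolynomial (Fin (d + 1)) ℝ) {k : ℕ} (hP : P.totalDegree ≤ k)
    (hP' : (-P).totalDegree ≤ k) (hQ : Q.totalDegree ≤ k) (hT : ∀ j, (T j).totalDegree ≤ k)
    (hW : ∀ᵐ x : Vec d × ℝ, 0 < WW i₀ P Q x) {Λ : ℝ} (hΛ : IsLam (4 * k + 1) Λ) {K : ℝ}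
    (hK : IsK (4 * k + 1) (1 / (64 * Λ)) K) {δ : ℝ} (hδ : 0 < δ) (hδ1 : δ ≤ 1) {R₀ : ℝ}
    {v : Vec d} (hv : ‖v‖ ≤ R₀) {p : ℝ} (hp : 1 < p) {g : ℝ → ℝ≥0∞} (hg : Measurable g)
    {τ : ℝ≥0∞} (hτt : τ ≠ ∞) (hτ : ∀ y, g y ≤ τ) (J : ℕ) (x₀ : Vec d × ℝ) (r : ℝ) :
    ∫⁻ x in cyl v x₀ r, (mk i₀ P Q T hP hQ hT).F g x ≤
      volume (closedBall (0 : Vec d) (r + 3 / 2 * δ)) * ∑ o : Option (Fin d),
        (Bl (mk i₀ P Q T hP hQ hT) Λ K (c0 d R₀ * δ ^ 2) (R₀ + 1) J g p (wd δ v o) +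
          Bl (mk i₀ (-P) Q T hP' hQ hT) Λ K (c0 d R₀ * δ ^ 2) (R₀ + 1) J (fun y => g (-y)) p
            (wd δ v o) +
          τ * ((((q + 1 + 1 + 1) * (4 * k + 1) : ℕ) : ℝ≥0∞) *
            ENNReal.ofReal (2 * K * (1 / 2) ^ J))) := by
  classical
  have hR0 : 0 ≤ R₀ := (norm_nonneg _).trans hv
  have hc0 := c0_pos d hR0
  have hκ : 0 < c0 d R₀ * δ ^ 2 := by positivity
  have hpos : (0:ℝ) < (1 / 2) ^ J := by positivity
  have hD : 1 ≤ 4 * k + 1 := by omega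
  set κ := c0 d R₀ * δ ^ 2 with hκd
  set η : ℝ := 1 / (64 * Λ) with hη
  set h : ℝ := (1 / 2) ^ J with hh
  set 𝔇 := mk i₀ P Q T hP hQ hT with h𝔇
  set 𝔇' := mk i₀ (-P) Q T hP' hQ hT with h𝔇'
  have hg' : Measurable (fun y => g (-y)) := hg.comp measurable_neg
  have hmG : ∀ o, Measurable (𝔇.Gd κ η h g (wd δ v o)) := fun o => 𝔇.measurable_Gd _ _ _ hg _
  have hmG' : ∀ o, Measurable (𝔇'.Gd κ η h (fun y => g (-y)) (wd δ v o)) :=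
    fun o => 𝔇'.measurable_Gd _ _ _ hg' _
  have hmB : ∀ o, Measurable (𝔇.Bd η h (wd δ v o)) := fun o => 𝔇.measurable_Bd _ _ _
  have hmGG : ∀ o, Measurable (fun x => 𝔇.Gd κ η h g (wd δ v o) x +
      𝔇'.Gd κ η h (fun y => g (-y)) (wd δ v o) x) := fun o => (hmG o).add (hmG' o)
  have hmS : ∀ o, Measurable (fun x => 𝔇.Gd κ η h g (wd δ v o) x +
      𝔇'.Gd κ η h (fun y => g (-y)) (wd δ v o) x + τ * 𝔇.Bd η h (wd δ v o) x) :=
    fun o => ((hmG o).add (hmG' o)).add ((hmB o).const_mul _)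
  calc ∫⁻ x in cyl v x₀ r, 𝔇.F g x
      ≤ ∫⁻ x in cyl v x₀ r, ∑ o : Option (Fin d), (𝔇.Gd κ η h g (wd δ v o) x +
        𝔇'.Gd κ η h (fun y => g (-y)) (wd δ v o) x + τ * 𝔇.Bd η h (wd δ v o) x) := by
        apply lintegral_mono_ae
        apply ae_restrict_of_ae
        filter_upwards [hW] with x hx
        exact cover i₀ P Q T hP hP' hQ hT hδ hδ1 hv η h hτ hx
    _ = ∑ o : Option (Fin d), ∫⁻ x in cyl v x₀ r, (𝔇.Gd κ η h g (wd δ v o) x +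
        𝔇'.Gd κ η h (fun y => g (-y)) (wd δ v o) x + τ * 𝔇.Bd η h (wd δ v o) x) :=
        lintegral_finsetSum _ (fun o _ => hmS o)
    _ ≤ ∑ o : Option (Fin d), volume (closedBall (0 : Vec d) (r + 3 / 2 * δ)) *
        (Bl 𝔇 Λ K κ (R₀ + 1) J g p (wd δ v o) +
          Bl 𝔇' Λ K κ (R₀ + 1) J (fun y => g (-y)) p (wd δ v o) +
          τ * ((((q + 1 + 1 + 1) * (4 * k + 1) : ℕ) : ℝ≥0∞) * ENNReal.ofReal (2 * K * h))) := by
        apply Finset.sum_le_sum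
        intro o _
        have hwo := norm_wd_sub hδ.le v o
        have hwR : ‖wd δ v o‖ ≤ R₀ + 1 := by
          calc ‖wd δ v o‖ = ‖(wd δ v o - v) + v‖ := by congr 1; abel
            _ ≤ ‖wd δ v o - v‖ + ‖v‖ := norm_add_le _ _
            _ ≤ R₀ + 1 := by linarith
        have hsub := cyl_sub (x₀ := x₀) (r := r) hwo
        calc ∫⁻ x in cyl v x₀ r, (𝔇.Gd κ η h g (wd δ v o) x +
              𝔇'.Gd κ η h (fun y => g (-y)) (wd δ v o) x + τ * 𝔇.Bd η h (wd δ v o) x)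
            ≤ ∫⁻ x in cyl (wd δ v o) x₀ (r + 3 / 2 * δ), (𝔇.Gd κ η h g (wd δ v o) x +
              𝔇'.Gd κ η h (fun y => g (-y)) (wd δ v o) x + τ * 𝔇.Bd η h (wd δ v o) x) :=
              lintegral_mono_set hsub
          _ = (∫⁻ x in cyl (wd δ v o) x₀ (r + 3 / 2 * δ), 𝔇.Gd κ η h g (wd δ v o) x) +
              (∫⁻ x in cyl (wd δ v o) x₀ (r + 3 / 2 * δ),
                𝔇'.Gd κ η h (fun y => g (-y)) (wd δ v o) x) +
              τ * ∫⁻ x in cyl (wd δ v o) x₀ (r + 3 / 2 * δ), 𝔇.Bd η h (wd δ v o) x := by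
              rw [lintegral_add_left (hmGG o), lintegral_add_left (hmG o),
                lintegral_const_mul' _ _ hτt]
          _ ≤ volume (closedBall (0 : Vec d) (r + 3 / 2 * δ)) *
                Bl 𝔇 Λ K κ (R₀ + 1) J g p (wd δ v o) +
              volume (closedBall (0 : Vec d) (r + 3 / 2 * δ)) *
                Bl 𝔇' Λ K κ (R₀ + 1) J (fun y => g (-y)) p (wd δ v o) +
              τ * (volume (closedBall (0 : Vec d) (r + 3 / 2 * δ)) *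
                ((((q + 1 + 1 + 1) * (4 * k + 1) : ℕ) : ℝ≥0∞) * ENNReal.ofReal (2 * K * h))) := by
              refine add_le_add (add_le_add ?_ ?_) (mul_le_mul' le_rfl ?_)
              · exact Gd_cyl 𝔇 hD hΛ hK hκ hp hg J hwR x₀ _
              · exact Gd_cyl 𝔇' hD hΛ hK hκ hp hg' J hwR x₀ _
              · exact Bd_cyl 𝔇 hK hpos _ x₀ _
          _ = _ := by ring
    _ = _ := by rw [Finset.mul_sum]

end Pool.Agent.D0H14.KP
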