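import Pool.Agent.D0H14.KP.Cls

set_option autoImplicit false

/-!
Lines of a class: the lower bound and the bound of the measure of the class.
-/

open MeasureTheory Set Filter Topology ENNReal NNReal Metric

namespace Pool.Agent.D0H14.KP

open Pool.Agent.H803R2.Kak Pool.Agent.H803R2.KakFTO Pool.Agent.H805R3.Kk Pool.Agent.W770.SA
  Pool.Agent.R250.AC

variable {d : ℕ}

/-- `Λ` is an interpolation constant. -/
def IsLam (D : ℕ) (Λ : ℝ) : Prop :=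
  1 ≤ Λ ∧ ∀ (p : Polynomial ℝ) (t₀ h c M : ℝ),
    p.natDegree ≤ D → 0 < h → (∀ k : ℕ, k ≤ D → |p.eval (t₀ + (k:ℝ) / D * h) - c| ≤ M) →
    ∀ s ∈ Icc t₀ (t₀ + h), |p.eval s - c| ≤ Λ * M

theorem ratio_bounds {n q n₀ q₀ : ℝ} (hn₀ : 0 < n₀) (hq₀ : 0 < q₀) (hn : |n - n₀| ≤ 1 / 16 * n₀)
    (hq : |q - q₀| ≤ 1 / 16 * q₀) :
    0 < q ∧ 0 < n ∧ 4 / 5 * (n₀ / q₀ ^ 2) ≤ n / q ^ 2 ∧ n / q ^ 2 ≤ 5 / 4 * (n₀ / q₀ ^ 2) := by
  obtain ⟨h1, h2⟩ := abs_le.1 hn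
  obtain ⟨h3, h4⟩ := abs_le.1 hq
  have hq0 : 0 < q := by linarith
  have hn0 : 0 < n := by linarith
  refine ⟨hq0, hn0, ?_, ?_⟩
  · rw [← mul_div_assoc, div_le_div_iff₀ (by positivity) (by positivity)]
    have a1 : q ^ 2 ≤ (17 / 16 * q₀) ^ 2 := by
      apply pow_le_pow_left₀ hq0.le; linarith
    have a2 : 15 / 16 * n₀ ≤ n := by linarith
    calc 4 / 5 * n₀ * q ^ 2 ≤ 4 / 5 * n₀ * (17 / 16 * q₀) ^ 2 := by gcongr
      _ ≤ (15 / 16 * n₀) * q₀ ^ 2 := by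
          have : 0 < n₀ * q₀ ^ 2 := by positivity
          nlinarith
      _ ≤ n * q₀ ^ 2 := by gcongr
  · rw [← mul_div_assoc, div_le_div_iff₀ (by positivity) (by positivity)]
    have a1 : (15 / 16 * q₀) ^ 2 ≤ q ^ 2 := by
      apply pow_le_pow_left₀ (by positivity); linarith
    have a2 : n ≤ 17 / 16 * n₀ := by linarith
    calc n * q₀ ^ 2 ≤ (17 / 16 * n₀) * q₀ ^ 2 := by gcongr
      _ ≤ 5 / 4 * n₀ * (15 / 16 * q₀) ^ 2 := by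
          have : 0 < n₀ * q₀ ^ 2 := by positivity
          nlinarith
      _ ≤ _ := by gcongr

namespace Dat

variable {D M : ℕ} (𝔇 : Dat d D M) {Λ κ h t₁ : ℝ} {i w : ℤ} {v a : Vec d}

theorem cls_flat (hΛ : IsLam D Λ) (hh : 0 < h) (hc : 𝔇.Cls Λ κ h t₁ i w v a) (r : Fin M) :
    0 < 𝔇.Φ r v (a + t₁ • v, t₁) ∧ ∀ s ∈ Icc t₁ (t₁ + h),
      |𝔇.Φ r v (a + s • v, s) - 𝔇.Φ r v (a + t₁ • v, t₁)| ≤
        1 / 16 * 𝔇.Φ r v (a + t₁ • v, t₁) := by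
  have hΛ0 : 0 < Λ := by linarith [hΛ.1]
  have h1 := hc.1 r
  have hpos : 0 < 𝔇.Φ r v (a + t₁ • v, t₁) := by
    have h2 := (abs_nonneg _).trans_lt (h1 0)
    by_contra hno
    push Not at hno
    have : 1 / (16 * Λ) * 𝔇.Φ r v (a + t₁ • v, t₁) ≤ 0 :=
      mul_nonpos_of_nonneg_of_nonpos (by positivity) hno
    linarith
  refine ⟨hpos, fun s hs => ?_⟩
  obtain ⟨p, hpd, hp⟩ := (𝔇.hΦ r).2.1 v a
  have h3 := hΛ.2 p t₁ h (𝔇.Φ r v (a + t₁ • v, t₁)) (1 / (16 * Λ) * 𝔇.Φ r v (a + t₁ • v, t₁)) hpd hh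
    (fun k hk => by
      rw [hp]
      exact (h1 ⟨k, Nat.lt_succ_of_le hk⟩).le) s hs
  rw [hp] at h3
  refine h3.trans (le_of_eq ?_)
  field_simp

theorem cls_slope (hΛ : IsLam D Λ) (hh : 0 < h) (hc : 𝔇.Cls Λ κ h t₁ i w v a) :
    0 < 𝔇.Q (a + t₁ • v, t₁) ∧
    (2:ℝ) ^ (i - 1) < 𝔇.Φ 𝔇.rN v (a + t₁ • v, t₁) / 𝔇.Q (a + t₁ • v, t₁) ^ 2 ∧
    𝔇.Φ 𝔇.rN v (a + t₁ • v, t₁) / 𝔇.Q (a + t₁ • v, t₁) ^ 2 < (2:ℝ) ^ (i + 1) ∧
    ∀ s ∈ Icc t₁ (t₁ + h), 0 < 𝔇.Q (a + s • v, s) ∧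
      4 / 5 * (𝔇.Φ 𝔇.rN v (a + t₁ • v, t₁) / 𝔇.Q (a + t₁ • v, t₁) ^ 2) ≤
        𝔇.Φ 𝔇.rN v (a + s • v, s) / 𝔇.Q (a + s • v, s) ^ 2 ∧
      𝔇.Φ 𝔇.rN v (a + s • v, s) / 𝔇.Q (a + s • v, s) ^ 2 ≤
        5 / 4 * (𝔇.Φ 𝔇.rN v (a + t₁ • v, t₁) / 𝔇.Q (a + t₁ • v, t₁) ^ 2) := by
  obtain ⟨hN0, hNf⟩ := 𝔇.cls_flat hΛ hh hc 𝔇.rN
  obtain ⟨hQ0, hQf⟩ := 𝔇.cls_flat hΛ hh hc 𝔇.rQ
  rw [𝔇.hQ] at hQ0 hQf
  have hQ2 : 0 < 𝔇.Q (a + t₁ • v, t₁) ^ 2 := by positivity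
  refine ⟨hQ0, ?_, ?_, ?_⟩
  · rw [lt_div_iff₀ hQ2]; exact hc.2.1
  · rw [div_lt_iff₀ hQ2]; exact hc.2.2.1
  · intro s hs
    obtain ⟨h1, -, h2, h3⟩ := ratio_bounds hN0 hQ0 (hNf s hs) (hQf s hs)
    exact ⟨h1, h2, h3⟩

/-- The region in which the lines of a class are considered. -/
def Sc (R κ h t₁ : ℝ) (i w : ℤ) : Set (Vec d × ℝ) :=
  {x | x.2 ∈ Icc t₁ (t₁ + h) ∧
    𝔇.u x ∈ Ico (w * (h * 2 ^ i / 8)) ((w + 1) * (h * 2 ^ i / 8)) ∧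
    4 / 25 * 4 ^ i ≤ (1 + R ^ 2) * 𝔇.om x ∧ κ * 𝔇.om x ≤ 16 * 4 ^ i}

theorem measurableSet_Sc (R κ h t₁ : ℝ) (i w : ℤ) : MeasurableSet (𝔇.Sc R κ h t₁ i w) := by
  have h1 := 𝔇.measurable_u
  have h2 := 𝔇.measurable_om
  have e1 : MeasurableSet {x : Vec d × ℝ | x.2 ∈ Icc t₁ (t₁ + h)} := measurable_snd measurableSet_Icc
  have e2 : MeasurableSet {x : Vec d × ℝ | 𝔇.u x ∈ Ico (w * (h * 2 ^ i / 8))
    ((w + 1) * (h * 2 ^ i / 8))} := h1 measurableSet_Ico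
  have e3 : MeasurableSet {x : Vec d × ℝ | 4 / 25 * 4 ^ i ≤ (1 + R ^ 2) * 𝔇.om x} :=
    measurableSet_le measurable_const (h2.const_mul _)
  have e4 : MeasurableSet {x : Vec d × ℝ | κ * 𝔇.om x ≤ 16 * 4 ^ i} :=
    measurableSet_le (h2.const_mul _) measurable_const
  exact e1.inter (e2.inter (e3.inter e4))

theorem cls_pos (hΛ : IsLam D Λ) (hh : 0 < h) (hc : 𝔇.Cls Λ κ h t₁ i w v a) {s : ℝ}
    (hs : s ∈ Icc t₁ (t₁ + h)) (r : Fin M) : 0 < 𝔇.Φ r v (a + s • v, s) := by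
  obtain ⟨h1, h2⟩ := 𝔇.cls_flat hΛ hh hc r
  have := (abs_le.1 (h2 s hs)).1
  linarith

theorem cls_om (hΛ : IsLam D Λ) (hκ : 0 < κ) (hh : 0 < h) (hc : 𝔇.Cls Λ κ h t₁ i w v a) {R : ℝ}
    (hv : ‖v‖ ≤ R) {s : ℝ} (hs : s ∈ Icc t₁ (t₁ + h)) :
    4 / 25 * 4 ^ i ≤ (1 + R ^ 2) * 𝔇.om (a + s • v, s) ∧ κ * 𝔇.om (a + s • v, s) ≤ 16 * 4 ^ i := by
  obtain ⟨hQ0, hσ1, hσ2, hsl⟩ := 𝔇.cls_slope hΛ hh hc
  obtain ⟨hQs, hs1, hs2⟩ := hsl s hs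
  obtain ⟨hW0, hWf⟩ := 𝔇.cls_flat hΛ hh hc 𝔇.rW
  obtain ⟨hq0, hqf⟩ := 𝔇.cls_flat hΛ hh hc 𝔇.rQ
  rw [𝔇.hW] at hW0 hWf
  rw [𝔇.hQ] at hq0 hqf
  have h4i : (4:ℝ) ^ i = (2 ^ i) ^ 2 := by
    rw [← zpow_natCast, ← zpow_mul, mul_comm i, zpow_mul]; norm_num
  have h2i : (0:ℝ) < 2 ^ i := by positivity
  constructor
  · have h1 := 𝔇.hNW v (a + s • v, s)
    set n := 𝔇.Φ 𝔇.rN v (a + s • v, s) with hn
    set q := 𝔇.Q (a + s • v, s) with hq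
    set W := 𝔇.W (a + s • v, s) with hWdef
    have h2 : 2 / 5 * 2 ^ i ≤ n / q ^ 2 := by
      refine le_trans ?_ hs1
      have : (2:ℝ) ^ (i - 1) = 2 ^ i / 2 := by rw [zpow_sub_one₀ (by norm_num)]; ring
      rw [this] at hσ1
      linarith
    have h3 : (2 / 5 * 2 ^ i) ^ 2 ≤ (n / q ^ 2) ^ 2 := pow_le_pow_left₀ (by positivity) h2 2
    have hv2 : ‖v‖ ^ 2 ≤ R ^ 2 := pow_le_pow_left₀ (norm_nonneg _) hv 2
    have hom : 𝔇.om (a + s • v, s) = W / q ^ 4 := rfl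
    have hW : 0 ≤ W := by
      have : 0 ≤ n ^ 2 := sq_nonneg _
      by_contra hno
      push Not at hno
      have : (1 + ‖v‖ ^ 2) * W < 0 := mul_neg_of_pos_of_neg (by positivity) hno
      linarith
    rw [hom, h4i]
    calc 4 / 25 * (2 ^ i) ^ 2 = (2 / 5 * 2 ^ i) ^ 2 := by ring
      _ ≤ (n / q ^ 2) ^ 2 := h3
      _ = n ^ 2 / q ^ 4 := by rw [div_pow]; congr 1; ring
      _ ≤ ((1 + ‖v‖ ^ 2) * W) / q ^ 4 := by gcongr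
      _ ≤ ((1 + R ^ 2) * W) / q ^ 4 := by gcongr
      _ = _ := by ring
  · have h1 := hc.2.2.2.2.2
    have h2 := (abs_le.1 (hWf s hs)).2
    have h3 := (abs_le.1 (hqf s hs)).1
    set q := 𝔇.Q (a + s • v, s) with hq
    set q₀ := 𝔇.Q (a + t₁ • v, t₁) with hq₀
    have hom : 𝔇.om (a + s • v, s) = 𝔇.W (a + s • v, s) / q ^ 4 := rfl
    have h4 : (15 / 16 * q₀) ^ 4 ≤ q ^ 4 := pow_le_pow_left₀ (by positivity) (by linarith) 4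
    have hq4 : 0 < q ^ 4 := by positivity
    rw [hom, ← mul_div_assoc, div_le_iff₀ hq4]
    have h5 : (0:ℝ) < 4 ^ i := by positivity
    calc κ * 𝔇.W (a + s • v, s) ≤ κ * (17 / 16 * 𝔇.W (a + t₁ • v, t₁)) := by
          gcongr; linarith
      _ = 17 / 16 * (κ * 𝔇.W (a + t₁ • v, t₁)) := by ring
      _ ≤ 17 / 16 * (8 * 4 ^ i * q₀ ^ 4) := by gcongr
      _ ≤ 16 * 4 ^ i * (15 / 16 * q₀) ^ 4 := by
          have : 0 < (4:ℝ) ^ i * q₀ ^ 4 := by positivity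
          nlinarith
      _ ≤ _ := by gcongr

/-- The part of the integral of `g` that belongs to a class. -/
noncomputable def Mc (g : ℝ → ℝ≥0∞) (h : ℝ) (i w : ℤ) : ℝ≥0∞ :=
  ENNReal.ofReal ((2:ℝ) ^ (-i)) * ∫⁻ y in Ico (w * (h * 2 ^ i / 8)) ((w + 1) * (h * 2 ^ i / 8)), g y

theorem cls_lower (hΛ : IsLam D Λ) (hκ : 0 < κ) (hh : 0 < h) (hh1 : h ≤ 1)
    (hc : 𝔇.Cls Λ κ h t₁ i w v a) {R : ℝ} (hv : ‖v‖ ≤ R) (g : ℝ → ℝ≥0∞) :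
    ENNReal.ofReal (2 / 5) * Mc g h i w ≤
      ∫⁻ t in Icc t₁ (t₁ + 3), (𝔇.Sc R κ h t₁ i w).indicator (𝔇.F g) (a + t • v, t) := by
  obtain ⟨hQ0, hσ1, hσ2, hsl⟩ := 𝔇.cls_slope hΛ hh hc
  set σ := 𝔇.Φ 𝔇.rN v (a + t₁ • v, t₁) / 𝔇.Q (a + t₁ • v, t₁) ^ 2 with hσ
  have hσ0 : 0 < σ := lt_trans (by positivity) hσ1
  set A₁ : ℝ := w * (h * 2 ^ i / 8) with hA₁
  set A₂ : ℝ := (w + 1) * (h * 2 ^ i / 8) with hA₂
  set U : ℝ → ℝ := fun s => 𝔇.P (a + s • v, s) / 𝔇.Q (a + s • v, s) with hU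
  set U' : ℝ → ℝ := fun s => 𝔇.Φ 𝔇.rN v (a + s • v, s) / 𝔇.Q (a + s • v, s) ^ 2 with hU'
  have hder : ∀ s ∈ Icc t₁ (t₁ + h), HasDerivAt U (U' s) s :=
    fun s hs => 𝔇.hder v a s (hsl s hs).1
  have h1 : U t₁ ≤ A₁ := by
    have := hc.2.2.2.1
    rw [hU]; simp only
    rw [div_le_iff₀ hQ0]
    exact this.le
  have h2 : A₂ ≤ U (t₁ + h) := by
    have hend : t₁ + h ∈ Icc t₁ (t₁ + h) := ⟨by linarith, le_rfl⟩
    have := hc.2.2.2.2.1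
    rw [hU]; simp only
    rw [le_div_iff₀ (hsl _ hend).1]
    exact this.le
  have h3 := lower (by linarith) hder (σ := 5 / 4 * σ)
    (fun t ht => lt_of_lt_of_le (by positivity) (hsl t ht).2.1) (fun t ht => (hsl t ht).2.2)
    h1 h2 g
  set S := Icc t₁ (t₁ + h) ∩ U ⁻¹' (Ico A₁ A₂) with hS
  have h4 : ∫⁻ t in S, g (U t) ≤
      ∫⁻ t in Icc t₁ (t₁ + 3), (𝔇.Sc R κ h t₁ i w).indicator (𝔇.F g) (a + t • v, t) := by
    have hSm : MeasurableSet S := by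
      have hm : Measurable U := by
        have : Measurable fun s : ℝ => ((a + s • v, s) : Vec d × ℝ) := by fun_prop
        exact (𝔇.measurable_u).comp this
      exact measurableSet_Icc.inter (hm measurableSet_Ico)
    calc ∫⁻ t in S, g (U t) ≤
        ∫⁻ t in S, (𝔇.Sc R κ h t₁ i w).indicator (𝔇.F g) (a + t • v, t) := by
          apply setLIntegral_mono' hSm
          intro t ht
          have hmem : ((a + t • v, t) : Vec d × ℝ) ∈ 𝔇.Sc R κ h t₁ i w := by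
            refine ⟨ht.1, ht.2, ?_⟩
            exact 𝔇.cls_om hΛ hκ hh hc hv ht.1
          rw [indicator_of_mem hmem]
          have hA : ((a + t • v, t) : Vec d × ℝ) ∈ 𝔇.A := 𝔇.hA v _ (fun r => 𝔇.cls_pos hΛ hh hc ht.1 r)
          unfold F
          rw [indicator_of_mem hA]
          exact le_rfl
      _ ≤ _ := lintegral_mono_set (by
          intro t ht
          exact ⟨ht.1.1, ht.1.2.trans (by linarith)⟩)
  refine le_trans ?_ h4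
  have h5 : ENNReal.ofReal (5 / 4 * σ) ≤ ENNReal.ofReal (5 / 2 * 2 ^ i) := by
    apply ENNReal.ofReal_le_ofReal
    have : (2:ℝ) ^ (i + 1) = 2 ^ i * 2 := by rw [zpow_add_one₀ (by norm_num)]
    rw [this] at hσ2
    linarith
  have h2i : (0:ℝ) < 2 ^ i := by positivity
  calc ENNReal.ofReal (2 / 5) * Mc g h i w
      = (ENNReal.ofReal (2 / 5) * ENNReal.ofReal ((2:ℝ) ^ (-i))) * ∫⁻ y in Ico A₁ A₂, g y := by
        unfold Mc; rw [mul_assoc]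
    _ ≤ (ENNReal.ofReal (2 / 5) * ENNReal.ofReal ((2:ℝ) ^ (-i))) *
        (ENNReal.ofReal (5 / 2 * 2 ^ i) * ∫⁻ t in S, g (U t)) := by
        gcongr
        refine h3.trans ?_
        gcongr
    _ = ∫⁻ t in S, g (U t) := by
        rw [← mul_assoc, ← ENNReal.ofReal_mul (by norm_num), ← ENNReal.ofReal_mul (by positivity)]
        have : 2 / 5 * (2:ℝ) ^ (-i) * (5 / 2 * 2 ^ i) = 1 := by
          rw [zpow_neg]; field_simp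
        rw [this, ENNReal.ofReal_one, one_mul]

/-- The velocities of the lines of a class. -/
def Om (Λ κ R h t₁ : ℝ) (i w : ℤ) : Set (Vec d) :=
  {v | v ∈ closedBall (0 : Vec d) R ∧ ∃ a, 𝔇.Cls Λ κ h t₁ i w v a}

theorem cls_volume (hd : 1 ≤ d) (hΛ : IsLam D Λ) (hκ : 0 < κ) (hh : 0 < h) (hh1 : h ≤ 1) {R : ℝ}
    {g : ℝ → ℝ≥0∞} (hg : Measurable g) {p : ℝ} (hp : 1 < p) (t₁ : ℝ) (i w : ℤ) :
    (ENNReal.ofReal (2 / 5) * Mc g h i w) ^ p * volume (𝔇.Om Λ κ R h t₁ i w) ≤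
      Ap d p * (bez d (2 + EE D M) *
        ∫⁻ q, (𝔇.Sc R κ h t₁ i w).indicator (fun q => 𝔇.F g q ^ p) q) := by
  obtain ⟨Q, hQd, hQ⟩ := 𝔇.cls_polys Λ κ h t₁ i w
  have hF : Measurable ((𝔇.Sc R κ h t₁ i w).indicator (𝔇.F g)) :=
    (𝔇.measurable_F hg).indicator (𝔇.measurableSet_Sc R κ h t₁ i w)
  have h1 := class_bound hd Q hQd (B₀ := closedBall (0 : Vec d) R) measurableSet_closedBall hp hF
    (ENNReal.ofReal (2 / 5) * Mc g h i w) t₁ (fun v hv a hva => by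
      have hc := (hQ v a).2 hva
      exact 𝔇.cls_lower hΛ hκ hh hh1 hc (by simpa using hv) g)
  have h2 : {v : Vec d | v ∈ closedBall (0 : Vec d) R ∧ ∃ z, ∀ k, 0 < ev (Q k) (v, z)} =
      𝔇.Om Λ κ R h t₁ i w := by
    ext v
    simp only [Om, mem_ofPred_eq, hQ]
  rw [h2] at h1
  refine h1.trans (le_of_eq ?_)
  congr 3
  ext q
  by_cases hq : q ∈ 𝔇.Sc R κ h t₁ i w
  · rw [indicator_of_mem hq, indicator_of_mem hq]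
  · rw [indicator_of_notMem hq, indicator_of_notMem hq, ENNReal.zero_rpow_of_pos (by linarith)]

theorem measurableSet_Om (Λ κ R h t₁ : ℝ) (i w : ℤ) : MeasurableSet (𝔇.Om Λ κ R h t₁ i w) := by
  obtain ⟨Q, hQd, hQ⟩ := 𝔇.cls_polys Λ κ h t₁ i w
  have h2 : 𝔇.Om Λ κ R h t₁ i w = closedBall (0 : Vec d) R ∩
      ⋃ a : Vec d, ⋂ k, {v : Vec d | 0 < ev (Q k) (v, a)} := by
    ext v
    simp only [Om, mem_ofPred_eq, hQ, mem_inter_iff, mem_iUnion, mem_iInter]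
  rw [h2]
  apply measurableSet_closedBall.inter
  apply IsOpen.measurableSet
  apply isOpen_iUnion
  intro a
  apply isOpen_iInter_of_finite
  intro k
  exact isOpen_lt continuous_const ((contDiff_ev _).continuous.comp (by fun_prop))

end Dat

end Pool.Agent.D0H14.KP
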