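import Pool.Agent.D0H14.KP.StepC

set_option autoImplicit false

/-!
The estimate at the critical exponent for bounded functions of one quotient, one chart.
-/

open MeasureTheory Set Filter Topology ENNReal NNReal Metric

namespace Pool.Agent.D0H14.KP

open Pool.Agent.H803R2.Kak Pool.Agent.H803R2.KakFTO Pool.Agent.R250.AC

variable {d : ℕ}

theorem rpow_le_pow {U : ℝ} (hU : 1 ≤ U) {p : ℝ} {n : ℕ} (hp : p ≤ n) :
    ENNReal.ofReal U ^ p ≤ ENNReal.ofReal (U ^ n) := by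
  rw [ENNReal.ofReal_pow (by linarith), ← ENNReal.rpow_natCast]
  apply ENNReal.rpow_le_rpow_of_exponent_le _ hp
  rw [← ENNReal.ofReal_one]
  exact ENNReal.ofReal_le_ofReal hU

theorem F_rpow_le {F : Vec d × ℝ → ℝ≥0∞} (hF : Measurable F) {A δ η : ℝ} (hA : 0 < A) (hδ : 0 < δ)
    (hη : 0 < η) (hτ : ∀ x, F x ≤ ENNReal.ofReal (A / δ))
    (hI : ∫⁻ x, F x ^ (d + 1) ≤ ENNReal.ofReal (A ^ (d + 1))) :
    ∫⁻ x, F x ^ ((d:ℝ) + 1 + η) ≤ ENNReal.ofReal ((A / δ) ^ η * A ^ (d + 1)) := by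
  have hpos : 0 < A / δ := by positivity
  calc ∫⁻ x, F x ^ ((d:ℝ) + 1 + η) ≤ ∫⁻ x, ENNReal.ofReal ((A / δ) ^ η) * F x ^ (d + 1) := by
        apply lintegral_mono
        intro x
        show F x ^ ((d:ℝ) + 1 + η) ≤ ENNReal.ofReal ((A / δ) ^ η) * F x ^ (d + 1)
        rw [add_comm ((d:ℝ) + 1) η, ENNReal.rpow_add_of_nonneg _ _ hη.le (by positivity)]
        have e : F x ^ ((d:ℝ) + 1) = F x ^ (d + 1) := by
          rw [← ENNReal.rpow_natCast]; push_cast; rfl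
        rw [e]
        gcongr
        rw [← ENNReal.ofReal_rpow_of_pos hpos]
        exact ENNReal.rpow_le_rpow (hτ x) hη.le
    _ = ENNReal.ofReal ((A / δ) ^ η) * ∫⁻ x, F x ^ (d + 1) := by
        rw [lintegral_const_mul' _ _ ENNReal.ofReal_ne_top]
    _ ≤ ENNReal.ofReal ((A / δ) ^ η) * ENNReal.ofReal (A ^ (d + 1)) := by gcongr
    _ = _ := by rw [← ENNReal.ofReal_mul (by positivity)]

theorem psi_bound (hd : 1 ≤ d) {D M : ℕ} (𝔇 : Dat d D M) {Λ : ℝ} (hΛ : IsLam D Λ) {R₀ : ℝ}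
    (hR₀ : 0 ≤ R₀) {n₁ : ℕ} (hn₁ : 100 * (1 + (R₀ + 1) ^ 2) < c0 d R₀ * 4 ^ n₁) {δ : ℝ} (hδ : 0 < δ)
    (hδ1 : δ < 1) {J : ℕ} (hJ : (1 / 2 : ℝ) ^ J ≤ δ)
    (hJ2 : (J:ℝ) + 1 ≤ 3 * (1 + Real.log (1 / δ))) {g : ℝ → ℝ≥0∞} (hg : Measurable g) {A : ℝ}
    (hA : 0 < A) (hτ : ∀ x, 𝔇.F g x ≤ ENNReal.ofReal (A / δ))
    (hI : ∫⁻ x, 𝔇.F g x ^ (d + 1) ≤ ENNReal.ofReal (A ^ (d + 1))) :
    ∫⁻ v, 𝔇.Psi Λ (c0 d R₀ * δ ^ 2) (R₀ + 1) J g ((d:ℝ) + 1 + 1 / (1 + Real.log (1 / δ))) v ≤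
      ENNReal.ofReal ((3 * (5 / 2) ^ (d + 2) * (d * (2 * d + 5)) ^ (d + 1) *
        (bez d (2 + Dat.EE D M) : ℝ) * (66 * (3 + n₁)) * (1 + Real.log (1 / δ)) ^ (d + 3)) *
        ((A / δ) ^ (1 / (1 + Real.log (1 / δ))) * A ^ (d + 1))) := by
  have hlog : 0 ≤ Real.log (1 / δ) := Real.log_nonneg (by rw [le_div_iff₀ hδ]; linarith)
  set L : ℝ := 1 + Real.log (1 / δ) with hL
  have hL1 : 1 ≤ L := by linarith
  have hL0 : 0 < L := by linarith
  set η : ℝ := 1 / L with hη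
  have hη0 : 0 < η := by positivity
  have hη1 : η ≤ 1 := by rw [hη, div_le_one hL0]; exact hL1
  set p : ℝ := (d:ℝ) + 1 + η with hp
  have hp1 : 1 < p := by rw [hp]; have : (0:ℝ) ≤ d := Nat.cast_nonneg _; linarith
  have hc0 := c0_pos d hR₀
  have hκ : 0 < c0 d R₀ * δ ^ 2 := by positivity
  have hI4 : 100 * (1 + (R₀ + 1) ^ 2) < c0 d R₀ * δ ^ 2 * 4 ^ (J + n₁) := by
    have h1 : 1 ≤ δ ^ 2 * 4 ^ J := by
      have h2 : ((1 / 2 : ℝ) ^ J) ^ 2 ≤ δ ^ 2 := pow_le_pow_left₀ (by positivity) hJ 2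
      calc (1:ℝ) = ((1 / 2 : ℝ) ^ J) ^ 2 * 4 ^ J := by
            rw [← pow_mul, mul_comm J 2, pow_mul, ← mul_pow]; norm_num
        _ ≤ _ := by gcongr
    calc 100 * (1 + (R₀ + 1) ^ 2) < c0 d R₀ * 4 ^ n₁ := hn₁
      _ = c0 d R₀ * 4 ^ n₁ * 1 := by ring
      _ ≤ c0 d R₀ * 4 ^ n₁ * (δ ^ 2 * 4 ^ J) := by gcongr
      _ = _ := by rw [pow_add]; ring
  have h1 := 𝔇.lintegral_Psi hd hΛ hκ hI4 hp1 hg J
  have h2 := F_rpow_le (𝔇.measurable_F hg) hA hδ hη0 hτ hI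
  have h3 := Ap_le hd hη0 hη1
  have h4 : ENNReal.ofReal (5 / 2) ^ p ≤ ENNReal.ofReal ((5 / 2) ^ (d + 2)) :=
    rpow_le_pow (by norm_num) (by rw [hp]; push_cast; linarith)
  have h5 : ((J + 1 : ℕ) : ℝ≥0∞) ≤ ENNReal.ofReal (3 * L) := by
    rw [← ENNReal.ofReal_natCast]
    apply ENNReal.ofReal_le_ofReal
    push_cast; exact hJ2
  have h6 : ((66 * (J + n₁) : ℕ) : ℝ≥0∞) ≤ ENNReal.ofReal (66 * (3 + n₁) * L) := by
    rw [← ENNReal.ofReal_natCast]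
    apply ENNReal.ofReal_le_ofReal
    push_cast
    have h7 : (J:ℝ) ≤ 3 * L := by linarith
    have h8 : (n₁:ℝ) ≤ n₁ * L := le_mul_of_one_le_right (Nat.cast_nonneg _) hL1
    linarith
  have hpA : 0 ≤ (A / δ) ^ η * A ^ (d + 1) := by positivity
  refine h1.trans ?_
  calc ((J + 1 : ℕ) : ℝ≥0∞) * (ENNReal.ofReal (5 / 2) ^ p *
      (Ap d p * (bez d (2 + Dat.EE D M) * (((66 * (J + n₁) : ℕ) : ℝ≥0∞) * ∫⁻ q, 𝔇.F g q ^ p))))
      ≤ ENNReal.ofReal (3 * L) * (ENNReal.ofReal ((5 / 2) ^ (d + 2)) *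
      (ENNReal.ofReal ((d * (2 * d + 5) / η) ^ (d + 1)) *
        (ENNReal.ofReal (bez d (2 + Dat.EE D M)) * (ENNReal.ofReal (66 * (3 + n₁) * L) *
          ENNReal.ofReal ((A / δ) ^ η * A ^ (d + 1)))))) := by
        rw [ENNReal.ofReal_natCast (bez d (2 + Dat.EE D M))]
        gcongr
    _ = _ := by
        rw [← ENNReal.ofReal_mul (by positivity), ← ENNReal.ofReal_mul (by positivity),
          ← ENNReal.ofReal_mul (by positivity), ← ENNReal.ofReal_mul (by positivity),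
          ← ENNReal.ofReal_mul (by positivity)]
        congr 1
        have e1 : (d:ℝ) * (2 * d + 5) / η = d * (2 * d + 5) * L := by
          rw [hη]; field_simp
        rw [e1, mul_pow]
        ring

section

variable {q k : ℕ}

theorem one_chart (hd : 1 ≤ d) (q k : ℕ) : ∃ C : ℝ, 0 < C ∧
    ∀ (i₀ : Fin (d + 1)) (P Q : MvPolynomial (Fin (d + 1)) ℝ)
    (T : Fin q → MvPolynomial (Fin (d + 1)) ℝ) (hP : P.totalDegree ≤ k)
    (hQ : Q.totalDegree ≤ k) (hT : ∀ j, (T j).totalDegree ≤ k)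
    (_ : ∀ᵐ x : Vec d × ℝ, 0 < WW i₀ P Q x) (g : ℝ → ℝ≥0∞) (_ : Measurable g) (δ A : ℝ)
    (_ : 0 < δ) (_ : δ < 1) (_ : 0 < A) (_ : ∀ y, g y ≤ ENNReal.ofReal (A / δ))
    (_ : ∫⁻ x, (mk i₀ P Q T hP hQ hT).F g x ^ (d + 1) ≤ ENNReal.ofReal (A ^ (d + 1))),
    ∃ G : sphere (0 : EuclideanSpace ℝ (Fin (d + 1))) 1 → ℝ≥0∞, Measurable G ∧
      (∀ e ∈ SS i₀ ((d:ℝ) + 1), KM δ (fun x => (mk i₀ P Q T hP hQ hT).F g (prj i₀ x))
        (e : EuclideanSpace ℝ (Fin (d + 1))) ^ (d + 1) ≤ G e) ∧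
      ∫⁻ e in SS i₀ ((d:ℝ) + 1), G e ∂(surf (d + 1)) ≤
      ENNReal.ofReal (C * (1 + Real.log (1 / δ)) ^ (2 * d + 5) * A ^ (d + 1)) := by
  obtain ⟨Λ, hΛ⟩ := interp (4 * k + 1) (by omega)
  have hΛ' : IsLam (4 * k + 1) Λ := hΛ
  have hΛ0 : 0 < Λ := by linarith [hΛ.1]
  obtain ⟨K, hK⟩ := flat_points (4 * k + 1) (1 / (64 * Λ)) (by positivity)
  have hK' : IsK (4 * k + 1) (1 / (64 * Λ)) K := hK
  obtain ⟨c, hc, hvol⟩ := Pool.Agent.H742R2.Kk.volume_tube d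
  have hcv : IsVol d c := ⟨hc, hvol⟩
  set R₀ : ℝ := (d:ℝ) + 1 with hR₀
  have hR0 : 0 < R₀ := by positivity
  have hc0 := c0_pos d hR0.le
  obtain ⟨n₁, hn₁⟩ : ∃ n₁ : ℕ, 100 * (1 + (R₀ + 1) ^ 2) < c0 d R₀ * 4 ^ n₁ := by
    obtain ⟨n, hn⟩ := pow_unbounded_of_one_lt (100 * (1 + (R₀ + 1) ^ 2) / c0 d R₀)
      (by norm_num : (1:ℝ) < 4)
    refine ⟨n, ?_⟩
    rw [div_lt_iff₀ hc0] at hn
    linarith
  set σ : ℝ := (surf (d + 1) univ).toReal with hσ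
  have hfin : IsFiniteMeasure (surf (d + 1)) := by unfold surf; infer_instance
  have hσeq : surf (d + 1) univ = ENNReal.ofReal σ := (ENNReal.ofReal_toReal (measure_ne_top _ _)).symm
  have hσ0 : 0 ≤ σ := ENNReal.toReal_nonneg
  set vB : ℝ := (volume (closedBall (0 : Vec d) R₀)).toReal with hvB
  have hvB0 : 0 ≤ vB := ENNReal.toReal_nonneg
  have hvBeq : volume (closedBall (0 : Vec d) R₀) = ENNReal.ofReal vB :=
    (ENNReal.ofReal_toReal measure_closedBall_lt_top.ne).symm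
  set U : ℝ := UU d k q c R₀ K with hU
  have hU1 : 1 ≤ U := by
    rw [hU]; unfold UU
    have h1 : 0 ≤ C₁ d c R₀ := by unfold C₁; positivity
    have h2 := hK.1
    have : 0 ≤ C₁ d c R₀ * (((d:ℝ) + 1) * 3 * (Dat.Np (4 * k + 1) (q + 1 + 1 + 1) K * (5 / 2) +
      ((q + 1 + 1 + 1) * (4 * k + 1) : ℕ) * (2 * K))) := by positivity
    linarith
  set c₃ : ℝ := 3 * (5 / 2) ^ (d + 2) * (d * (2 * d + 5)) ^ (d + 1) *
        (bez d (2 + Dat.EE (4 * k + 1) (q + 1 + 1 + 1)) : ℝ) * (66 * (3 + n₁)) with hc₃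
  have hc₃0 : 0 ≤ c₃ := by positivity
  refine ⟨σ + 2 * (d + 1) * (U ^ (d + 2) * ((d + 1) * (3 ^ (d + 2) * (2 * c₃) * 3 + vB))) + 1,
    by positivity, ?_⟩
  intro i₀ P Q T hP hQ hT hW g hg δ A hδ hδ1 hA hτ hI
  have hP' : (-P).totalDegree ≤ k := by rw [MvPolynomial.totalDegree_neg]; exact hP
  have hlog : 0 ≤ Real.log (1 / δ) := Real.log_nonneg (by rw [le_div_iff₀ hδ]; linarith)
  obtain ⟨J, hJ, hJ2⟩ := exists_J hδ hδ1
  have hg' : Measurable (fun y => g (-y)) := hg.comp measurable_neg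
  set 𝔇 := mk i₀ P Q T hP hQ hT with h𝔇
  set 𝔇' := mk i₀ (-P) Q T hP' hQ hT with h𝔇'
  have hFF : ∀ x, 𝔇'.F (fun y => g (-y)) x = 𝔇.F g x := F_neg i₀ P Q T hP hP' hQ hT g
  have hτF : ∀ x, 𝔇.F g x ≤ ENNReal.ofReal (A / δ) := fun x => (𝔇.F_le g x).trans (hτ _)
  have hΨ1 := psi_bound hd 𝔇 hΛ' hR0.le hn₁ hδ hδ1 hJ hJ2 hg hA hτF hI
  have hΨ2 := psi_bound hd 𝔇' hΛ' hR0.le hn₁ hδ hδ1 hJ hJ2 hg' hA
    (fun x => by rw [hFF]; exact hτF x) (by simp_rw [hFF]; exact hI)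
  set L : ℝ := 1 + Real.log (1 / δ) with hL
  have hL1 : 1 ≤ L := by linarith
  have hL0 : 0 < L := by linarith
  set η : ℝ := 1 / L with hη
  have hη0 : 0 < η := by positivity
  have hη1 : η ≤ 1 := by rw [hη, div_le_one hL0]; exact hL1
  set p : ℝ := (d:ℝ) + 1 + η with hp
  have hp1 : 1 < p := by rw [hp]; have : (0:ℝ) ≤ d := Nat.cast_nonneg _; linarith
  have hp0 : 0 < p := by linarith
  have hpd : p ≤ ((d + 2 : ℕ) : ℝ) := by rw [hp]; push_cast; linarith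
  set X : ℝ := c₃ * L ^ (d + 3) * ((A / δ) ^ η * A ^ (d + 1)) with hX
  have hX0 : 0 ≤ X := by positivity
  set κ := c0 d R₀ * δ ^ 2 with hκ
  have hHH := lintegral_HH i₀ P Q T hP hP' hQ hT Λ κ (R₀ + 1) A δ U J g p R₀ hΨ1 hΨ2
  have hHm := measurable_HH i₀ P Q T hP hP' hQ hT Λ κ (R₀ + 1) A δ U J g p
  set H := HH i₀ P Q T hP hP' hQ hT Λ κ (R₀ + 1) A δ U J g p with hH
  have hHint : ∫⁻ v in closedBall (0 : Vec d) R₀, H v ≤ ENNReal.ofReal (U ^ (d + 2) *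
      ((d + 1) * ((3 * L) ^ (d + 2) * (2 * X) + A ^ p * vB))) := by
    refine hHH.trans ?_
    have g1 : ENNReal.ofReal U ^ p ≤ ENNReal.ofReal (U ^ (d + 2)) := rpow_le_pow hU1 hpd
    have g2 : ((J + 1 : ℕ) : ℝ≥0∞) ^ p ≤ ENNReal.ofReal ((3 * L) ^ (d + 2)) := by
      refine le_trans ?_ (rpow_le_pow (by linarith) hpd)
      apply ENNReal.rpow_le_rpow _ hp0.le
      rw [← ENNReal.ofReal_natCast]
      apply ENNReal.ofReal_le_ofReal
      push_cast; exact hJ2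
    have g3 : ENNReal.ofReal A ^ p = ENNReal.ofReal (A ^ p) := ENNReal.ofReal_rpow_of_pos hA
    rw [g3, hvBeq]
    calc ENNReal.ofReal U ^ p * (((d + 1 : ℕ) : ℝ≥0∞) * (((J + 1 : ℕ) : ℝ≥0∞) ^ p *
          (ENNReal.ofReal X + ENNReal.ofReal X) + ENNReal.ofReal (A ^ p) * ENNReal.ofReal vB))
        ≤ ENNReal.ofReal (U ^ (d + 2)) * (ENNReal.ofReal ((d + 1 : ℕ) : ℝ) *
          (ENNReal.ofReal ((3 * L) ^ (d + 2)) *
          (ENNReal.ofReal X + ENNReal.ofReal X) + ENNReal.ofReal (A ^ p) * ENNReal.ofReal vB)) := by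
          rw [ENNReal.ofReal_natCast]
          gcongr
      _ = _ := by
          rw [← ENNReal.ofReal_add hX0 hX0, ← ENNReal.ofReal_mul (by positivity),
            ← ENNReal.ofReal_mul (by positivity), ← ENNReal.ofReal_add (by positivity)
            (by positivity), ← ENNReal.ofReal_mul (by positivity),
            ← ENNReal.ofReal_mul (by positivity)]
          congr 1
          push_cast
          ring
  have hchart := chart i₀ hR0 hHm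
  have hKM : ∀ e : sphere (0 : EuclideanSpace ℝ (Fin (d + 1))) 1, e ∈ SS i₀ R₀ →
      KM δ (fun x => 𝔇.F g (prj i₀ x)) (e : EuclideanSpace ℝ (Fin (d + 1))) ^ (d + 1) ≤
      ENNReal.ofReal A ^ (d + 1) + ENNReal.ofReal (A ^ (-η)) *
        H (vl i₀ (e : EuclideanSpace ℝ (Fin (d + 1)))) := by
    intro e he
    have h1 := KM_rpow_le i₀ P Q T hP hP' hQ hT hW hΛ' hK' hcv hδ hδ1.le hR0 hp1 hg hA hτ hJ
      (e := (e : EuclideanSpace ℝ (Fin (d + 1)))) (by simp) he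
    have h2 := pow_le_add_rpow hA hη0
      (KM δ (fun x => 𝔇.F g (prj i₀ x)) (e : EuclideanSpace ℝ (Fin (d + 1)))) (d + 1)
    have e1 : (((d + 1 : ℕ) : ℝ) + η) = p := by rw [hp]; push_cast; ring
    rw [e1] at h2
    refine h2.trans ?_
    gcongr
  have hδη : δ ^ (-η) ≤ 3 := exp_bound hδ hδ1
  have hAδ : A ^ (-η) * (A / δ) ^ η = δ ^ (-η) := by
    rw [Real.div_rpow hA.le hδ.le, Real.rpow_neg hA.le, Real.rpow_neg hδ.le]
    have h1 : A ^ η ≠ 0 := by positivity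
    have h2 : δ ^ η ≠ 0 := by positivity
    field_simp
  have hAp : A ^ (-η) * A ^ p = A ^ (d + 1) := by
    rw [← Real.rpow_add hA, hp, ← Real.rpow_natCast]
    congr 1
    push_cast; ring
  have hGm : Measurable (fun e : sphere (0 : EuclideanSpace ℝ (Fin (d + 1))) 1 =>
      ENNReal.ofReal A ^ (d + 1) + ENNReal.ofReal (A ^ (-η)) *
        H (vl i₀ (e : EuclideanSpace ℝ (Fin (d + 1))))) := by
    apply Measurable.const_add
    apply Measurable.const_mul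
    exact hHm.comp ((measurable_vl i₀).comp measurable_subtype_coe)
  refine ⟨_, hGm, hKM, ?_⟩
  calc ∫⁻ e in SS i₀ R₀, (ENNReal.ofReal A ^ (d + 1) + ENNReal.ofReal (A ^ (-η)) *
        H (vl i₀ (e : EuclideanSpace ℝ (Fin (d + 1))))) ∂(surf (d + 1))
      = ENNReal.ofReal A ^ (d + 1) * surf (d + 1) (SS i₀ R₀) + ENNReal.ofReal (A ^ (-η)) *
        ∫⁻ e in SS i₀ R₀, H (vl i₀ (e : EuclideanSpace ℝ (Fin (d + 1)))) ∂(surf (d + 1)) := by
        rw [lintegral_add_left measurable_const, setLIntegral_const,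
          lintegral_const_mul' _ _ ENNReal.ofReal_ne_top]
    _ ≤ ENNReal.ofReal (A ^ (d + 1)) * ENNReal.ofReal σ + ENNReal.ofReal (A ^ (-η)) *
        (ENNReal.ofReal (2 * (d + 1)) * ENNReal.ofReal (U ^ (d + 2) *
      ((d + 1) * ((3 * L) ^ (d + 2) * (2 * X) + A ^ p * vB)))) := by
        rw [ENNReal.ofReal_pow hA.le]
        refine add_le_add (mul_le_mul' le_rfl ?_) (mul_le_mul' le_rfl (hchart.trans ?_))
        · rw [← hσeq]; exact measure_mono (subset_univ _)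
        · refine mul_le_mul' (le_of_eq ?_) hHint
          rw [ENNReal.ofReal_mul (by norm_num), ENNReal.ofReal_add (by positivity) (by norm_num)]
          simp
    _ = ENNReal.ofReal (A ^ (d + 1) * σ + A ^ (-η) * (2 * (d + 1) * (U ^ (d + 2) *
      ((d + 1) * ((3 * L) ^ (d + 2) * (2 * X) + A ^ p * vB))))) := by
        rw [← ENNReal.ofReal_mul (by positivity), ← ENNReal.ofReal_mul (by positivity),
          ← ENNReal.ofReal_mul (by positivity), ← ENNReal.ofReal_add (by positivity)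
            (by positivity)]
    _ ≤ _ := by
        apply ENNReal.ofReal_le_ofReal
        have e1 : A ^ (-η) * (2 * (d + 1) * (U ^ (d + 2) *
            ((d + 1) * ((3 * L) ^ (d + 2) * (2 * X) + A ^ p * vB)))) =
            2 * (d + 1) * (U ^ (d + 2) * ((d + 1) * (3 ^ (d + 2) * (2 * c₃) *
              (δ ^ (-η) * (L ^ (2 * d + 5) * A ^ (d + 1))) + A ^ (d + 1) * vB))) := by
          rw [← hAp, ← hAδ, hX, mul_pow 3 L, ← hAp,
            show 2 * d + 5 = (d + 2) + (d + 3) by ring, pow_add]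
          ring
        rw [e1]
        have hLp : (1:ℝ) ≤ L ^ (2 * d + 5) := one_le_pow₀ hL1
        have hAd : 0 < A ^ (d + 1) := by positivity
        have h1 : A ^ (d + 1) ≤ L ^ (2 * d + 5) * A ^ (d + 1) := le_mul_of_one_le_left hAd.le hLp
        set Y := L ^ (2 * d + 5) * A ^ (d + 1) with hY
        have hY0 : 0 < Y := by positivity
        calc A ^ (d + 1) * σ + 2 * (d + 1) * (U ^ (d + 2) * ((d + 1) * (3 ^ (d + 2) * (2 * c₃) *
              (δ ^ (-η) * Y) + A ^ (d + 1) * vB)))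
            ≤ Y * σ + 2 * (d + 1) * (U ^ (d + 2) * ((d + 1) * (3 ^ (d + 2) * (2 * c₃) *
              (3 * Y) + Y * vB))) := by gcongr
          _ = (σ + 2 * (d + 1) * (U ^ (d + 2) * ((d + 1) * (3 ^ (d + 2) * (2 * c₃) * 3 + vB)))) *
              Y := by ring
          _ ≤ (σ + 2 * (d + 1) * (U ^ (d + 2) * ((d + 1) * (3 ^ (d + 2) * (2 * c₃) * 3 + vB))) +
              1) * Y := mul_le_mul_of_nonneg_right (le_add_of_nonneg_right zero_le_one) hY0.le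
          _ = _ := by rw [hY]; ring

end

end Pool.Agent.D0H14.KP
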