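import Pool.Agent.D0H14.KP.Low

set_option autoImplicit false

/-!
A line near a good point: it belongs to two classes which control the integral.
-/

open MeasureTheory Set Filter Topology ENNReal NNReal Metric

namespace Pool.Agent.D0H14.KP

open Pool.Agent.H803R2.Kak Pool.Agent.H803R2.KakFTO Pool.Agent.H805R3.Kk Pool.Agent.W770.SA
  Pool.Agent.R250.AC

variable {d : ℕ}

theorem mvt_bounds {u u' : ℝ → ℝ} {α β σ₁ σ₂ : ℝ} (hder : ∀ t ∈ Icc α β, HasDerivAt u (u' t) t)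
    (h1 : ∀ t ∈ Icc α β, σ₁ ≤ u' t) (h2 : ∀ t ∈ Icc α β, u' t ≤ σ₂) {x y : ℝ} (hx : α ≤ x)
    (hxy : x ≤ y) (hy : y ≤ β) : σ₁ * (y - x) ≤ u y - u x ∧ u y - u x ≤ σ₂ * (y - x) := by
  rcases hxy.eq_or_lt with rfl | hlt
  · simp
  have hsub : Icc x y ⊆ Icc α β := Icc_subset_Icc hx hy
  obtain ⟨c, hc, hce⟩ := exists_hasDerivAt_eq_slope u u' hlt
    (fun t ht => (hder t (hsub ht)).continuousAt.continuousWithinAt)
    (fun t ht => hder t (hsub (Ioo_subset_Icc_self ht)))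
  have hpos : 0 < y - x := by linarith
  have hc' := hsub (Ioo_subset_Icc_self hc)
  have e : u y - u x = u' c * (y - x) := by rw [hce]; field_simp
  rw [e]
  exact ⟨mul_le_mul_of_nonneg_right (h1 c hc') hpos.le,
    mul_le_mul_of_nonneg_right (h2 c hc') hpos.le⟩

namespace Dat

variable {D M : ℕ} (𝔇 : Dat d D M)

/-- The data are almost constant near `x` on the line of velocity `v` through `x`. -/
def Flat (η h : ℝ) (v : Vec d) (x : Vec d × ℝ) : Prop :=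
  ∀ r, ∀ s : ℝ, |s| ≤ h →
    |𝔇.Φ r v (x.1 + s • v, x.2 + s) - 𝔇.Φ r v x| ≤ η * |𝔇.Φ r v x|

/-- The condition on the point `x` and the velocity `v`. -/
def Good (κ : ℝ) (v : Vec d) (x : Vec d × ℝ) : Prop :=
  (∀ r, 0 < 𝔇.Φ r v x) ∧ κ * 𝔇.W x ≤ 𝔇.Φ 𝔇.rN v x ^ 2

/-- The piece of a line. -/
def pc (h t₁ : ℝ) : Set ℝ := Ico (t₁ + h / 2) (t₁ + h / 2 + h / 32)

theorem piece {Λ : ℝ} (hD : 1 ≤ D) (hΛ : IsLam D Λ) {κ : ℝ} (hκ : 0 < κ) {h t₁ : ℝ} (hh : 0 < h)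
    {v a : Vec d} {t : ℝ} (ht : t ∈ pc h t₁) (hgood : 𝔇.Good κ v (a + t • v, t))
    (hflat : 𝔇.Flat (1 / (64 * Λ)) h v (a + t • v, t)) (g : ℝ → ℝ≥0∞) :
    ∃ i w : ℤ, 𝔇.Cls Λ κ h t₁ i w v a ∧ 𝔇.Cls Λ κ h t₁ i (w + 1) v a ∧
      ∫⁻ s in pc h t₁, 𝔇.F g (a + s • v, s) ≤
        ENNReal.ofReal (5 / 4) * (Mc g h i w + Mc g h i (w + 1)) := by
  have hD0 : (0:ℝ) < D := by exact_mod_cast hD
  have hΛ1 : 1 ≤ Λ := hΛ.1
  have hΛ0 : 0 < Λ := by linarith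
  set η : ℝ := 1 / (64 * Λ) with hη
  have hη0 : 0 < η := by positivity
  have hη1 : η ≤ 1 / 64 := by
    rw [hη]
    apply one_div_le_one_div_of_le (by norm_num); linarith
  obtain ⟨ht1, ht2⟩ := ht
  -- near values
  have hnear : ∀ r, ∀ s ∈ Icc t₁ (t₁ + h), |𝔇.Φ r v (a + s • v, s) - 𝔇.Φ r v (a + t • v, t)| ≤
      η * 𝔇.Φ r v (a + t • v, t) := by
    intro r s hs
    have h1 := hflat r (s - t) (by rw [abs_le]; constructor <;> linarith [hs.1, hs.2])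
    have e1 : a + t • v + (s - t) • v = a + s • v := by rw [sub_smul]; abel
    have e2 : t + (s - t) = s := by ring
    simp only [e1, e2] at h1
    rwa [abs_of_pos (hgood.1 r)] at h1
  have hI₁ : t₁ ∈ Icc t₁ (t₁ + h) := ⟨le_rfl, by linarith⟩
  -- comparison with `t₁`
  have hcmp : ∀ r, 0 < 𝔇.Φ r v (a + t₁ • v, t₁) ∧
      𝔇.Φ r v (a + t • v, t) ≤ 64 / 63 * 𝔇.Φ r v (a + t₁ • v, t₁) ∧
      𝔇.Φ r v (a + t₁ • v, t₁) ≤ 65 / 64 * 𝔇.Φ r v (a + t • v, t) ∧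
      ∀ s ∈ Icc t₁ (t₁ + h), |𝔇.Φ r v (a + s • v, s) - 𝔇.Φ r v (a + t₁ • v, t₁)| <
        4 * η * 𝔇.Φ r v (a + t₁ • v, t₁) := by
    intro r
    have hφ := hgood.1 r
    set φ := 𝔇.Φ r v (a + t • v, t) with hφd
    obtain ⟨h1, h2⟩ := abs_le.1 (hnear r t₁ hI₁)
    have h3 : η * φ ≤ 1 / 64 * φ := by gcongr
    have h5 : 0 < 𝔇.Φ r v (a + t₁ • v, t₁) := by linarith
    refine ⟨h5, by linarith, by linarith, ?_⟩
    intro s hs
    obtain ⟨h6, h7⟩ := abs_le.1 (hnear r s hs)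
    have h8 : 2 * η * φ < 4 * η * 𝔇.Φ r v (a + t₁ • v, t₁) := by
      have : φ < 2 * 𝔇.Φ r v (a + t₁ • v, t₁) := by linarith
      calc 2 * η * φ < 2 * η * (2 * 𝔇.Φ r v (a + t₁ • v, t₁)) := by gcongr
        _ = _ := by ring
    rw [abs_lt]
    constructor <;> linarith
  have h4η : 4 * η = 1 / (16 * Λ) := by rw [hη]; field_simp; norm_num
  have h4η' : 4 * η ≤ 1 / 16 := by linarith
  -- slope
  obtain ⟨hN0, hN1, hN2, hN3⟩ := hcmp 𝔇.rN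
  obtain ⟨hQ0, hQ1, hQ2, hQ3⟩ := hcmp 𝔇.rQ
  obtain ⟨hW0, hW1, hW2, hW3⟩ := hcmp 𝔇.rW
  rw [𝔇.hQ] at hQ0 hQ1 hQ2 hQ3
  rw [𝔇.hW] at hW0 hW1 hW2 hW3
  set q₀ := 𝔇.Q (a + t₁ • v, t₁) with hq₀
  set n₀ := 𝔇.Φ 𝔇.rN v (a + t₁ • v, t₁) with hn₀
  set σ : ℝ := n₀ / q₀ ^ 2 with hσ
  have hq2 : 0 < q₀ ^ 2 := by positivity
  have hσ0 : 0 < σ := by positivity
  obtain ⟨i, hi1, hi2⟩ := exists_mem_Ico_zpow hσ0 (one_lt_two : (1:ℝ) < 2)
  have h2i : (0:ℝ) < 2 ^ i := by positivity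
  have hi2' : σ < 2 * 2 ^ i := by rw [zpow_add_one₀ (by norm_num)] at hi2; linarith
  set U : ℝ → ℝ := fun s => 𝔇.P (a + s • v, s) / 𝔇.Q (a + s • v, s) with hU
  set U' : ℝ → ℝ := fun s => 𝔇.Φ 𝔇.rN v (a + s • v, s) / 𝔇.Q (a + s • v, s) ^ 2 with hU'
  have hrb : ∀ s ∈ Icc t₁ (t₁ + h), 0 < 𝔇.Q (a + s • v, s) ∧ 4 / 5 * σ ≤ U' s ∧ U' s ≤ 5 / 4 * σ := by
    intro s hs
    obtain ⟨h1, -, h2, h3⟩ := ratio_bounds hN0 hQ0
      (((hN3 s hs).le).trans (by gcongr)) (((hQ3 s hs).le).trans (by gcongr))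
    exact ⟨h1, h2, h3⟩
  have hder : ∀ s ∈ Icc t₁ (t₁ + h), HasDerivAt U (U' s) s :=
    fun s hs => 𝔇.hder v a s (hrb s hs).1
  set ρ : ℝ := h * 2 ^ i / 8 with hρ
  have hρ0 : 0 < ρ := by positivity
  have h2ρ : (2:ℝ) ^ i * h = 8 * ρ := by rw [hρ]; ring
  have hσh1 : 8 * ρ ≤ σ * h := by rw [← h2ρ]; gcongr
  have hσh2 : σ * h < 16 * ρ := by
    calc σ * h < 2 * 2 ^ i * h := by gcongr
      _ = 16 * ρ := by linarith
  have mv := fun {x y : ℝ} (hx : t₁ ≤ x) (hxy : x ≤ y) (hy : y ≤ t₁ + h) =>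
    mvt_bounds hder (fun s hs => (hrb s hs).2.1) (fun s hs => (hrb s hs).2.2) hx hxy hy
  set y₀ : ℝ := U (t₁ + h / 2) with hy₀
  have m1 := (mv (x := t₁) (y := t₁ + h / 2) le_rfl (by linarith) (by linarith)).1
  have m2 := (mv (x := t₁ + h / 2) (y := t₁ + h) (by linarith) (by linarith) le_rfl).1
  have m1' : U t₁ + 16 / 5 * ρ ≤ y₀ := by
    have e : 4 / 5 * σ * (t₁ + h / 2 - t₁) = 2 / 5 * (σ * h) := by ring
    rw [e] at m1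
    linarith only [m1, hσh1]
  have m2' : y₀ + 16 / 5 * ρ ≤ U (t₁ + h) := by
    have e : 4 / 5 * σ * (t₁ + h - (t₁ + h / 2)) = 2 / 5 * (σ * h) := by ring
    rw [e] at m2
    linarith only [m2, hσh1]
  set w : ℤ := ⌊y₀ / ρ⌋ with hw
  have hw1 : w * ρ ≤ y₀ := by
    have := Int.floor_le (y₀ / ρ)
    rwa [le_div_iff₀ hρ0] at this
  have hw2 : y₀ < (w + 1) * ρ := by
    have := Int.lt_floor_add_one (y₀ / ρ)
    rwa [div_lt_iff₀ hρ0] at this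
  have hw2' : y₀ < w * ρ + ρ := by
    have e : ((w:ℝ) + 1) * ρ = w * ρ + ρ := by ring
    rw [← e]; exact hw2
  -- membership in the classes
  have hcls : ∀ w' : ℤ, U t₁ < w' * ρ → (w' + 1) * ρ < U (t₁ + h) → 𝔇.Cls Λ κ h t₁ i w' v a := by
    intro w' hw'1 hw'2
    have hend : t₁ + h ∈ Icc t₁ (t₁ + h) := ⟨by linarith, le_rfl⟩
    refine ⟨?_, ?_, ?_, ?_, ?_, ?_⟩
    · intro r k
      rw [← h4η]
      have hk : (k:ℝ) / D ≤ 1 := by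
        rw [div_le_one hD0]
        exact_mod_cast Nat.lt_succ_iff.1 k.2
      have hk0 : 0 ≤ (k:ℝ) / D := by positivity
      have hk2 : (k:ℝ) / D * h ≤ h := mul_le_of_le_one_left hh.le hk
      have hk3 : 0 ≤ (k:ℝ) / D * h := mul_nonneg hk0 hh.le
      exact (hcmp r).2.2.2 _ ⟨by linarith only [hk3], by linarith only [hk2]⟩
    · have h1 : (2:ℝ) ^ (i - 1) < σ := by
        rw [zpow_sub_one₀ (by norm_num)]; linarith
      rwa [hσ, lt_div_iff₀ hq2] at h1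
    · have h1 : σ < (2:ℝ) ^ (i + 1) := hi2
      rwa [hσ, div_lt_iff₀ hq2] at h1
    · have h1 : U t₁ = 𝔇.P (a + t₁ • v, t₁) / q₀ := rfl
      rw [h1, div_lt_iff₀ hQ0] at hw'1
      exact hw'1
    · have h1 : U (t₁ + h) = 𝔇.P (a + (t₁ + h) • v, t₁ + h) / 𝔇.Q (a + (t₁ + h) • v, t₁ + h) := rfl
      rw [h1, lt_div_iff₀ (hrb _ hend).1] at hw'2
      exact hw'2
    · have h1 := hgood.2
      have h4i : (4:ℝ) ^ i = (2 ^ i) ^ 2 := by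
        rw [← zpow_natCast, ← zpow_mul, mul_comm i, zpow_mul]; norm_num
      set n := 𝔇.Φ 𝔇.rN v (a + t • v, t) with hn
      have hn0 : 0 < n := hgood.1 _
      have h2 : n ^ 2 ≤ (64 / 63 * n₀) ^ 2 := pow_le_pow_left₀ hn0.le hN1 2
      have h3 : n₀ = σ * q₀ ^ 2 := by rw [hσ]; field_simp
      have h5 : σ ^ 2 ≤ (2 * 2 ^ i) ^ 2 := pow_le_pow_left₀ hσ0.le hi2'.le 2
      calc κ * 𝔇.W (a + t₁ • v, t₁) ≤ κ * (65 / 64 * 𝔇.W (a + t • v, t)) := by gcongr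
        _ = 65 / 64 * (κ * 𝔇.W (a + t • v, t)) := by ring
        _ ≤ 65 / 64 * (64 / 63 * n₀) ^ 2 := by
            gcongr; exact h1.trans h2
        _ = (65 / 64 * (64 / 63) ^ 2) * (σ ^ 2 * q₀ ^ 4) := by rw [h3]; ring
        _ ≤ (65 / 64 * (64 / 63) ^ 2) * ((2 * 2 ^ i) ^ 2 * q₀ ^ 4) := by gcongr
        _ = (65 / 64 * (64 / 63) ^ 2 * 4) * ((2 ^ i) ^ 2 * q₀ ^ 4) := by ring
        _ < 8 * ((2 ^ i) ^ 2 * q₀ ^ 4) := by
            have : 0 < ((2:ℝ) ^ i) ^ 2 * q₀ ^ 4 := by positivity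
            exact mul_lt_mul_of_pos_right (by norm_num) this
        _ = 8 * 4 ^ i * q₀ ^ 4 := by rw [h4i]; ring
  have q1 : U t₁ < w * ρ := by linarith only [hw2', m1', hρ0]
  have q2 : ((w:ℝ) + 1) * ρ < U (t₁ + h) := by
    rw [add_mul, one_mul]; linarith only [hw1, m2', hρ0]
  have q3 : U t₁ < ((w + 1 : ℤ) : ℝ) * ρ := by
    push_cast; rw [add_mul, one_mul]; linarith only [q1, hρ0]
  have q4 : (((w + 1 : ℤ) : ℝ) + 1) * ρ < U (t₁ + h) := by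
    push_cast; rw [add_mul, add_mul, one_mul]; linarith only [hw1, m2', hρ0]
  refine ⟨i, w, hcls w q1 q2, hcls (w + 1) q3 q4, ?_⟩
  -- the integral
  have hsub : pc h t₁ ⊆ Icc t₁ (t₁ + h) := by
    intro s hs
    exact ⟨by linarith [hs.1], by linarith [hs.2]⟩
  have hJ : ∀ s ∈ pc h t₁, U s ∈ Ico (w * ρ) ((w + 1) * ρ) ∪
      Ico (((w + 1 : ℤ) : ℝ) * ρ) ((((w + 1 : ℤ) : ℝ) + 1) * ρ) := by
    intro s hs
    have m3 := mv (x := t₁ + h / 2) (y := s) (by linarith) hs.1 (hsub hs).2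
    have hs0 : 0 ≤ s - (t₁ + h / 2) := by linarith [hs.1]
    have hs1 : s - (t₁ + h / 2) ≤ h / 32 := by linarith [hs.2]
    have m4 : y₀ ≤ U s := by
      have : 0 ≤ 4 / 5 * σ * (s - (t₁ + h / 2)) := by positivity
      linarith [m3.1]
    have m5 : U s < y₀ + ρ := by
      have h1 : 5 / 4 * σ * (s - (t₁ + h / 2)) ≤ 5 / 4 * σ * (h / 32) := by gcongr
      have h2 : 5 / 4 * σ * (h / 32) = 5 / 128 * (σ * h) := by ring
      linarith only [m3.2, h1, h2, hσh2, hρ0]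
    rcases lt_or_ge (U s) ((w + 1) * ρ) with hc | hc
    · exact Or.inl ⟨by linarith only [hw1, m4], hc⟩
    · refine Or.inr ⟨by push_cast; exact hc, ?_⟩
      push_cast; rw [add_mul, add_mul, one_mul]; linarith only [hw2', m5, hρ0]
  have hup := upper hder (σ := 4 / 5 * σ) (by positivity) (fun s hs => (hrb s hs).2.1)
    measurableSet_Ico hsub hJ g
  have hF : ∫⁻ s in pc h t₁, 𝔇.F g (a + s • v, s) ≤ ∫⁻ s in pc h t₁, g (U s) :=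
    lintegral_mono fun s => 𝔇.F_le g _
  refine hF.trans ?_
  have hle : ∫⁻ y in Ico (w * ρ) ((w + 1) * ρ) ∪
      Ico (((w + 1 : ℤ) : ℝ) * ρ) ((((w + 1 : ℤ) : ℝ) + 1) * ρ), g y ≤
      (∫⁻ y in Ico (w * ρ) ((w + 1) * ρ), g y) +
      ∫⁻ y in Ico (((w + 1 : ℤ) : ℝ) * ρ) ((((w + 1 : ℤ) : ℝ) + 1) * ρ), g y :=
    lintegral_union_le _ _ _
  have hup2 := hup.trans hle
  set X := (∫⁻ y in Ico (w * ρ) ((w + 1) * ρ), g y) +
      ∫⁻ y in Ico (((w + 1 : ℤ) : ℝ) * ρ) ((((w + 1 : ℤ) : ℝ) + 1) * ρ), g y with hX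
  have hM : Mc g h i w + Mc g h i (w + 1) = ENNReal.ofReal ((2:ℝ) ^ (-i)) * X := by
    unfold Mc
    rw [hX, mul_add]
  rw [hM]
  calc ∫⁻ s in pc h t₁, g (U s)
      = ENNReal.ofReal ((4 / 5 * σ)⁻¹) * (ENNReal.ofReal (4 / 5 * σ) * ∫⁻ s in pc h t₁, g (U s)) := by
        rw [← mul_assoc, ← ENNReal.ofReal_mul (by positivity), inv_mul_cancel₀ (by positivity),
          ENNReal.ofReal_one, one_mul]
    _ ≤ ENNReal.ofReal (5 / 4 * (2:ℝ) ^ (-i)) * X := by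
        refine mul_le_mul' (ENNReal.ofReal_le_ofReal ?_) hup2
        rw [mul_inv, zpow_neg]
        have : σ⁻¹ ≤ ((2:ℝ) ^ i)⁻¹ := inv_anti₀ h2i hi1
        calc (4 / 5 : ℝ)⁻¹ * σ⁻¹ = 5 / 4 * σ⁻¹ := by norm_num
          _ ≤ _ := by gcongr
    _ = _ := by rw [ENNReal.ofReal_mul (by norm_num), mul_assoc]

end Dat

end Pool.Agent.D0H14.KP
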