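import Pool.Agent.D0H14.KP.Whole

set_option autoImplicit false

/-!
Arbitrary quotients.
-/

open MeasureTheory Set Filter Topology ENNReal NNReal Metric

namespace Pool.Agent.D0H14.KP

open Pool.Agent.H803R2.Kak Pool.Agent.H803R2.KakFTO Pool.Agent.R250.AC

section alg

open Polynomial

theorem wronski_zero {r q : ℝ[X]} (h : q * derivative r = r * derivative q) (hq : q.eval 0 ≠ 0)
    (hr : r.eval 0 = 0) : r = 0 := by
  by_contra hne
  obtain ⟨u, hu, hnd⟩ := Polynomial.exists_eq_pow_rootMultiplicity_mul_and_not_dvd r hne 0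
  set m := rootMultiplicity 0 r with hm
  rw [C_0, sub_zero] at hu hnd
  have hu0 : u.eval 0 ≠ 0 := by
    intro h0
    apply hnd
    rw [X_dvd_iff, coeff_zero_eq_eval_zero]
    exact h0
  have hm0 : m ≠ 0 := by
    intro h0
    rw [h0, pow_zero, one_mul] at hu
    rw [hu] at hr
    exact hu0 hr
  obtain ⟨l, hl⟩ := Nat.exists_eq_succ_of_ne_zero hm0
  rw [hl] at hu
  have hd : derivative r = X ^ l * (((l + 1 : ℕ) : ℝ[X]) * u + X * derivative u) := by
    rw [hu, derivative_mul, derivative_X_pow]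
    simp only [Nat.succ_eq_add_one, Nat.add_sub_cancel]
    rw [pow_succ, C_eq_natCast]
    ring
  rw [hd, hu] at h
  have h2 : X ^ l * (q * (((l + 1 : ℕ) : ℝ[X]) * u + X * derivative u)) =
      X ^ l * (X * u * derivative q) := by
    have e1 : X ^ l * (q * (((l + 1 : ℕ) : ℝ[X]) * u + X * derivative u)) =
      q * (X ^ l * (((l + 1 : ℕ) : ℝ[X]) * u + X * derivative u)) := by ring
    rw [e1, h, Nat.succ_eq_add_one, pow_succ]
    ring
  have h3 := mul_left_cancel₀ (pow_ne_zero l (X_ne_zero (R := ℝ))) h2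
  have h4 := congrArg (eval 0) h3
  simp only [eval_mul, eval_add, eval_X, zero_mul, add_zero, eval_natCast] at h4
  have h5 : ((l + 1 : ℕ) : ℝ) ≠ 0 := by positivity
  exact mul_ne_zero hq (mul_ne_zero h5 hu0) h4

/-- The restriction of a polynomial to a line. -/
noncomputable def lp {n : ℕ} (x z : Fin n → ℝ) (p : MvPolynomial (Fin n) ℝ) : ℝ[X] :=
  MvPolynomial.aeval (fun l => C (x l) + C (z l) * X) p

theorem eval_lp {n : ℕ} (x z : Fin n → ℝ) (p : MvPolynomial (Fin n) ℝ) (s : ℝ) :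
    (lp x z p).eval s = MvPolynomial.eval (fun l => x l + s * z l) p := by
  unfold lp
  rw [eval_aeval']
  congr 2
  ext l
  simp
  ring

theorem derivative_lp {n : ℕ} (x z : Fin n → ℝ) (p : MvPolynomial (Fin n) ℝ) :
    derivative (lp x z p) = ∑ j, C (z j) * lp x z (MvPolynomial.pderiv j p) := by
  induction p using MvPolynomial.induction_on with
  | C a => simp [lp]
  | add p q hp hq =>
    simp only [lp, map_add] at hp hq ⊢
    rw [hp, hq, ← Finset.sum_add_distrib]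
    apply Finset.sum_congr rfl
    intro j _
    ring
  | mul_X p i hp =>
    have e1 : lp x z (p * MvPolynomial.X i) = lp x z p * (C (x i) + C (z i) * X) := by
      simp [lp]
    have e2 : ∀ j, lp x z (MvPolynomial.pderiv j (p * MvPolynomial.X i)) =
        lp x z (MvPolynomial.pderiv j p) * (C (x i) + C (z i) * X) +
          lp x z p * (Pi.single (M := fun _ => ℝ[X]) i 1 j) := by
      intro j
      rw [MvPolynomial.pderiv_mul, MvPolynomial.pderiv_X]
      by_cases hj : i = j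
      · subst hj
        simp [lp]
      · rw [Pi.single_apply, Pi.single_apply, if_neg hj, if_neg (fun h => hj h.symm)]
        simp [lp]
    rw [e1, derivative_mul, hp]
    simp only [e2, mul_add (C _), Finset.sum_add_distrib]
    congr 1
    · rw [Finset.sum_mul]
      apply Finset.sum_congr rfl
      intro j _
      ring
    · rw [Finset.sum_eq_single i]
      · rw [Pi.single_eq_same]
        simp
        ring
      · intro j _ hj
        rw [Pi.single_apply, if_neg (fun h => hj h)]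
        simp
      · intro h; exact absurd (Finset.mem_univ i) h

theorem quot_const {n : ℕ} {P Q : MvPolynomial (Fin n) ℝ}
    (h : ∀ j, Q * MvPolynomial.pderiv j P - P * MvPolynomial.pderiv j Q = 0)
    {x y : EuclideanSpace ℝ (Fin n)} (hx : vv Q x ≠ 0) (hy : vv Q y ≠ 0) :
    vv P y / vv Q y = vv P x / vv Q x := by
  set c : ℝ := vv P x / vv Q x with hc
  set z : Fin n → ℝ := fun l => y l - x l with hz
  set a : Fin n → ℝ := fun l => x l with ha
  set p := lp a z P with hp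
  set q := lp a z Q with hq
  have h1 : q * derivative p = p * derivative q := by
    rw [hp, hq, derivative_lp, derivative_lp, Finset.mul_sum, Finset.mul_sum]
    apply Finset.sum_congr rfl
    intro j _
    have h2 : lp a z (Q * MvPolynomial.pderiv j P - P * MvPolynomial.pderiv j Q) = 0 := by
      rw [h j]; simp [lp]
    simp only [lp, map_sub, map_mul] at h2 ⊢
    linear_combination (C (z j)) * h2
  have e0 : ∀ R : MvPolynomial (Fin n) ℝ, (lp a z R).eval 0 = vv R x := by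
    intro R
    rw [eval_lp]
    unfold vv
    congr 2
    ext l
    simp [ha]
  have e1 : ∀ R : MvPolynomial (Fin n) ℝ, (lp a z R).eval 1 = vv R y := by
    intro R
    rw [eval_lp]
    unfold vv
    congr 2
    ext l
    simp [ha, hz]
  have hr : p - C c * q = 0 := by
    apply wronski_zero (q := q)
    · rw [derivative_sub, derivative_mul, derivative_C, zero_mul, zero_add]
      linear_combination h1
    · rw [hq, e0]; exact hx
    · rw [eval_sub, eval_mul, eval_C, hp, hq, e0, e0, hc]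
      field_simp
      ring
  have h3 := congrArg (eval 1) hr
  rw [eval_sub, eval_mul, eval_C, hp, hq, e1, e1, eval_zero] at h3
  rw [div_eq_iff hy]
  linarith

end alg

variable {d : ℕ}

theorem FE_cons (P Q : MvPolynomial (Fin (d + 1)) ℝ) {q : ℕ}
    (T : Fin q → MvPolynomial (Fin (d + 1)) ℝ) (g : ℝ → ℝ≥0∞) :
    FE P Q (Fin.cons Q T : Fin (q + 1) → MvPolynomial (Fin (d + 1)) ℝ) g = FE P Q T g := by
  have : {x : EuclideanSpace ℝ (Fin (d + 1)) |
      (∀ j, 0 < vv ((Fin.cons Q T : Fin (q + 1) → MvPolynomial (Fin (d + 1)) ℝ) j) x) ∧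
        0 < vv Q x} = {x | (∀ j, 0 < vv (T j) x) ∧ 0 < vv Q x} := by
    ext x
    simp only [mem_ofPred_eq, Fin.forall_fin_succ, Fin.cons_zero, Fin.cons_succ]
    tauto
  funext x
  unfold FE
  rw [this]

theorem FE_degenerate {P Q : MvPolynomial (Fin (d + 1)) ℝ} (h : ∀ j, VV P Q j = 0) {q : ℕ}
    (T : Fin q → MvPolynomial (Fin (d + 1)) ℝ) (g : ℝ → ℝ≥0∞) :
    ∃ c : ℝ≥0∞, FE P Q T g = FE (MvPolynomial.X 0) 1
      (Fin.cons Q T : Fin (q + 1) → MvPolynomial (Fin (d + 1)) ℝ) (fun _ => c) := by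
  by_cases hne : ∃ x₀ : EuclideanSpace ℝ (Fin (d + 1)), (∀ j, 0 < vv (T j) x₀) ∧ 0 < vv Q x₀
  · obtain ⟨x₀, -, hx₀⟩ := hne
    refine ⟨g (vv P x₀ / vv Q x₀), ?_⟩
    funext x
    unfold FE
    by_cases hx : x ∈ {x | (∀ j, 0 < vv (T j) x) ∧ 0 < vv Q x}
    · rw [indicator_of_mem hx, indicator_of_mem]
      · rw [quot_const h hx₀.ne' hx.2.ne']
      · refine ⟨?_, by simp [vv]⟩
        refine Fin.cases ?_ ?_
        · rw [Fin.cons_zero]; exact hx.2
        · intro j
          rw [Fin.cons_succ]; exact hx.1 j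
    · rw [indicator_of_notMem hx, indicator_of_notMem]
      rintro ⟨h1, -⟩
      apply hx
      refine ⟨fun j => ?_, ?_⟩
      · have := h1 j.succ
        rwa [Fin.cons_succ] at this
      · have := h1 0
        rwa [Fin.cons_zero] at this
  · refine ⟨0, ?_⟩
    funext x
    unfold FE
    have hx : x ∉ {x : EuclideanSpace ℝ (Fin (d + 1)) | (∀ j, 0 < vv (T j) x) ∧ 0 < vv Q x} :=
      fun hx => hne ⟨x, hx⟩
    rw [indicator_of_notMem hx]
    symm
    apply indicator_apply_eq_zero.2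
    intro _
    rfl

/-- One piece. -/
theorem piece (hd : 1 ≤ d) (q k : ℕ) (hk : 1 ≤ k) : ∃ C : ℝ, 0 < C ∧
    ∀ (P Q : MvPolynomial (Fin (d + 1)) ℝ)
    (T : Fin q → MvPolynomial (Fin (d + 1)) ℝ) (_ : P.totalDegree ≤ k)
    (_ : Q.totalDegree ≤ k) (_ : ∀ j, (T j).totalDegree ≤ k)
    (g : ℝ → ℝ≥0∞) (_ : Measurable g) (δ A : ℝ) (_ : 0 < δ) (_ : δ < 1) (_ : 0 < A)
    (_ : ∫⁻ x, FE P Q T g x ^ (d + 1) ≤ ENNReal.ofReal (A ^ (d + 1))),
    ∃ G : sphere (0 : EuclideanSpace ℝ (Fin (d + 1))) 1 → ℝ≥0∞, Measurable G ∧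
      (∀ e : sphere (0 : EuclideanSpace ℝ (Fin (d + 1))) 1, KM δ (FE P Q T g) (e : EuclideanSpace ℝ (Fin (d + 1))) ^ (d + 1) ≤ G e) ∧
      ∫⁻ e, G e ∂(surf (d + 1)) ≤
      ENNReal.ofReal (C * (1 + Real.log (1 / δ)) ^ (2 * d + 5) * A ^ (d + 1)) := by
  obtain ⟨C, hC, h⟩ := sphere_any hd (q + 1) k
  refine ⟨C, hC, ?_⟩
  intro P Q T hP hQ hT g hg δ A hδ hδ1 hA hI
  -- reduction to the nondegenerate case
  obtain ⟨P', Q', g', hP', hQ', hj, hg', hFE⟩ : ∃ (P' Q' : MvPolynomial (Fin (d + 1)) ℝ)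
      (g' : ℝ → ℝ≥0∞), P'.totalDegree ≤ k ∧ Q'.totalDegree ≤ k ∧ (∃ j, VV P' Q' j ≠ 0) ∧
      Measurable g' ∧ FE P Q T g = FE P' Q'
        (Fin.cons Q T : Fin (q + 1) → MvPolynomial (Fin (d + 1)) ℝ) g' := by
    by_cases hdeg : ∀ j, VV P Q j = 0
    · obtain ⟨c, hc⟩ := FE_degenerate hdeg T g
      refine ⟨MvPolynomial.X 0, 1, fun _ => c, ?_, ?_, ⟨0, ?_⟩, measurable_const, hc⟩
      · rw [MvPolynomial.totalDegree_X]; exact hk
      · rw [MvPolynomial.totalDegree_one]; exact Nat.zero_le _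
      · unfold VV
        simp
    · push Not at hdeg
      exact ⟨P, Q, g, hP, hQ, hdeg, hg, (FE_cons P Q T g).symm⟩
  have hT' : ∀ j, ((Fin.cons Q T : Fin (q + 1) → MvPolynomial (Fin (d + 1)) ℝ) j).totalDegree ≤ k := by
    refine Fin.cases ?_ ?_
    · rw [Fin.cons_zero]; exact hQ
    · intro j; rw [Fin.cons_succ]; exact hT j
  rw [hFE] at hI ⊢
  exact h P' Q' _ hP' hQ' hT' hj g' hg' δ A hδ hδ1 hA hI

theorem KM_mono {n : ℕ} (δ : ℝ) {F G : EuclideanSpace ℝ (Fin n) → ℝ≥0∞} (h : F ≤ᵐ[volume] G)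
    (e : EuclideanSpace ℝ (Fin n)) : KM δ F e ≤ KM δ G e := by
  unfold KM
  apply iSup_mono
  intro a
  exact mul_le_mul' le_rfl (lintegral_mono_ae (ae_restrict_of_ae h))

theorem KM_sum {n : ℕ} (δ : ℝ) {ι : Type*} (s : Finset ι) {F : ι → EuclideanSpace ℝ (Fin n) → ℝ≥0∞}
    (hF : ∀ i, Measurable (F i)) (e : EuclideanSpace ℝ (Fin n)) :
    KM δ (fun x => ∑ i ∈ s, F i x) e ≤ ∑ i ∈ s, KM δ (F i) e := by
  unfold KM
  apply iSup_le
  intro a
  rw [lintegral_finsetSum _ (fun i _ => hF i), Finset.mul_sum]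
  apply Finset.sum_le_sum
  intro i _
  exact le_iSup (fun a => (volume (tube δ e a))⁻¹ * ∫⁻ y in tube δ e a, F i y) a

/-- Finite sums. -/
theorem many (hd : 1 ≤ d) (q k N : ℕ) (hk : 1 ≤ k) : ∃ C : ℝ, 0 < C ∧
    ∀ (P Q : Fin N → MvPolynomial (Fin (d + 1)) ℝ)
    (T : Fin N → Fin q → MvPolynomial (Fin (d + 1)) ℝ) (_ : ∀ i, (P i).totalDegree ≤ k)
    (_ : ∀ i, (Q i).totalDegree ≤ k) (_ : ∀ i, Q i ≠ 0) (_ : ∀ i j, (T i j).totalDegree ≤ k)
    (g : Fin N → ℝ → ℝ≥0∞) (_ : ∀ i, Measurable (g i)) (δ : ℝ) (_ : 0 < δ) (_ : δ < 1)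
    (f : EuclideanSpace ℝ (Fin (d + 1)) → ℝ)
    (_ : ∀ᵐ x, ‖f x‖ₑ = ∑ i, {x | ∀ j, 0 < vv (T i j) x}.indicator
      (fun x => g i (vv (P i) x / vv (Q i) x)) x),
    ∫⁻ e, KM δ (fun x => ‖f x‖ₑ) ((e : sphere (0 : EuclideanSpace ℝ (Fin (d + 1))) 1) :
      EuclideanSpace ℝ (Fin (d + 1))) ^ (d + 1) ∂(surf (d + 1)) ≤
      ENNReal.ofReal (C * (1 + Real.log (1 / δ)) ^ (2 * d + 5)) * ∫⁻ x, ‖f x‖ₑ ^ (d + 1) := by
  classical
  obtain ⟨C, hC, h⟩ := piece hd q k hk
  set m : ℕ := Fintype.card (Fin N × Bool) with hm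
  refine ⟨(m:ℝ) ^ (d + 1) * (m * C) + 1, by positivity, ?_⟩
  intro P Q T hP hQ hQ0 hT g hg δ hδ hδ1 f hf
  have hlog : 0 ≤ Real.log (1 / δ) := Real.log_nonneg (by rw [le_div_iff₀ hδ]; linarith)
  set W := ∫⁻ x, ‖f x‖ₑ ^ (d + 1) with hW
  set L : ℝ := 1 + Real.log (1 / δ) with hL
  have hL1 : 1 ≤ L := by linarith
  set R : ℝ := ((m:ℝ) ^ (d + 1) * (m * C) + 1) * L ^ (2 * d + 5) with hR
  have hR0 : 0 < R := by positivity
  by_cases hWt : W = ∞
  · rw [hWt, ENNReal.mul_top (by rw [Ne, ENNReal.ofReal_eq_zero, not_le]; exact hR0)]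
    exact le_top
  -- the summands
  set F : Fin N × Bool → EuclideanSpace ℝ (Fin (d + 1)) → ℝ≥0∞ := fun i =>
    if i.2 then FE (P i.1) (Q i.1) (T i.1) (g i.1) else FE (-P i.1) (-Q i.1) (T i.1) (g i.1) with hF
  have hFm : ∀ i, Measurable (F i) := by
    intro i
    simp only [hF]
    split_ifs
    · exact measurable_FE _ _ _ (hg _)
    · exact measurable_FE _ _ _ (hg _)
  have hQae : ∀ᵐ x : EuclideanSpace ℝ (Fin (d + 1)), ∀ i, vv (Q i) x ≠ 0 := by
    rw [ae_all_iff]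
    intro i
    exact ae_eval_ne_zero (hQ0 i)
  have hvneg : ∀ (p : MvPolynomial (Fin (d + 1)) ℝ) (x : EuclideanSpace ℝ (Fin (d + 1))),
      vv (-p) x = - vv p x := by
    intro p x; simp [vv]
  have hsum : ∀ᵐ x : EuclideanSpace ℝ (Fin (d + 1)), ‖f x‖ₑ = ∑ i, F i x := by
    filter_upwards [hf, hQae] with x hx hQx
    rw [hx, Fintype.sum_prod_type]
    apply Finset.sum_congr rfl
    intro i _
    rw [Fintype.sum_bool]
    simp only [hF, if_true, Bool.false_eq_true, if_false]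
    unfold FE
    by_cases hA : ∀ j, 0 < vv (T i j) x
    · rw [indicator_of_mem (show x ∈ {x | ∀ j, 0 < vv (T i j) x} from hA)]
      rcases lt_or_gt_of_ne (hQx i) with hneg | hpos
      · have n1 : x ∉ {x | (∀ j, 0 < vv (T i j) x) ∧ 0 < vv (Q i) x} := fun h => by
          have := h.2; linarith
        have n2 : x ∈ {x | (∀ j, 0 < vv (T i j) x) ∧ 0 < vv (-Q i) x} := by
          refine ⟨hA, ?_⟩
          rw [hvneg]; linarith
        rw [indicator_of_notMem n1, indicator_of_mem n2, zero_add, hvneg, hvneg, neg_div_neg_eq]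
      · have n1 : x ∈ {x | (∀ j, 0 < vv (T i j) x) ∧ 0 < vv (Q i) x} := ⟨hA, hpos⟩
        have n2 : x ∉ {x | (∀ j, 0 < vv (T i j) x) ∧ 0 < vv (-Q i) x} := fun h => by
          have h2 := h.2
          rw [hvneg] at h2
          linarith
        rw [indicator_of_mem n1, indicator_of_notMem n2, add_zero]
    · rw [indicator_of_notMem (show x ∉ {x | ∀ j, 0 < vv (T i j) x} from hA),
        indicator_of_notMem (fun h => hA h.1), indicator_of_notMem (fun h => hA h.1), add_zero]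
  have hFint : ∀ i, ∫⁻ x, F i x ^ (d + 1) ≤ W := by
    intro i
    apply lintegral_mono_ae
    filter_upwards [hsum] with x hx
    rw [hx]
    exact pow_le_pow_left' (Finset.single_le_sum (f := fun i => F i x) (fun _ _ => zero_le)
      (Finset.mem_univ i)) _
  have hmain : ∀ A : ℝ, 0 < A → W ≤ ENNReal.ofReal (A ^ (d + 1)) →
      ∫⁻ e, KM δ (fun x => ‖f x‖ₑ) ((e : sphere (0 : EuclideanSpace ℝ (Fin (d + 1))) 1) :
      EuclideanSpace ℝ (Fin (d + 1))) ^ (d + 1) ∂(surf (d + 1)) ≤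
        ENNReal.ofReal (R * A ^ (d + 1)) := by
    intro A hA hWA
    have hone : ∀ i, ∃ G : sphere (0 : EuclideanSpace ℝ (Fin (d + 1))) 1 → ℝ≥0∞, Measurable G ∧
        (∀ e : sphere (0 : EuclideanSpace ℝ (Fin (d + 1))) 1, KM δ (F i) (e : EuclideanSpace ℝ (Fin (d + 1))) ^ (d + 1) ≤ G e) ∧
        ∫⁻ e, G e ∂(surf (d + 1)) ≤ ENNReal.ofReal (C * L ^ (2 * d + 5) * A ^ (d + 1)) := by
      intro i
      have hi := (hFint i).trans hWA
      simp only [hF] at hi ⊢
      split_ifs with hb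
      · rw [if_pos hb] at hi
        exact h (P i.1) (Q i.1) (T i.1) (hP _) (hQ _) (hT _) (g i.1) (hg _) δ A hδ hδ1 hA hi
      · rw [if_neg hb] at hi
        exact h (-P i.1) (-Q i.1) (T i.1) (by rw [MvPolynomial.totalDegree_neg]; exact hP _)
          (by rw [MvPolynomial.totalDegree_neg]; exact hQ _) (hT _) (g i.1) (hg _) δ A hδ hδ1 hA hi
    choose G hGm hGle hGint using hone
    have hpt : ∀ e : sphere (0 : EuclideanSpace ℝ (Fin (d + 1))) 1,
        KM δ (fun x => ‖f x‖ₑ) (e : EuclideanSpace ℝ (Fin (d + 1))) ^ (d + 1) ≤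
        ENNReal.ofReal ((m:ℝ) ^ (d + 1)) * ∑ i, G i e := by
      intro e
      have h1 : KM δ (fun x => ‖f x‖ₑ) (e : EuclideanSpace ℝ (Fin (d + 1))) ≤
          ∑ i, KM δ (F i) (e : EuclideanSpace ℝ (Fin (d + 1))) :=
        (KM_mono δ (hsum.mono fun x hx => hx.le) _).trans (KM_sum δ Finset.univ hFm _)
      have h2 := rpow_sum_le (p := ((d + 1 : ℕ) : ℝ)) (by
        push_cast
        have : (0:ℝ) ≤ d := Nat.cast_nonneg d
        linarith) (fun i => KM δ (F i) (e : EuclideanSpace ℝ (Fin (d + 1))))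
      simp only [ENNReal.rpow_natCast] at h2
      rw [ENNReal.ofReal_pow (Nat.cast_nonneg _), ENNReal.ofReal_natCast]
      calc KM δ (fun x => ‖f x‖ₑ) (e : EuclideanSpace ℝ (Fin (d + 1))) ^ (d + 1)
          ≤ (∑ i, KM δ (F i) (e : EuclideanSpace ℝ (Fin (d + 1)))) ^ (d + 1) :=
            pow_le_pow_left' h1 _
        _ ≤ _ := h2
        _ ≤ _ := by
            gcongr with i
            exact hGle i e
    calc ∫⁻ e, KM δ (fun x => ‖f x‖ₑ) ((e : sphere (0 : EuclideanSpace ℝ (Fin (d + 1))) 1) :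
          EuclideanSpace ℝ (Fin (d + 1))) ^ (d + 1) ∂(surf (d + 1))
        ≤ ∫⁻ e, ENNReal.ofReal ((m:ℝ) ^ (d + 1)) * ∑ i, G i e ∂(surf (d + 1)) :=
          lintegral_mono hpt
      _ = ENNReal.ofReal ((m:ℝ) ^ (d + 1)) * ∑ i, ∫⁻ e, G i e ∂(surf (d + 1)) := by
          rw [lintegral_const_mul' _ _ ENNReal.ofReal_ne_top,
            lintegral_finsetSum _ (fun i _ => hGm i)]
      _ ≤ ENNReal.ofReal ((m:ℝ) ^ (d + 1)) * ∑ _i : Fin N × Bool,
          ENNReal.ofReal (C * L ^ (2 * d + 5) * A ^ (d + 1)) := by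
          gcongr with i
          exact hGint i
      _ = ENNReal.ofReal ((m:ℝ) ^ (d + 1) * (m * (C * L ^ (2 * d + 5) * A ^ (d + 1)))) := by
          rw [Finset.sum_const, Finset.card_univ, ← hm, nsmul_eq_mul, ← ENNReal.ofReal_natCast,
            ← ENNReal.ofReal_mul (by positivity), ← ENNReal.ofReal_mul (by positivity)]
      _ ≤ _ := by
          apply ENNReal.ofReal_le_ofReal
          rw [hR]
          have : 0 ≤ L ^ (2 * d + 5) * A ^ (d + 1) := by positivity
          nlinarith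
  apply ENNReal.le_of_forall_pos_le_add
  intro ε hε _
  have hε' : (0:ℝ) < ε := by exact_mod_cast hε
  set x : ℝ := W.toReal + ε / R with hx
  have hx0 : 0 < x := by
    have : 0 ≤ W.toReal := ENNReal.toReal_nonneg
    positivity
  have hFx : (x ^ ((1:ℝ) / (d + 1))) ^ (d + 1) = x := by
    rw [← Real.rpow_natCast, ← Real.rpow_mul hx0.le]
    have : (1:ℝ) / (d + 1) * ((d + 1 : ℕ) : ℝ) = 1 := by
      push_cast
      field_simp
    rw [this, Real.rpow_one]
  have h1 := hmain (x ^ ((1:ℝ) / (d + 1))) (by positivity) (by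
    rw [hFx]
    calc W = ENNReal.ofReal W.toReal := (ENNReal.ofReal_toReal hWt).symm
      _ ≤ ENNReal.ofReal x := ENNReal.ofReal_le_ofReal (by
        rw [hx]; have : 0 ≤ ε / R := by positivity
        linarith))
  rw [hFx] at h1
  refine h1.trans (le_of_eq ?_)
  have h2 : R * x = R * W.toReal + ε := by
    rw [hx]; field_simp
  rw [h2, ENNReal.ofReal_add (by positivity) hε'.le, ENNReal.ofReal_mul hR0.le,
    ENNReal.ofReal_toReal hWt, ENNReal.ofReal_coe_nnreal]

end Pool.Agent.D0H14.KP
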