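import Pool.Agent.D0H14.KP.StepA2
import Pool.Agent.TH539.AlgProg

set_option autoImplicit false

/-!
The data for the quotient of two polynomials.
-/

open MeasureTheory Set Filter Topology ENNReal NNReal Metric

namespace Pool.Agent.D0H14.KP

open Pool.Agent.H803R2.Kak Pool.Agent.H803R2.KakFTO Pool.Agent.H805R3.Kk Pool.Agent.W770.SA
  Pool.Agent.R250.AC

variable {d : ℕ}

section PF

variable {D D' : ℕ} {φ ψ : Vec d → Vec d × ℝ → ℝ}

theorem PF.mono (h : PF D φ) (hD : D ≤ D') : PF D' φ := by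
  refine ⟨h.1, ?_, ?_⟩
  · intro v a
    obtain ⟨p, hp, he⟩ := h.2.1 v a
    exact ⟨p, hp.trans hD, he⟩
  · intro t
    obtain ⟨m, hm, he⟩ := h.2.2 t
    exact ⟨m, hm.trans hD, he⟩

theorem PF.add (h : PF D φ) (h' : PF D ψ) : PF D (fun v x => φ v x + ψ v x) := by
  refine ⟨h.1.add h'.1, ?_, ?_⟩
  · intro v a
    obtain ⟨p, hp, he⟩ := h.2.1 v a
    obtain ⟨q, hq, he'⟩ := h'.2.1 v a
    exact ⟨p + q, (Polynomial.natDegree_add_le _ _).trans (max_le hp hq), fun t => by
      rw [Polynomial.eval_add, he, he']⟩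
  · intro t
    obtain ⟨p, hp, he⟩ := h.2.2 t
    obtain ⟨q, hq, he'⟩ := h'.2.2 t
    exact ⟨p + q, (MvPolynomial.totalDegree_add _ _).trans (max_le hp hq), fun v a => by
      rw [Dat.ev_add, he, he']⟩

theorem PF.mul (h : PF D φ) (h' : PF D' ψ) : PF (D + D') (fun v x => φ v x * ψ v x) := by
  refine ⟨h.1.mul h'.1, ?_, ?_⟩
  · intro v a
    obtain ⟨p, hp, he⟩ := h.2.1 v a
    obtain ⟨q, hq, he'⟩ := h'.2.1 v a
    exact ⟨p * q, (Polynomial.natDegree_mul_le).trans (add_le_add hp hq), fun t => by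
      rw [Polynomial.eval_mul, he, he']⟩
  · intro t
    obtain ⟨p, hp, he⟩ := h.2.2 t
    obtain ⟨q, hq, he'⟩ := h'.2.2 t
    exact ⟨p * q, (MvPolynomial.totalDegree_mul _ _).trans (add_le_add hp hq), fun v a => by
      rw [Dat.ev_mul, he, he']⟩

theorem PF.const (c : ℝ) : PF D (fun (_ : Vec d) (_ : Vec d × ℝ) => c) := by
  refine ⟨continuous_const, ?_, ?_⟩
  · intro v a
    exact ⟨Polynomial.C c, by simp, fun t => by simp⟩
  · intro t
    exact ⟨MvPolynomial.C c, by simp, fun v a => by rw [Dat.ev_C]⟩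

theorem PF.neg (h : PF D φ) : PF D (fun v x => - φ v x) := by
  have := (PF.const (d := d) (D := 0) (-1)).mul h
  simpa using this

theorem PF.sum {ι : Type*} (s : Finset ι) {f : ι → Vec d → Vec d × ℝ → ℝ} (h : ∀ i ∈ s, PF D (f i)) :
    PF D (fun v x => ∑ i ∈ s, f i v x) := by
  classical
  induction s using Finset.induction with
  | empty => simpa using PF.const (d := d) (D := D) 0
  | insert a s ha ih =>
    simp only [Finset.sum_insert ha]
    exact (h a (Finset.mem_insert_self _ _)).add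
      (ih fun i hi => h i (Finset.mem_insert_of_mem hi))

end PF

/-- The coordinates of the point `(y, t)`; the last coordinate is put at the place `i₀`. -/
noncomputable def crd (i₀ : Fin (d + 1)) (x : Vec d × ℝ) : Fin (d + 1) → ℝ :=
  i₀.insertNth x.2 (fun l => x.1 l)

theorem crd_self (i₀ : Fin (d + 1)) (x : Vec d × ℝ) : crd i₀ x i₀ = x.2 := by
  unfold crd; rw [Fin.insertNth_apply_same]

theorem crd_above (i₀ : Fin (d + 1)) (x : Vec d × ℝ) (l : Fin d) :
    crd i₀ x (i₀.succAbove l) = x.1 l := by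
  unfold crd; rw [Fin.insertNth_apply_succAbove]

theorem continuous_crd (i₀ : Fin (d + 1)) : Continuous (crd (d := d) i₀) := by
  rw [continuous_pi_iff]
  intro j
  rcases Fin.eq_self_or_eq_succAbove i₀ j with rfl | ⟨l, rfl⟩
  · simp only [crd_self]; fun_prop
  · simp only [crd_above]; fun_prop

/-- The direction of the line of velocity `v`. -/
noncomputable def dv (i₀ : Fin (d + 1)) (v : Vec d) : Fin (d + 1) → ℝ := crd i₀ (v, 1)

theorem crd_line (i₀ : Fin (d + 1)) (v a : Vec d) (t : ℝ) (j : Fin (d + 1)) :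
    crd i₀ (a + t • v, t) j = crd i₀ (a, 0) j + t * dv i₀ v j := by
  unfold dv
  rcases Fin.eq_self_or_eq_succAbove i₀ j with rfl | ⟨l, rfl⟩
  · simp only [crd_self]; ring
  · simp only [crd_above]; simp

theorem sum_dv_sq (i₀ : Fin (d + 1)) (v : Vec d) : ∑ j, dv i₀ v j ^ 2 = 1 + ‖v‖ ^ 2 := by
  rw [Fin.sum_univ_succAbove _ i₀]
  unfold dv
  simp only [crd_self, crd_above]
  rw [EuclideanSpace.norm_sq_eq]
  simp

/-- The function given by a polynomial. -/
noncomputable def pf (i₀ : Fin (d + 1)) (p : MvPolynomial (Fin (d + 1)) ℝ) (x : Vec d × ℝ) : ℝ :=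
  MvPolynomial.eval (crd i₀ x) p

theorem PF.poly (i₀ : Fin (d + 1)) (p : MvPolynomial (Fin (d + 1)) ℝ) :
    PF p.totalDegree (fun (_ : Vec d) x => pf i₀ p x) := by
  refine ⟨?_, ?_, ?_⟩
  · unfold pf
    exact (MvPolynomial.continuous_eval p).comp ((continuous_crd i₀).comp continuous_snd)
  · intro v a
    refine ⟨MvPolynomial.aeval (fun l => Polynomial.C (crd i₀ (a, 0) l) +
      Polynomial.C (dv i₀ v l) * Polynomial.X) p, ?_, ?_⟩
    · have := MvPolynomial.aeval_natDegree_le (n := 1) p le_rfl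
        (fun l => Polynomial.C (crd i₀ (a, 0) l) + Polynomial.C (dv i₀ v l) * Polynomial.X)
        (fun l => by
          refine (Polynomial.natDegree_add_le _ _).trans ?_
          rw [Polynomial.natDegree_C]
          refine max_le (by norm_num) ?_
          refine (Polynomial.natDegree_C_mul_le _ _).trans ?_
          exact Polynomial.natDegree_X_le)
      simpa using this
    · intro t
      unfold pf
      induction p using MvPolynomial.induction_on with
      | C a => simp
      | add p q hp hq => simp only [map_add, Polynomial.eval_add, hp, hq]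
      | mul_X p i hp =>
        simp only [map_mul, Polynomial.eval_mul, hp, MvPolynomial.aeval_X, MvPolynomial.eval_X]
        congr 1
        rw [Polynomial.eval_add, Polynomial.eval_C, Polynomial.eval_mul, Polynomial.eval_C,
          Polynomial.eval_X, crd_line]
        ring
  · intro t
    set s : Fin (d + 1) → MvPolynomial (Fin d ⊕ Fin d) ℝ := i₀.insertNth (MvPolynomial.C t)
      (fun l => MvPolynomial.X (Sum.inr l) + MvPolynomial.C t * MvPolynomial.X (Sum.inl l)) with hs
    have hsd : ∀ j, (s j).totalDegree ≤ 1 := by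
      intro j
      rcases Fin.eq_self_or_eq_succAbove i₀ j with rfl | ⟨l, rfl⟩
      · rw [hs, Fin.insertNth_apply_same, MvPolynomial.totalDegree_C]; norm_num
      · rw [hs, Fin.insertNth_apply_succAbove]
        refine (MvPolynomial.totalDegree_add _ _).trans (max_le ?_ ?_)
        · rw [MvPolynomial.totalDegree_X]
        · refine (MvPolynomial.totalDegree_mul _ _).trans ?_
          rw [MvPolynomial.totalDegree_C, MvPolynomial.totalDegree_X]
    have hse : ∀ j v a, MvPolynomial.eval (Sum.elim (fun l => v l) (fun l => a l)) (s j) =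
        crd i₀ (a + t • v, t) j := by
      intro j v a
      rcases Fin.eq_self_or_eq_succAbove i₀ j with rfl | ⟨l, rfl⟩
      · rw [hs, Fin.insertNth_apply_same, crd_self, MvPolynomial.eval_C]
      · rw [hs, Fin.insertNth_apply_succAbove, crd_above]
        simp
    refine ⟨MvPolynomial.bind₁ s p, ?_, ?_⟩
    · have h : MvPolynomial.bind₁ s p = ∑ m ∈ p.support, MvPolynomial.C (MvPolynomial.coeff m p) *
          ∏ l, s l ^ (m l) := by
        rw [MvPolynomial.bind₁, MvPolynomial.aeval_def, MvPolynomial.eval₂_eq']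
        rfl
      rw [h]
      apply MvPolynomial.totalDegree_finsetSum_le
      intro m hm
      refine (MvPolynomial.totalDegree_mul _ _).trans ?_
      rw [MvPolynomial.totalDegree_C, zero_add]
      refine (MvPolynomial.totalDegree_finsetProd _ _).trans ?_
      calc ∑ l, (s l ^ (m l)).totalDegree ≤ ∑ l, m l := by
            apply Finset.sum_le_sum
            intro l _
            refine (MvPolynomial.totalDegree_pow _ _).trans ?_
            calc m l * _ ≤ m l * 1 := Nat.mul_le_mul_left _ (hsd l)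
              _ = m l := mul_one _
        _ = m.sum (fun _ e => e) := by rw [Finsupp.sum_fintype _ _ (fun _ => rfl)]
        _ ≤ _ := MvPolynomial.le_totalDegree hm
    · intro v a
      unfold ev pf
      rw [← MvPolynomial.aeval_eq_eval, MvPolynomial.aeval_bind₁, MvPolynomial.aeval_eq_eval]
      congr 2
      ext j
      exact hse j v a

theorem PF.dv (i₀ : Fin (d + 1)) (j : Fin (d + 1)) :
    PF 1 (fun (v : Vec d) (_ : Vec d × ℝ) => dv i₀ v j) := by
  unfold KP.dv
  rcases Fin.eq_self_or_eq_succAbove i₀ j with rfl | ⟨l, rfl⟩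
  · simp only [crd_self]
    exact PF.const 1
  · simp only [crd_above]
    refine ⟨by fun_prop, ?_, ?_⟩
    · intro v a
      exact ⟨Polynomial.C (v l), by simp, fun t => by simp⟩
    · intro t
      refine ⟨MvPolynomial.X (Sum.inl l), by rw [MvPolynomial.totalDegree_X], fun v a => ?_⟩
      simp [ev]

/-- The derivative of a polynomial along a line. -/
theorem hasDerivAt_pf (i₀ : Fin (d + 1)) (p : MvPolynomial (Fin (d + 1)) ℝ) (v a : Vec d) (t : ℝ) :
    HasDerivAt (fun s : ℝ => pf i₀ p (a + s • v, s))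
      (∑ j, dv i₀ v j * pf i₀ (MvPolynomial.pderiv j p) (a + t • v, t)) t := by
  induction p using MvPolynomial.induction_on with
  | C c =>
    simp only [pf, MvPolynomial.eval_C, MvPolynomial.pderiv_C, map_zero, mul_zero,
      Finset.sum_const_zero]
    exact hasDerivAt_const _ _
  | add p q hp hq =>
    have h := hp.add hq
    have e : (fun s : ℝ => pf i₀ (p + q) (a + s • v, s)) =
        (fun s : ℝ => pf i₀ p (a + s • v, s)) + fun s : ℝ => pf i₀ q (a + s • v, s) := by
      ext s; simp [pf]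
    rw [e]
    refine h.congr_deriv ?_
    rw [← Finset.sum_add_distrib]
    apply Finset.sum_congr rfl
    intro j _
    simp only [pf, map_add]
    ring
  | mul_X p i hp =>
    have hx : HasDerivAt (fun s : ℝ => crd i₀ (a + s • v, s) i) (dv i₀ v i) t := by
      simp only [crd_line]
      have := ((hasDerivAt_id t).mul_const (dv i₀ v i)).const_add (crd i₀ (a, 0) i)
      simpa using this
    have h := hp.mul hx
    have e : (fun s : ℝ => pf i₀ (p * MvPolynomial.X i) (a + s • v, s)) =
        (fun s : ℝ => pf i₀ p (a + s • v, s)) * fun s : ℝ => crd i₀ (a + s • v, s) i := by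
      ext s; simp [pf]
    rw [e]
    refine h.congr_deriv ?_
    simp only [pf, MvPolynomial.pderiv_mul, map_add, map_mul, MvPolynomial.eval_X,
      MvPolynomial.pderiv_X, mul_add, Finset.sum_add_distrib]
    symm
    congr 1
    · rw [Finset.sum_mul]
      apply Finset.sum_congr rfl
      intro j _
      ring
    · rw [Finset.sum_eq_single i]
      · simp; ring
      · intro j _ hj
        rw [Pi.single_apply, if_neg (fun h => hj h.symm)]
        simp
      · intro h; exact absurd (Finset.mem_univ i) h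

/-- The vector `Q ∇P - P ∇Q`. -/
noncomputable def VV (P Q : MvPolynomial (Fin (d + 1)) ℝ) (j : Fin (d + 1)) :
    MvPolynomial (Fin (d + 1)) ℝ :=
  Q * MvPolynomial.pderiv j P - P * MvPolynomial.pderiv j Q

theorem totalDegree_pderiv_le' (j : Fin (d + 1)) (p : MvPolynomial (Fin (d + 1)) ℝ) :
    (MvPolynomial.pderiv j p).totalDegree ≤ p.totalDegree := by
  by_cases h : MvPolynomial.pderiv j p = 0
  · rw [h, MvPolynomial.totalDegree_zero]; exact Nat.zero_le _
  · exact (Pool.Agent.TH539.AlgProg.totalDegree_pderiv h).le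

/-- The numerator of the derivative in the direction `(v, 1)`. -/
noncomputable def NN (i₀ : Fin (d + 1)) (P Q : MvPolynomial (Fin (d + 1)) ℝ) (v : Vec d)
    (x : Vec d × ℝ) : ℝ := ∑ j, dv i₀ v j * pf i₀ (VV P Q j) x

/-- The square of the length of `Q ∇P - P ∇Q`. -/
noncomputable def WW (i₀ : Fin (d + 1)) (P Q : MvPolynomial (Fin (d + 1)) ℝ)
    (x : Vec d × ℝ) : ℝ := ∑ j, pf i₀ (VV P Q j) x ^ 2

theorem deg_VV {P Q : MvPolynomial (Fin (d + 1)) ℝ} {k : ℕ} (hP : P.totalDegree ≤ k)
    (hQ : Q.totalDegree ≤ k) (j : Fin (d + 1)) : (VV P Q j).totalDegree ≤ 2 * k := by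
  unfold VV
  refine (MvPolynomial.totalDegree_sub _ _).trans (max_le ?_ ?_)
  · refine (MvPolynomial.totalDegree_mul _ _).trans ?_
    have := totalDegree_pderiv_le' j P
    omega
  · refine (MvPolynomial.totalDegree_mul _ _).trans ?_
    have := totalDegree_pderiv_le' j Q
    omega

theorem PF.NN (i₀ : Fin (d + 1)) {P Q : MvPolynomial (Fin (d + 1)) ℝ} {k : ℕ}
    (hP : P.totalDegree ≤ k) (hQ : Q.totalDegree ≤ k) : PF (4 * k + 1) (NN i₀ P Q) := by
  unfold KP.NN
  apply PF.sum
  intro j _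
  refine ((PF.dv i₀ j).mul (PF.poly i₀ (VV P Q j))).mono ?_
  have := deg_VV hP hQ j
  omega

theorem PF.WW (i₀ : Fin (d + 1)) {P Q : MvPolynomial (Fin (d + 1)) ℝ} {k : ℕ}
    (hP : P.totalDegree ≤ k) (hQ : Q.totalDegree ≤ k) :
    PF (4 * k + 1) (fun _ => WW i₀ P Q) := by
  unfold KP.WW
  apply PF.sum
  intro j _
  have h := ((PF.poly i₀ (VV P Q j)).mul (PF.poly i₀ (VV P Q j))).mono (D' := 4 * k + 1) (by
    have := deg_VV hP hQ j
    omega)
  simpa only [sq] using h

theorem NN_sq_le (i₀ : Fin (d + 1)) (P Q : MvPolynomial (Fin (d + 1)) ℝ) (v : Vec d)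
    (x : Vec d × ℝ) : NN i₀ P Q v x ^ 2 ≤ (1 + ‖v‖ ^ 2) * WW i₀ P Q x := by
  rw [← sum_dv_sq i₀ v]
  exact Finset.sum_mul_sq_le_sq_mul_sq _ _ _

theorem hasDerivAt_quot (i₀ : Fin (d + 1)) (P Q : MvPolynomial (Fin (d + 1)) ℝ) (v a : Vec d)
    (t : ℝ) (hQ : pf i₀ Q (a + t • v, t) ≠ 0) :
    HasDerivAt (fun s : ℝ => pf i₀ P (a + s • v, s) / pf i₀ Q (a + s • v, s))
      (NN i₀ P Q v (a + t • v, t) / pf i₀ Q (a + t • v, t) ^ 2) t := by
  have h1 := hasDerivAt_pf i₀ P v a t
  have h2 := hasDerivAt_pf i₀ Q v a t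
  refine (h1.div h2 hQ).congr_deriv ?_
  congr 1
  unfold NN
  rw [Finset.sum_mul, Finset.mul_sum, ← Finset.sum_sub_distrib]
  apply Finset.sum_congr rfl
  intro j _
  simp only [VV, pf, map_sub, map_mul]
  ring

/-- The data given by two polynomials and finitely many inequalities. -/
noncomputable def mk (i₀ : Fin (d + 1)) (P Q : MvPolynomial (Fin (d + 1)) ℝ) {q : ℕ}
    (T : Fin q → MvPolynomial (Fin (d + 1)) ℝ) {k : ℕ} (hP : P.totalDegree ≤ k)
    (hQ : Q.totalDegree ≤ k) (hT : ∀ j, (T j).totalDegree ≤ k) :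
    Dat d (4 * k + 1) (q + 1 + 1 + 1) where
  Φ := Fin.cons (NN i₀ P Q) (Fin.cons (fun _ => pf i₀ Q) (Fin.cons (fun _ => WW i₀ P Q)
    (fun j _ => pf i₀ (T j))))
  P := pf i₀ P
  Q := pf i₀ Q
  W := WW i₀ P Q
  A := {x | (∀ j, 0 < pf i₀ (T j) x) ∧ 0 < pf i₀ Q x}
  rN := 0
  rQ := 1
  rW := 2
  hΦ := by
    refine Fin.cases ?_ (Fin.cases ?_ (Fin.cases ?_ ?_))
    · exact PF.NN i₀ hP hQ
    · exact (PF.poly i₀ Q).mono (by omega)
    · exact PF.WW i₀ hP hQ
    · intro j
      exact (PF.poly i₀ (T j)).mono (by have := hT j; omega)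
  hP := (PF.poly i₀ P).mono (by omega)
  hQ := fun _ => rfl
  hW := fun _ => rfl
  hA := by
    intro v x h
    exact ⟨fun j => h j.succ.succ.succ, h 1⟩
  hAm := by
    have h1 : ∀ p : MvPolynomial (Fin (d + 1)) ℝ, IsOpen {x : Vec d × ℝ | 0 < pf i₀ p x} := by
      intro p
      exact isOpen_lt continuous_const
        ((MvPolynomial.continuous_eval p).comp (continuous_crd i₀))
    have h2 : {x : Vec d × ℝ | (∀ j, 0 < pf i₀ (T j) x) ∧ 0 < pf i₀ Q x} =
        (⋂ j, {x | 0 < pf i₀ (T j) x}) ∩ {x | 0 < pf i₀ Q x} := by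
      ext x; simp
    rw [h2]
    exact ((isOpen_iInter_of_finite fun j => h1 _).inter (h1 _)).measurableSet
  hder := fun v a t h => hasDerivAt_quot i₀ P Q v a t h.ne'
  hNW := NN_sq_le i₀ P Q

end Pool.Agent.D0H14.KP
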