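import Pool.Agent.D0H14.KP.Rat

set_option autoImplicit false

/-!
From lines to sheared cylinders.
-/

open MeasureTheory Set Filter Topology ENNReal NNReal Metric

namespace Pool.Agent.D0H14.KP

open Pool.Agent.H803R2.Kak Pool.Agent.H803R2.KakFTO Pool.Agent.H805R3.Kk Pool.Agent.W770.SA
  Pool.Agent.R250.AC

variable {d : ℕ}

/-- The sheared cylinder. -/
def cyl (v : Vec d) (x₀ : Vec d × ℝ) (r : ℝ) : Set (Vec d × ℝ) :=
  {x | |x.2 - x₀.2| ≤ 3 / 2 ∧ ‖x.1 - x₀.1 - (x.2 - x₀.2) • v‖ ≤ r}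

theorem measurableSet_cyl (v : Vec d) (x₀ : Vec d × ℝ) (r : ℝ) : MeasurableSet (cyl v x₀ r) := by
  have h1 : IsClosed {x : Vec d × ℝ | |x.2 - x₀.2| ≤ 3 / 2} :=
    isClosed_le (by fun_prop) continuous_const
  have h2 : IsClosed {x : Vec d × ℝ | ‖x.1 - x₀.1 - (x.2 - x₀.2) • v‖ ≤ r} :=
    isClosed_le (by fun_prop) continuous_const
  exact (h1.inter h2).measurableSet

theorem cyl_sub {v w : Vec d} {x₀ : Vec d × ℝ} {r δ : ℝ} (hw : ‖w - v‖ ≤ δ) :
    cyl v x₀ r ⊆ cyl w x₀ (r + 3 / 2 * δ) := by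
  rintro x ⟨h1, h2⟩
  refine ⟨h1, ?_⟩
  have e : x.1 - x₀.1 - (x.2 - x₀.2) • w = (x.1 - x₀.1 - (x.2 - x₀.2) • v) -
      (x.2 - x₀.2) • (w - v) := by rw [smul_sub]; abel
  rw [e]
  refine (norm_sub_le _ _).trans (add_le_add h2 ?_)
  rw [norm_smul, Real.norm_eq_abs]
  have := norm_nonneg (w - v)
  have := abs_nonneg (x.2 - x₀.2)
  nlinarith

theorem shear_bound {w : Vec d} {x₀ : Vec d × ℝ} {r : ℝ} {G : Vec d × ℝ → ℝ≥0∞}
    (hG : Measurable G) {B : ℝ≥0∞}
    (hB : ∀ (a : Vec d) (t₀ : ℝ), ∫⁻ t in Icc t₀ (t₀ + 3), G (a + t • w, t) ≤ B) :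
    ∫⁻ x in cyl w x₀ r, G x ≤ volume (closedBall (0 : Vec d) r) * B := by
  have hcm := measurableSet_cyl w x₀ r
  rw [← lintegral_indicator hcm]
  have hGi : Measurable ((cyl w x₀ r).indicator G) := hG.indicator hcm
  rw [Measure.volume_eq_prod, lintegral_prod_symm _ hGi.aemeasurable]
  have h1 : ∀ t : ℝ, ∫⁻ y : Vec d, (cyl w x₀ r).indicator G (y, t) =
      ∫⁻ b : Vec d, (cyl w x₀ r).indicator G (b + (x₀.1 + (t - x₀.2) • w), t) := by
    intro t
    exact (lintegral_add_right_eq_self (fun y : Vec d => (cyl w x₀ r).indicator G (y, t)) _).symm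
  simp_rw [h1]
  have hm2 : Measurable (fun z : ℝ × Vec d =>
      (cyl w x₀ r).indicator G (z.2 + (x₀.1 + (z.1 - x₀.2) • w), z.1)) :=
    hGi.comp (by fun_prop)
  rw [lintegral_lintegral_swap (by
    exact hm2.aemeasurable)]
  have h2 : ∀ b : Vec d, ∫⁻ t : ℝ, (cyl w x₀ r).indicator G (b + (x₀.1 + (t - x₀.2) • w), t) ≤
      (closedBall (0 : Vec d) r).indicator (fun _ => B) b := by
    intro b
    by_cases hb : b ∈ closedBall (0 : Vec d) r
    · rw [indicator_of_mem hb]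
      refine le_trans ?_ (hB (b + x₀.1 - x₀.2 • w) (x₀.2 - 3 / 2))
      rw [← lintegral_indicator measurableSet_Icc]
      apply lintegral_mono
      intro t
      have e : b + (x₀.1 + (t - x₀.2) • w) = b + x₀.1 - x₀.2 • w + t • w := by
        rw [sub_smul]; abel
      by_cases ht : t ∈ Icc (x₀.2 - 3 / 2) (x₀.2 - 3 / 2 + 3)
      · simp only
        rw [indicator_of_mem ht, e]
        exact indicator_le_self _ _ _
      · have hn : ((b + (x₀.1 + (t - x₀.2) • w), t) : Vec d × ℝ) ∉ cyl w x₀ r := by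
          rintro ⟨h3, -⟩
          apply ht
          simp only at h3
          have := abs_le.1 h3
          constructor <;> linarith [this.1, this.2]
        simp only
        rw [indicator_of_notMem hn]
        exact zero_le
    · rw [indicator_of_notMem hb]
      have : ∀ t : ℝ, (cyl w x₀ r).indicator G (b + (x₀.1 + (t - x₀.2) • w), t) = 0 := by
        intro t
        apply indicator_of_notMem
        rintro ⟨-, h3⟩
        apply hb
        rw [mem_closedBall_zero_iff]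
        simp only at h3
        have e : b + (x₀.1 + (t - x₀.2) • w) - x₀.1 - (t - x₀.2) • w = b := by abel
        rwa [e] at h3
      simp [this]
  calc ∫⁻ b : Vec d, ∫⁻ t : ℝ, (cyl w x₀ r).indicator G (b + (x₀.1 + (t - x₀.2) • w), t)
      ≤ ∫⁻ b : Vec d, (closedBall (0 : Vec d) r).indicator (fun _ => B) b := lintegral_mono h2
    _ = volume (closedBall (0 : Vec d) r) * B := by
        rw [lintegral_indicator measurableSet_closedBall, setLIntegral_const, mul_comm]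

namespace Dat

variable {D M : ℕ} (𝔇 : Dat d D M)

theorem continuous_Φ (r : Fin M) (v : Vec d) : Continuous (𝔇.Φ r v) := by
  have h : Continuous (fun x : Vec d × ℝ => (v, x)) := by fun_prop
  exact (𝔇.hΦ r).1.comp h

theorem measurableSet_Flat (η h : ℝ) (v : Vec d) : MeasurableSet {x | 𝔇.Flat η h v x} := by
  apply IsClosed.measurableSet
  unfold Flat
  have : {x : Vec d × ℝ | ∀ r, ∀ s : ℝ, |s| ≤ h →
      |𝔇.Φ r v (x.1 + s • v, x.2 + s) - 𝔇.Φ r v x| ≤ η * |𝔇.Φ r v x|} =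
      ⋂ r, ⋂ s : ℝ, ⋂ _ : |s| ≤ h,
        {x | |𝔇.Φ r v (x.1 + s • v, x.2 + s) - 𝔇.Φ r v x| ≤ η * |𝔇.Φ r v x|} := by
    ext x; simp
  rw [this]
  refine isClosed_iInter fun r => isClosed_iInter fun s => isClosed_iInter fun _ => ?_
  have hc := 𝔇.continuous_Φ r v
  apply isClosed_le
  · apply Continuous.abs
    apply Continuous.sub _ hc
    exact hc.comp (by fun_prop)
  · fun_prop

theorem measurableSet_Good (κ : ℝ) (v : Vec d) : MeasurableSet {x | 𝔇.Good κ v x} := by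
  unfold Good
  have : {x : Vec d × ℝ | (∀ r, 0 < 𝔇.Φ r v x) ∧ κ * 𝔇.W x ≤ 𝔇.Φ 𝔇.rN v x ^ 2} =
      (⋂ r, {x | 0 < 𝔇.Φ r v x}) ∩ {x | κ * 𝔇.W x ≤ 𝔇.Φ 𝔇.rN v x ^ 2} := by
    ext x; simp
  rw [this]
  refine MeasurableSet.inter (MeasurableSet.iInter fun r => ?_) ?_
  · exact measurableSet_lt measurable_const (𝔇.measurable_Φ r v)
  · exact measurableSet_le (𝔇.measurable_W.const_mul _) ((𝔇.measurable_Φ _ v).pow_const 2)

/-- The good part of the function. -/
noncomputable def Gd (κ η h : ℝ) (g : ℝ → ℝ≥0∞) (v : Vec d) (x : Vec d × ℝ) : ℝ≥0∞ :=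
  {x | 𝔇.Good κ v x ∧ 𝔇.Flat η h v x}.indicator (𝔇.F g) x

theorem measurable_Gd (κ η h : ℝ) {g : ℝ → ℝ≥0∞} (hg : Measurable g) (v : Vec d) :
    Measurable (𝔇.Gd κ η h g v) :=
  (𝔇.measurable_F hg).indicator ((𝔇.measurableSet_Good κ v).inter (𝔇.measurableSet_Flat η h v))

/-- The set where the data are not almost constant. -/
noncomputable def Bd (η h : ℝ) (v : Vec d) (x : Vec d × ℝ) : ℝ≥0∞ :=
  {x | ¬ 𝔇.Flat η h v x}.indicator 1 x

theorem measurable_Bd (η h : ℝ) (v : Vec d) : Measurable (𝔇.Bd η h v) :=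
  measurable_one.indicator (𝔇.measurableSet_Flat η h v).compl

theorem bad_line {ε K : ℝ} (hK : IsK D ε K) {h : ℝ} (hh : 0 < h) (v a : Vec d) (t₀ : ℝ) :
    ∫⁻ t in Icc t₀ (t₀ + 3), 𝔇.Bd ε h v (a + t • v, t) ≤
      ((M * D : ℕ) : ℝ≥0∞) * ENNReal.ofReal (2 * K * h) := by
  classical
  obtain ⟨B, hBc, hB⟩ := 𝔇.line_roots hK v a
  have hsub : {t : ℝ | ¬ 𝔇.Flat ε h v (a + t • v, t)} ⊆ ⋃ r ∈ B, Icc (r - K * h) (r + K * h) := by
    intro t ht
    by_contra hno
    apply ht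
    apply hB t h hh
    intro r hr
    by_contra hlt
    push Not at hlt
    apply hno
    rw [abs_lt] at hlt
    refine mem_iUnion₂.2 ⟨r, hr, ?_, ?_⟩ <;> linarith [hlt.1, hlt.2]
  calc ∫⁻ t in Icc t₀ (t₀ + 3), 𝔇.Bd ε h v (a + t • v, t)
      ≤ ∫⁻ t, 𝔇.Bd ε h v (a + t • v, t) := setLIntegral_le_lintegral _ _
    _ = ∫⁻ t, {t : ℝ | ¬ 𝔇.Flat ε h v (a + t • v, t)}.indicator 1 t := rfl
    _ = volume {t : ℝ | ¬ 𝔇.Flat ε h v (a + t • v, t)} := by
        have hm : MeasurableSet {t : ℝ | ¬ 𝔇.Flat ε h v (a + t • v, t)} := by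
          have h1 : Measurable fun s : ℝ => ((a + s • v, s) : Vec d × ℝ) := by fun_prop
          exact h1 (𝔇.measurableSet_Flat ε h v).compl
        rw [lintegral_indicator_one hm]
    _ ≤ volume (⋃ r ∈ B, Icc (r - K * h) (r + K * h)) := measure_mono hsub
    _ ≤ ∑ r ∈ B, volume (Icc (r - K * h) (r + K * h)) := measure_biUnion_finset_le _ _
    _ = (B.card : ℝ≥0∞) * ENNReal.ofReal (2 * K * h) := by
        simp only [Real.volume_Icc]
        rw [Finset.sum_congr rfl (fun r _ => by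
          rw [show r + K * h - (r - K * h) = 2 * K * h by ring]), Finset.sum_const, nsmul_eq_mul]
    _ ≤ _ := by gcongr

end Dat

end Pool.Agent.D0H14.KP
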