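import Pool.Agent.D0H14.KP.Part

set_option autoImplicit false

/-!
The estimate for the good parts of lines.
-/

open MeasureTheory Set Filter Topology ENNReal NNReal Metric

namespace Pool.Agent.D0H14.KP

open Pool.Agent.H803R2.Kak Pool.Agent.H803R2.KakFTO Pool.Agent.H805R3.Kk Pool.Agent.W770.SA
  Pool.Agent.R250.AC

variable {d : ℕ}

/-- `K` is a constant for the points of non-flatness. -/
def IsK (D : ℕ) (ε K : ℝ) : Prop :=
  1 ≤ K ∧ ∀ p : Polynomial ℝ, p.natDegree ≤ D →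
    ∃ B : Finset ℝ, B.card ≤ D ∧ ∀ t h : ℝ, 0 < h → (∀ r ∈ B, K * h ≤ |t - r|) →
      ∀ s : ℝ, |s - t| ≤ h → |p.eval s - p.eval t| ≤ ε * |p.eval t|

/-- The index of the piece that contains `t`. -/
noncomputable def idx (h t : ℝ) : ℤ := ⌊32 * t / h⌋ - 16

theorem idx_mem {h : ℝ} (hh : 0 < h) (t : ℝ) : t ∈ Dat.pc h ((idx h t : ℝ) * (h / 32)) := by
  have h1 := Int.floor_le (32 * t / h)
  have h2 := Int.lt_floor_add_one (32 * t / h)
  rw [le_div_iff₀ hh] at h1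
  rw [div_lt_iff₀ hh] at h2
  unfold Dat.pc idx
  push_cast
  constructor <;> nlinarith

theorem idx_mono {h : ℝ} (hh : 0 < h) {s t : ℝ} (hst : s ≤ t) : idx h s ≤ idx h t := by
  unfold idx
  have : ⌊32 * s / h⌋ ≤ ⌊32 * t / h⌋ := Int.floor_le_floor (by gcongr)
  omega

theorem idx_card {h : ℝ} (hh : 0 < h) {c ϱ : ℝ} (hϱ : 0 ≤ ϱ) :
    ((Finset.Icc (idx h (c - ϱ)) (idx h (c + ϱ))).card : ℝ) ≤ 64 * ϱ / h + 2 := by
  rw [Int.card_Icc]
  have h0 : idx h (c - ϱ) ≤ idx h (c + ϱ) := idx_mono hh (by linarith)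
  have h1 : (((idx h (c + ϱ) + 1 - idx h (c - ϱ)).toNat : ℕ) : ℝ) =
      ((idx h (c + ϱ) + 1 - idx h (c - ϱ) : ℤ) : ℝ) := by
    have : ((idx h (c + ϱ) + 1 - idx h (c - ϱ)).toNat : ℤ) =
      idx h (c + ϱ) + 1 - idx h (c - ϱ) := Int.toNat_of_nonneg (by omega)
    exact_mod_cast this
  rw [h1]
  unfold idx
  push_cast
  have h2 := Int.floor_le (32 * (c + ϱ) / h)
  have h3 := Int.lt_floor_add_one (32 * (c - ϱ) / h)
  have h4 : 32 * (c + ϱ) / h - 32 * (c - ϱ) / h = 64 * ϱ / h := by ring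
  linarith

namespace Dat

variable {D M : ℕ} (𝔇 : Dat d D M)

theorem line_roots {ε K : ℝ} (hK : IsK D ε K) (v a : Vec d) :
    ∃ B : Finset ℝ, B.card ≤ M * D ∧ ∀ t h : ℝ, 0 < h → (∀ r ∈ B, K * h ≤ |t - r|) →
      𝔇.Flat ε h v (a + t • v, t) := by
  classical
  choose p hpd hp using fun r => (𝔇.hΦ r).2.1 v a
  choose B hBc hB using fun r => hK.2 (p r) (hpd r)
  refine ⟨Finset.univ.biUnion B, ?_, ?_⟩
  · refine Finset.card_biUnion_le.trans ?_
    calc ∑ r : Fin M, (B r).card ≤ ∑ _r : Fin M, D := Finset.sum_le_sum fun r _ => hBc r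
      _ = M * D := by simp
  · intro t h hh hr r s hs
    have h1 := hB r t h hh (fun x hx => hr x (Finset.mem_biUnion.2 ⟨r, Finset.mem_univ _, hx⟩))
      (t + s) (by rwa [add_sub_cancel_left])
    rw [hp, hp] at h1
    have e1 : a + t • v + s • v = a + (t + s) • v := by rw [add_smul]; abel
    simp only [e1]
    exact h1

/-- The bound for the number of pieces of one scale. -/
noncomputable def Np (D M : ℕ) (K : ℝ) : ℕ := 98 + M * D * (⌈128 * K⌉₊ + 2)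

theorem pieces {ε K : ℝ} (hK : IsK D ε K) (v a : Vec d) (t₀ : ℝ) (J : ℕ) :
    ∃ 𝓜 : ℕ → Finset ℤ, (∀ j, (𝓜 j).card ≤ Np D M K) ∧
      ∀ t ∈ Icc t₀ (t₀ + 3), 𝔇.Flat ε ((1 / 2) ^ J) v (a + t • v, t) →
        ∃ j ≤ J, 𝔇.Flat ε ((1 / 2) ^ j) v (a + t • v, t) ∧ idx ((1 / 2) ^ j) t ∈ 𝓜 j := by
  classical
  obtain ⟨B, hBc, hB⟩ := 𝔇.line_roots hK v a
  have hK1 := hK.1
  refine ⟨fun j => if j = 0 then Finset.Icc (idx 1 (t₀ + 3 / 2 - 3 / 2)) (idx 1 (t₀ + 3 / 2 + 3 / 2))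
    else B.biUnion fun r => Finset.Icc (idx ((1 / 2) ^ j) (r - 2 * K * (1 / 2) ^ j))
      (idx ((1 / 2) ^ j) (r + 2 * K * (1 / 2) ^ j)), ?_, ?_⟩
  · intro j
    by_cases hj : j = 0
    · simp only [hj, if_true]
      have h1 := idx_card (h := 1) one_pos (c := t₀ + 3 / 2) (ϱ := 3 / 2) (by norm_num)
      have h2 : ((Finset.Icc (idx 1 (t₀ + 3 / 2 - 3 / 2)) (idx 1 (t₀ + 3 / 2 + 3 / 2))).card : ℝ) ≤
          ((98 : ℕ) : ℝ) := by
        refine h1.trans ?_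
        norm_num
      have h3 : (Finset.Icc (idx 1 (t₀ + 3 / 2 - 3 / 2)) (idx 1 (t₀ + 3 / 2 + 3 / 2))).card ≤ 98 := by
        exact_mod_cast h2
      unfold Np
      omega
    · simp only [hj, if_false]
      refine Finset.card_biUnion_le.trans ?_
      have hpos : (0:ℝ) < (1 / 2) ^ j := by positivity
      have hone : ∀ r ∈ B, (Finset.Icc (idx ((1 / 2) ^ j) (r - 2 * K * (1 / 2) ^ j))
          (idx ((1 / 2) ^ j) (r + 2 * K * (1 / 2) ^ j))).card ≤ ⌈128 * K⌉₊ + 2 := by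
        intro r _
        have h1 := idx_card hpos (c := r) (ϱ := 2 * K * (1 / 2) ^ j) (by positivity)
        have h2 : 64 * (2 * K * (1 / 2) ^ j) / (1 / 2) ^ j = 128 * K := by
          field_simp; norm_num
        rw [h2] at h1
        have h3 := Nat.le_ceil (128 * K)
        have h4 : ((Finset.Icc (idx ((1 / 2) ^ j) (r - 2 * K * (1 / 2) ^ j))
          (idx ((1 / 2) ^ j) (r + 2 * K * (1 / 2) ^ j))).card : ℝ) ≤ ((⌈128 * K⌉₊ + 2 : ℕ) : ℝ) := by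
          push_cast
          linarith
        exact_mod_cast h4
      calc ∑ r ∈ B, _ ≤ ∑ _r ∈ B, (⌈128 * K⌉₊ + 2) := Finset.sum_le_sum hone
        _ = B.card * (⌈128 * K⌉₊ + 2) := by rw [Finset.sum_const, smul_eq_mul]
        _ ≤ M * D * (⌈128 * K⌉₊ + 2) := Nat.mul_le_mul_right _ hBc
        _ ≤ _ := by unfold Np; omega
  · intro t ht hJ
    have hex : ∃ j, 𝔇.Flat ε ((1 / 2) ^ j) v (a + t • v, t) := ⟨J, hJ⟩
    set j := Nat.find hex with hj
    have hfl : 𝔇.Flat ε ((1 / 2) ^ j) v (a + t • v, t) := Nat.find_spec hex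
    have hjJ : j ≤ J := Nat.find_min' hex hJ
    refine ⟨j, hjJ, hfl, ?_⟩
    by_cases hj0 : j = 0
    · simp only [hj0, if_true, pow_zero]
      rw [Finset.mem_Icc]
      exact ⟨idx_mono one_pos (by linarith [ht.1]), idx_mono one_pos (by linarith [ht.2])⟩
    · simp only [hj0, if_false]
      have hlt : j - 1 < j := by omega
      have hno := Nat.find_min hex hlt
      have hpos : (0:ℝ) < (1 / 2) ^ (j - 1) := by positivity
      have h1 : ¬ ∀ r ∈ B, K * (1 / 2) ^ (j - 1) ≤ |t - r| := fun h => hno (hB t _ hpos h)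
      push Not at h1
      obtain ⟨r, hr, hlt⟩ := h1
      have h2 : K * (1 / 2) ^ (j - 1) = 2 * K * (1 / 2) ^ j := by
        have : (1 / 2 : ℝ) ^ j = (1 / 2) ^ (j - 1) * (1 / 2) := by
          rw [← pow_succ]; congr 1; omega
        rw [this]; ring
      rw [h2, abs_lt] at hlt
      have hpos' : (0:ℝ) < (1 / 2) ^ j := by positivity
      rw [Finset.mem_biUnion]
      refine ⟨r, hr, ?_⟩
      rw [Finset.mem_Icc]
      exact ⟨idx_mono hpos' (by linarith [hlt.1]), idx_mono hpos' (by linarith [hlt.2])⟩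

/-- The majorant. -/
noncomputable def Psi (Λ κ R : ℝ) (J : ℕ) (g : ℝ → ℝ≥0∞) (p : ℝ) (v : Vec d) : ℝ≥0∞ :=
  ∑ j ∈ Finset.range (J + 1), ∑' c : ℤ × ℤ × ℤ,
    (𝔇.Om Λ κ R ((1 / 2) ^ j) ((c.1 : ℝ) * ((1 / 2) ^ j / 32)) c.2.1 c.2.2).indicator
      (fun _ => Mc g ((1 / 2) ^ j) c.2.1 c.2.2 ^ p) v

theorem measurable_Psi (Λ κ R : ℝ) (J : ℕ) (g : ℝ → ℝ≥0∞) (p : ℝ) :
    Measurable (𝔇.Psi Λ κ R J g p) := by
  unfold Psi
  apply Finset.measurable_sum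
  intro j _
  apply Measurable.ennreal_tsum
  intro c
  exact measurable_const.indicator (𝔇.measurableSet_Om _ _ _ _ _ _ _)

theorem le_Psi {Λ κ R : ℝ} {J : ℕ} {g : ℝ → ℝ≥0∞} {p : ℝ} {v : Vec d} {j : ℕ} (hj : j ≤ J)
    {m i w : ℤ} (hv : v ∈ 𝔇.Om Λ κ R ((1 / 2) ^ j) ((m : ℝ) * ((1 / 2) ^ j / 32)) i w) :
    Mc g ((1 / 2) ^ j) i w ^ p ≤ 𝔇.Psi Λ κ R J g p v := by
  unfold Psi
  refine le_trans ?_ (Finset.single_le_sum (f := fun j => ∑' c : ℤ × ℤ × ℤ,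
    (𝔇.Om Λ κ R ((1 / 2) ^ j) ((c.1 : ℝ) * ((1 / 2) ^ j / 32)) c.2.1 c.2.2).indicator
      (fun _ => Mc g ((1 / 2) ^ j) c.2.1 c.2.2 ^ p) v) (fun _ _ => zero_le)
    (Finset.mem_range.2 (Nat.lt_succ_of_le hj)))
  refine le_trans ?_ (ENNReal.le_tsum (m, i, w))
  simp only
  rw [indicator_of_mem hv]

theorem line_le {Λ : ℝ} (hD : 1 ≤ D) (hΛ : IsLam D Λ) {K : ℝ} (hK : IsK D (1 / (64 * Λ)) K) {κ : ℝ}
    (hκ : 0 < κ) {R : ℝ} {p : ℝ} (hp : 1 < p) {g : ℝ → ℝ≥0∞} (hg : Measurable g) (J : ℕ)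
    {v : Vec d} (hv : ‖v‖ ≤ R) (a : Vec d) (t₀ : ℝ) :
    ∫⁻ t in Icc t₀ (t₀ + 3), {t : ℝ | 𝔇.Good κ v (a + t • v, t) ∧
        𝔇.Flat (1 / (64 * Λ)) ((1 / 2) ^ J) v (a + t • v, t)}.indicator
          (fun t => 𝔇.F g (a + t • v, t)) t ≤
      ((J + 1 : ℕ) : ℝ≥0∞) * (Np D M K : ℝ≥0∞) * (ENNReal.ofReal (5 / 2) *
        𝔇.Psi Λ κ R J g p v ^ (1 / p)) := by
  classical
  have hp0 : 0 < p := by linarith
  set η : ℝ := 1 / (64 * Λ) with hη
  obtain ⟨𝓜, h𝓜c, h𝓜⟩ := 𝔇.pieces hK v a t₀ J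
  set Ψ := 𝔇.Psi Λ κ R J g p v with hΨ
  set used : ℕ → ℤ → Prop := fun j m => ∃ t ∈ pc ((1 / 2) ^ j) ((m : ℝ) * ((1 / 2) ^ j / 32)),
    𝔇.Good κ v (a + t • v, t) ∧ 𝔇.Flat η ((1 / 2) ^ j) v (a + t • v, t) with hused
  set f : ℝ → ℝ≥0∞ := fun t => 𝔇.F g (a + t • v, t) with hf
  have hfm : Measurable f := by
    have : Measurable fun s : ℝ => ((a + s • v, s) : Vec d × ℝ) := by fun_prop
    exact (𝔇.measurable_F hg).comp this
  -- one piece
  have hone : ∀ j ≤ J, ∀ m : ℤ, used j m →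
      ∫⁻ t in pc ((1 / 2) ^ j) ((m : ℝ) * ((1 / 2) ^ j / 32)), f t ≤
        ENNReal.ofReal (5 / 2) * Ψ ^ (1 / p) := by
    rintro j hj m ⟨t, ht, hgood, hflat⟩
    have hpos : (0:ℝ) < (1 / 2) ^ j := by positivity
    obtain ⟨i, w, hc1, hc2, hint⟩ := 𝔇.piece hD hΛ hκ hpos ht hgood hflat g
    have hb : ∀ w' : ℤ, 𝔇.Cls Λ κ ((1 / 2) ^ j) ((m : ℝ) * ((1 / 2) ^ j / 32)) i w' v a →
        Mc g ((1 / 2) ^ j) i w' ≤ Ψ ^ (1 / p) := by
      intro w' hc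
      have h1 : v ∈ 𝔇.Om Λ κ R ((1 / 2) ^ j) ((m : ℝ) * ((1 / 2) ^ j / 32)) i w' :=
        ⟨by simpa using hv, a, hc⟩
      have h2 := 𝔇.le_Psi (g := g) (p := p) hj h1
      calc Mc g ((1 / 2) ^ j) i w' = (Mc g ((1 / 2) ^ j) i w' ^ p) ^ (1 / p) := by
            rw [← ENNReal.rpow_mul, mul_one_div_cancel hp0.ne', ENNReal.rpow_one]
        _ ≤ _ := ENNReal.rpow_le_rpow h2 (by positivity)
    refine hint.trans ?_
    calc ENNReal.ofReal (5 / 4) * (Mc g ((1 / 2) ^ j) i w + Mc g ((1 / 2) ^ j) i (w + 1))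
        ≤ ENNReal.ofReal (5 / 4) * (Ψ ^ (1 / p) + Ψ ^ (1 / p)) := by
          gcongr
          · exact hb _ hc1
          · exact hb _ hc2
      _ = ENNReal.ofReal (5 / 2) * Ψ ^ (1 / p) := by
          rw [← two_mul, ← mul_assoc, ← ENNReal.ofReal_ofNat 2, ← ENNReal.ofReal_mul (by norm_num)]
          norm_num
  -- pointwise
  set S : ℕ → ℤ → Set ℝ := fun j m => if used j m then
    pc ((1 / 2) ^ j) ((m : ℝ) * ((1 / 2) ^ j / 32)) else ∅ with hS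
  have hSm : ∀ j m, MeasurableSet (S j m) := by
    intro j m
    simp only [hS]
    split_ifs
    · exact measurableSet_Ico
    · exact MeasurableSet.empty
  have hpt : ∀ t ∈ Icc t₀ (t₀ + 3), {t : ℝ | 𝔇.Good κ v (a + t • v, t) ∧
        𝔇.Flat η ((1 / 2) ^ J) v (a + t • v, t)}.indicator f t ≤
      ∑ j ∈ Finset.range (J + 1), ∑ m ∈ 𝓜 j, (S j m).indicator f t := by
    intro t ht
    by_cases hmem : 𝔇.Good κ v (a + t • v, t) ∧ 𝔇.Flat η ((1 / 2) ^ J) v (a + t • v, t)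
    swap
    · rw [indicator_of_notMem (by exact hmem)]; exact zero_le
    rw [indicator_of_mem (by exact hmem)]
    obtain ⟨j, hj, hfl, hidx⟩ := h𝓜 t ht hmem.2
    have hpos : (0:ℝ) < (1 / 2) ^ j := by positivity
    have htm := idx_mem hpos t
    have hu : used j (idx ((1 / 2) ^ j) t) := ⟨t, htm, hmem.1, hfl⟩
    have htS : t ∈ S j (idx ((1 / 2) ^ j) t) := by
      simp only [hS, hu, if_true]; exact htm
    calc f t = (S j (idx ((1 / 2) ^ j) t)).indicator f t := (indicator_of_mem htS _).symm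
      _ ≤ ∑ m ∈ 𝓜 j, (S j m).indicator f t :=
          Finset.single_le_sum (f := fun m => (S j m).indicator f t) (fun _ _ => zero_le) hidx
      _ ≤ _ := Finset.single_le_sum (f := fun j => ∑ m ∈ 𝓜 j, (S j m).indicator f t)
          (fun _ _ => zero_le) (Finset.mem_range.2 (Nat.lt_succ_of_le hj))
  calc ∫⁻ t in Icc t₀ (t₀ + 3), {t : ℝ | 𝔇.Good κ v (a + t • v, t) ∧
        𝔇.Flat η ((1 / 2) ^ J) v (a + t • v, t)}.indicator f t
      ≤ ∫⁻ t in Icc t₀ (t₀ + 3), ∑ j ∈ Finset.range (J + 1), ∑ m ∈ 𝓜 j, (S j m).indicator f t :=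
        setLIntegral_mono' measurableSet_Icc hpt
    _ ≤ ∫⁻ t, ∑ j ∈ Finset.range (J + 1), ∑ m ∈ 𝓜 j, (S j m).indicator f t :=
        setLIntegral_le_lintegral _ _
    _ = ∑ j ∈ Finset.range (J + 1), ∑ m ∈ 𝓜 j, ∫⁻ t in S j m, f t := by
        rw [lintegral_finsetSum _ (fun j _ => Finset.measurable_sum _ fun m _ =>
          hfm.indicator (hSm j m))]
        apply Finset.sum_congr rfl
        intro j _
        rw [lintegral_finsetSum _ (fun m _ => hfm.indicator (hSm j m))]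
        apply Finset.sum_congr rfl
        intro m _
        rw [lintegral_indicator (hSm j m)]
    _ ≤ ∑ j ∈ Finset.range (J + 1), ∑ _m ∈ 𝓜 j, ENNReal.ofReal (5 / 2) * Ψ ^ (1 / p) := by
        apply Finset.sum_le_sum
        intro j hj
        apply Finset.sum_le_sum
        intro m _
        by_cases hu : used j m
        · simp only [hS, hu, if_true]
          exact hone j (Nat.lt_succ_iff.1 (Finset.mem_range.1 hj)) m hu
        · simp only [hS, hu, if_false, Measure.restrict_empty, lintegral_zero_measure]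
          exact zero_le
    _ ≤ ∑ j ∈ Finset.range (J + 1), (Np D M K : ℝ≥0∞) * (ENNReal.ofReal (5 / 2) * Ψ ^ (1 / p)) := by
        apply Finset.sum_le_sum
        intro j _
        rw [Finset.sum_const, nsmul_eq_mul]
        gcongr
        exact h𝓜c j
    _ = _ := by
        rw [Finset.sum_const, nsmul_eq_mul, Finset.card_range, mul_assoc]

end Dat

end Pool.Agent.D0H14.KP
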