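import Pool.Agent.D0H14.KP.StepA

set_option autoImplicit false

/-!
The integral of the majorant.
-/

open MeasureTheory Set Filter Topology ENNReal NNReal Metric

namespace Pool.Agent.D0H14.KP

open Pool.Agent.H803R2.Kak Pool.Agent.H803R2.KakFTO Pool.Agent.H805R3.Kk Pool.Agent.W770.SA
  Pool.Agent.R250.AC

variable {d : ℕ}

namespace Dat

variable {D M : ℕ} (𝔇 : Dat d D M)

theorem int_lt_of_Sc {R κ h : ℝ} (hκ : 0 < κ) {nI : ℕ} (hI : 100 * (1 + R ^ 2) < κ * 4 ^ nI)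
    {x : Vec d × ℝ} {t t' : ℝ} {i w i' w' : ℤ} (hx : x ∈ 𝔇.Sc R κ h t i w)
    (hx' : x ∈ 𝔇.Sc R κ h t' i' w') : i < i' + nI := by
  have h1 := hx.2.2.1
  have h2 := hx'.2.2.2
  have h4 : (0:ℝ) < 4 ^ i' := by positivity
  have h5 : κ * (4:ℝ) ^ i < κ * (4:ℝ) ^ (i' + nI) := by
    rw [zpow_add₀ (by norm_num), zpow_natCast]
    have h6 : κ * (4 / 25 * 4 ^ i) ≤ (1 + R ^ 2) * (16 * 4 ^ i') := by
      calc κ * (4 / 25 * 4 ^ i) ≤ κ * ((1 + R ^ 2) * 𝔇.om x) := by gcongr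
        _ = (1 + R ^ 2) * (κ * 𝔇.om x) := by ring
        _ ≤ _ := by gcongr
    have h7 : κ * (4:ℝ) ^ i ≤ 100 * (1 + R ^ 2) * 4 ^ i' := by linarith
    calc κ * (4:ℝ) ^ i ≤ 100 * (1 + R ^ 2) * 4 ^ i' := h7
      _ < κ * 4 ^ nI * 4 ^ i' := by gcongr
      _ = _ := by ring
  have h6 : (4:ℝ) ^ i < (4:ℝ) ^ (i' + nI) := lt_of_mul_lt_mul_left h5 hκ.le
  exact (zpow_lt_zpow_iff_right₀ (by norm_num : (1:ℝ) < 4)).1 h6

theorem count {R κ h : ℝ} (hκ : 0 < κ) (hh : 0 < h) {nI : ℕ} (hI : 100 * (1 + R ^ 2) < κ * 4 ^ nI)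
    (f : Vec d × ℝ → ℝ≥0∞) (x : Vec d × ℝ) :
    ∑' c : ℤ × ℤ × ℤ, (𝔇.Sc R κ h ((c.1 : ℝ) * (h / 32)) c.2.1 c.2.2).indicator f x ≤
      ((66 * nI : ℕ) : ℝ≥0∞) * f x := by
  classical
  by_cases hex : ∃ c : ℤ × ℤ × ℤ, x ∈ 𝔇.Sc R κ h ((c.1 : ℝ) * (h / 32)) c.2.1 c.2.2
  swap
  · push Not at hex
    have : ∀ c : ℤ × ℤ × ℤ, (𝔇.Sc R κ h ((c.1 : ℝ) * (h / 32)) c.2.1 c.2.2).indicator f x = 0 :=
      fun c => indicator_of_notMem (hex c) _
    simp [this]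
  obtain ⟨⟨m', i', w'⟩, hx'⟩ := hex
  simp only at hx'
  set X : ℝ := x.2 * 32 / h with hX
  set T : Finset (ℤ × ℤ × ℤ) := ((Finset.Icc (⌈X⌉ - 32) ⌊X⌋) ×ˢ
    (Finset.Ioo (i' - nI) (i' + nI))).image (fun c => (c.1, c.2, ⌊𝔇.u x / (h * 2 ^ c.2 / 8)⌋))
    with hT
  have hzero : ∀ c ∉ T, (𝔇.Sc R κ h ((c.1 : ℝ) * (h / 32)) c.2.1 c.2.2).indicator f x = 0 := by
    rintro ⟨m, i, w⟩ hc
    apply indicator_of_notMem
    intro hx
    apply hc
    simp only at hx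
    rw [hT, Finset.mem_image]
    refine ⟨(m, i), ?_, ?_⟩
    · rw [Finset.mem_product, Finset.mem_Icc, Finset.mem_Ioo]
      have h1 := hx.1.1
      have h2 := hx.1.2
      refine ⟨⟨?_, ?_⟩, ?_, ?_⟩
      · have : X ≤ m + 32 := by
          rw [hX, div_le_iff₀ hh]; nlinarith
        have h3 : ⌈X⌉ ≤ m + 32 := Int.ceil_le.2 (by push_cast; exact this)
        simp only
        omega
      · apply Int.le_floor.2
        rw [hX, le_div_iff₀ hh]; nlinarith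
      · have := 𝔇.int_lt_of_Sc hκ hI hx' hx
        simp only
        omega
      · exact 𝔇.int_lt_of_Sc hκ hI hx hx'
    · simp only [Prod.mk.injEq, true_and]
      have hρ : 0 < h * 2 ^ i / 8 := by positivity
      have h1 := hx.2.1.1
      have h2 := hx.2.1.2
      rw [Int.floor_eq_iff]
      exact ⟨by rw [le_div_iff₀ hρ]; exact h1, by rw [div_lt_iff₀ hρ]; exact h2⟩
  rw [tsum_eq_sum hzero]
  have hcard : T.card ≤ 66 * nI := by
    refine Finset.card_image_le.trans ?_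
    rw [Finset.card_product, Int.card_Icc, Int.card_Ioo]
    have h1 : (⌊X⌋ + 1 - (⌈X⌉ - 32)).toNat ≤ 33 := by
      have : ⌊X⌋ ≤ ⌈X⌉ := Int.floor_le_ceil X
      omega
    have h2 : (i' + (nI:ℤ) - (i' - nI) - 1).toNat ≤ 2 * nI := by omega
    calc _ ≤ 33 * (2 * nI) := Nat.mul_le_mul h1 h2
      _ = _ := by ring
  calc ∑ c ∈ T, (𝔇.Sc R κ h ((c.1 : ℝ) * (h / 32)) c.2.1 c.2.2).indicator f x
      ≤ ∑ _c ∈ T, f x := Finset.sum_le_sum fun c _ => indicator_le_self _ _ _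
    _ = (T.card : ℝ≥0∞) * f x := by rw [Finset.sum_const, nsmul_eq_mul]
    _ ≤ _ := by gcongr

theorem lintegral_Psi (hd : 1 ≤ d) {Λ : ℝ} (hΛ : IsLam D Λ) {κ : ℝ} (hκ : 0 < κ) {R : ℝ}
    {nI : ℕ} (hI : 100 * (1 + R ^ 2) < κ * 4 ^ nI) {p : ℝ} (hp : 1 < p) {g : ℝ → ℝ≥0∞}
    (hg : Measurable g) (J : ℕ) :
    ∫⁻ v, 𝔇.Psi Λ κ R J g p v ≤ ((J + 1 : ℕ) : ℝ≥0∞) * (ENNReal.ofReal (5 / 2) ^ p *
      (Ap d p * (bez d (2 + EE D M) * (((66 * nI : ℕ) : ℝ≥0∞) * ∫⁻ q, 𝔇.F g q ^ p)))) := by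
  have hp0 : 0 < p := by linarith
  have hFp : Measurable (fun q => 𝔇.F g q ^ p) := (𝔇.measurable_F hg).pow_const _
  unfold Psi
  have hm : ∀ (j : ℕ) (c : ℤ × ℤ × ℤ), Measurable
      ((𝔇.Om Λ κ R ((1 / 2) ^ j) ((c.1 : ℝ) * ((1 / 2) ^ j / 32)) c.2.1 c.2.2).indicator
      (fun _ => Mc g ((1 / 2) ^ j) c.2.1 c.2.2 ^ p)) := fun j c =>
    measurable_const.indicator (𝔇.measurableSet_Om _ _ _ _ _ _ _)
  rw [lintegral_finsetSum _ (fun j _ => Measurable.ennreal_tsum (hm j))]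
  calc ∑ j ∈ Finset.range (J + 1), ∫⁻ v, ∑' c : ℤ × ℤ × ℤ,
          (𝔇.Om Λ κ R ((1 / 2) ^ j) ((c.1 : ℝ) * ((1 / 2) ^ j / 32)) c.2.1 c.2.2).indicator
          (fun _ => Mc g ((1 / 2) ^ j) c.2.1 c.2.2 ^ p) v
      ≤ ∑ _j ∈ Finset.range (J + 1), (ENNReal.ofReal (5 / 2) ^ p *
          (Ap d p * (bez d (2 + EE D M) * (((66 * nI : ℕ) : ℝ≥0∞) * ∫⁻ q, 𝔇.F g q ^ p)))) := by
        apply Finset.sum_le_sum
        intro j _
        have hpos : (0:ℝ) < (1 / 2) ^ j := by positivity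
        have hle1 : ((1:ℝ) / 2) ^ j ≤ 1 := pow_le_one₀ (by norm_num) (by norm_num)
        set h : ℝ := (1 / 2) ^ j with hh
        rw [lintegral_tsum (fun c => (hm j c).aemeasurable)]
        calc ∑' c : ℤ × ℤ × ℤ, ∫⁻ v, (𝔇.Om Λ κ R h ((c.1 : ℝ) * (h / 32)) c.2.1 c.2.2).indicator
              (fun _ => Mc g h c.2.1 c.2.2 ^ p) v
            ≤ ∑' c : ℤ × ℤ × ℤ, ENNReal.ofReal (5 / 2) ^ p * (Ap d p * (bez d (2 + EE D M) *
              ∫⁻ q, (𝔇.Sc R κ h ((c.1 : ℝ) * (h / 32)) c.2.1 c.2.2).indicator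
                (fun q => 𝔇.F g q ^ p) q)) := by
              apply ENNReal.tsum_le_tsum
              intro c
              rw [lintegral_indicator_const (𝔇.measurableSet_Om _ _ _ _ _ _ _)]
              have h1 := 𝔇.cls_volume hd hΛ hκ hpos hle1 (R := R) hg hp ((c.1 : ℝ) * (h / 32)) c.2.1 c.2.2
              calc Mc g h c.2.1 c.2.2 ^ p * volume (𝔇.Om Λ κ R h ((c.1 : ℝ) * (h / 32)) c.2.1 c.2.2)
                  = ENNReal.ofReal (5 / 2) ^ p * ((ENNReal.ofReal (2 / 5) * Mc g h c.2.1 c.2.2) ^ p *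
                    volume (𝔇.Om Λ κ R h ((c.1 : ℝ) * (h / 32)) c.2.1 c.2.2)) := by
                    rw [← mul_assoc, ← ENNReal.mul_rpow_of_nonneg _ _ hp0.le, ← mul_assoc,
                      ← ENNReal.ofReal_mul (by norm_num)]
                    norm_num
                _ ≤ _ := by gcongr
          _ = ENNReal.ofReal (5 / 2) ^ p * (Ap d p * (bez d (2 + EE D M) *
              ∫⁻ q, ∑' c : ℤ × ℤ × ℤ, (𝔇.Sc R κ h ((c.1 : ℝ) * (h / 32)) c.2.1 c.2.2).indicator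
                (fun q => 𝔇.F g q ^ p) q)) := by
              rw [ENNReal.tsum_mul_left, ENNReal.tsum_mul_left, ENNReal.tsum_mul_left,
                lintegral_tsum (fun c =>
                  (hFp.indicator (𝔇.measurableSet_Sc _ _ _ _ _ _)).aemeasurable)]
          _ ≤ _ := by
              gcongr
              rw [← lintegral_const_mul _ hFp]
              apply lintegral_mono
              intro x
              exact 𝔇.count hκ hpos hI _ x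
    _ = _ := by
        rw [Finset.sum_const, nsmul_eq_mul, Finset.card_range]

end Dat

end Pool.Agent.D0H14.KP
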