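import Pool.Agent.D0H14.KP.TubeG
import Pool.Agent.D0H14.KP.Const

set_option autoImplicit false

/-!
The pointwise bound of the maximal function.
-/

open MeasureTheory Set Filter Topology ENNReal NNReal Metric

namespace Pool.Agent.D0H14.KP

open Pool.Agent.H803R2.Kak Pool.Agent.H803R2.KakFTO

variable {d : ℕ}

/-- The maximal function of a nonnegative function. -/
noncomputable def KM {n : ℕ} (δ : ℝ) (F : EuclideanSpace ℝ (Fin n) → ℝ≥0∞)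
    (e : EuclideanSpace ℝ (Fin n)) : ℝ≥0∞ :=
  ⨆ a : EuclideanSpace ℝ (Fin n), (volume (tube δ e a))⁻¹ * ∫⁻ y in tube δ e a, F y

/-- Lower bound of the volume of tubes. -/
def IsVol (d : ℕ) (c : ℝ) : Prop :=
  0 < c ∧ ∀ (δ : ℝ) (e a : EuclideanSpace ℝ (Fin (d + 1))), 0 < δ → ‖e‖ = 1 →
    ENNReal.ofReal (c * δ ^ d) ≤ volume (tube δ e a)

/-- The constant of the geometric step. -/
noncomputable def C₁ (d : ℕ) (c R₀ : ℝ) : ℝ :=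
  c⁻¹ * ((R₀ + 5 / 2) ^ d * (volume (ball (0 : Vec d) 1)).toReal)

section

variable (i₀ : Fin (d + 1)) (P Q : MvPolynomial (Fin (d + 1)) ℝ) {q : ℕ}
    (T : Fin q → MvPolynomial (Fin (d + 1)) ℝ) {k : ℕ} (hP : P.totalDegree ≤ k)
    (hP' : (-P).totalDegree ≤ k) (hQ : Q.totalDegree ≤ k) (hT : ∀ j, (T j).totalDegree ≤ k)

theorem KM_le (hW : ∀ᵐ x : Vec d × ℝ, 0 < WW i₀ P Q x) {Λ : ℝ} (hΛ : IsLam (4 * k + 1) Λ) {K : ℝ}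
    (hK : IsK (4 * k + 1) (1 / (64 * Λ)) K) {c : ℝ} (hc : IsVol d c) {δ : ℝ} (hδ : 0 < δ)
    (hδ1 : δ ≤ 1) {R₀ : ℝ} (hR₀ : 0 < R₀)
    {p : ℝ} (hp : 1 < p) {g : ℝ → ℝ≥0∞} (hg : Measurable g)
    {A : ℝ} (hA : 0 < A) (hτ : ∀ y, g y ≤ ENNReal.ofReal (A / δ)) {J : ℕ} (hJ : (1 / 2 : ℝ) ^ J ≤ δ)
    {e : EuclideanSpace ℝ (Fin (d + 1))} (he : ‖e‖ = 1) (hei : 1 / R₀ ≤ |e i₀|) :
    KM δ (fun x => (mk i₀ P Q T hP hQ hT).F g (prj i₀ x)) e ≤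
      ENNReal.ofReal (C₁ d c R₀) * ∑ o : Option (Fin d),
        (Bl (mk i₀ P Q T hP hQ hT) Λ K (c0 d R₀ * δ ^ 2) (R₀ + 1) J g p (wd δ (vl i₀ e) o) +
          Bl (mk i₀ (-P) Q T hP' hQ hT) Λ K (c0 d R₀ * δ ^ 2) (R₀ + 1) J (fun y => g (-y)) p
            (wd δ (vl i₀ e) o) +
          ENNReal.ofReal (((q + 1 + 1 + 1) * (4 * k + 1) : ℕ) * (2 * K) * A)) := by
  set 𝔇 := mk i₀ P Q T hP hQ hT with h𝔇
  have hK1 := hK.1
  have hvR := norm_vl_le i₀ he hR₀ hei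
  have he0 : e i₀ ≠ 0 := by
    intro h0
    rw [h0, abs_zero] at hei
    have : 0 < 1 / R₀ := by positivity
    linarith
  have hFm : Measurable (𝔇.F g) := 𝔇.measurable_F hg
  unfold KM
  apply iSup_le
  intro a
  have hcb := cyl_bound i₀ P Q T hP hP' hQ hT hW hΛ hK hδ hδ1 hvR hp hg ENNReal.ofReal_ne_top hτ J
    (prj i₀ a) ((1 + R₀) * δ)
  have h1 : (volume (tube δ e a))⁻¹ ≤ ENNReal.ofReal ((c * δ ^ d)⁻¹) := by
    rw [ENNReal.ofReal_inv_of_pos (by have := hc.1; positivity)]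
    exact ENNReal.inv_le_inv.2 (hc.2 δ e a hδ he)
  have h2 : ∫⁻ y in tube δ e a, 𝔇.F g (prj i₀ y) ≤
      ∫⁻ x in cyl (vl i₀ e) (prj i₀ a) ((1 + R₀) * δ), 𝔇.F g x := by
    rw [← (prj_preserving i₀).setLIntegral_comp_preimage (measurableSet_cyl _ _ _) hFm]
    exact lintegral_mono_set (tube_sub i₀ hδ1 he he0 hvR a)
  have h3 : volume (closedBall (0 : Vec d) ((1 + R₀) * δ + 3 / 2 * δ)) =
      ENNReal.ofReal (((R₀ + 5 / 2) ^ d * (volume (ball (0 : Vec d) 1)).toReal) * δ ^ d) := by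
    rw [Measure.addHaar_closedBall _ _ (by positivity), finrank_euclideanSpace_fin]
    have e1 : (1 + R₀) * δ + 3 / 2 * δ = (R₀ + 5 / 2) * δ := by ring
    rw [e1, mul_pow]
    have e2 : volume (ball (0 : Vec d) 1) = ENNReal.ofReal (volume (ball (0 : Vec d) 1)).toReal :=
      (ENNReal.ofReal_toReal measure_ball_lt_top.ne).symm
    conv_lhs => rw [e2]
    rw [← ENNReal.ofReal_mul (by positivity)]
    congr 1; ring
  set S := ∑ o : Option (Fin d),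
        (Bl 𝔇 Λ K (c0 d R₀ * δ ^ 2) (R₀ + 1) J g p (wd δ (vl i₀ e) o) +
          Bl (mk i₀ (-P) Q T hP' hQ hT) Λ K (c0 d R₀ * δ ^ 2) (R₀ + 1) J (fun y => g (-y)) p
            (wd δ (vl i₀ e) o) +
          ENNReal.ofReal (A / δ) * ((((q + 1 + 1 + 1) * (4 * k + 1) : ℕ) : ℝ≥0∞) *
            ENNReal.ofReal (2 * K * (1 / 2) ^ J))) with hS
  have h4 : S ≤ ∑ o : Option (Fin d),
        (Bl 𝔇 Λ K (c0 d R₀ * δ ^ 2) (R₀ + 1) J g p (wd δ (vl i₀ e) o) +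
          Bl (mk i₀ (-P) Q T hP' hQ hT) Λ K (c0 d R₀ * δ ^ 2) (R₀ + 1) J (fun y => g (-y)) p
            (wd δ (vl i₀ e) o) +
          ENNReal.ofReal (((q + 1 + 1 + 1) * (4 * k + 1) : ℕ) * (2 * K) * A)) := by
    apply Finset.sum_le_sum
    intro o _
    refine add_le_add le_rfl ?_
    rw [← ENNReal.ofReal_natCast, ← ENNReal.ofReal_mul (by positivity),
      ← ENNReal.ofReal_mul (by positivity)]
    apply ENNReal.ofReal_le_ofReal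
    calc A / δ * ((((q + 1 + 1 + 1) * (4 * k + 1) : ℕ) : ℝ) * (2 * K * (1 / 2) ^ J))
        ≤ A / δ * ((((q + 1 + 1 + 1) * (4 * k + 1) : ℕ) : ℝ) * (2 * K * δ)) := by gcongr
      _ = _ := by field_simp
  calc (volume (tube δ e a))⁻¹ * ∫⁻ y in tube δ e a, 𝔇.F g (prj i₀ y)
      ≤ ENNReal.ofReal ((c * δ ^ d)⁻¹) *
        (volume (closedBall (0 : Vec d) ((1 + R₀) * δ + 3 / 2 * δ)) * S) :=
        mul_le_mul' h1 (h2.trans hcb)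
    _ = ENNReal.ofReal (C₁ d c R₀) * S := by
        rw [h3, ← mul_assoc, ← ENNReal.ofReal_mul (by have := hc.1; positivity)]
        congr 2
        unfold C₁
        have := hc.1
        field_simp
    _ ≤ _ := by gcongr

/-- The constant of the pointwise bound. -/
noncomputable def UU (d k q : ℕ) (c R₀ K : ℝ) : ℝ :=
  1 + C₁ d c R₀ * ((d + 1) * 3 * (Dat.Np (4 * k + 1) (q + 1 + 1 + 1) K * (5 / 2) +
    ((q + 1 + 1 + 1) * (4 * k + 1) : ℕ) * (2 * K)))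

/-- The majorant of the `p`-th power of the maximal function. -/
noncomputable def HH (Λ κ R A δ U : ℝ) (J : ℕ) (g : ℝ → ℝ≥0∞) (p : ℝ) (v : Vec d) : ℝ≥0∞ :=
  ENNReal.ofReal U ^ p * ∑ o : Option (Fin d),
    (((J + 1 : ℕ) : ℝ≥0∞) ^ p * ((mk i₀ P Q T hP hQ hT).Psi Λ κ R J g p (wd δ v o) +
      (mk i₀ (-P) Q T hP' hQ hT).Psi Λ κ R J (fun y => g (-y)) p (wd δ v o)) +
      ENNReal.ofReal A ^ p)

theorem Bl_rpow {D M : ℕ} (𝔇 : Dat d D M) (Λ K κ R : ℝ) (J : ℕ) (g : ℝ → ℝ≥0∞) {p : ℝ}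
    (hp : 0 < p) (w : Vec d) : Bl 𝔇 Λ K κ R J g p w ^ p =
      (((J + 1 : ℕ) : ℝ≥0∞) ^ p * (ENNReal.ofReal (Dat.Np D M K * (5 / 2)) ^ p)) *
        𝔇.Psi Λ κ R J g p w := by
  unfold Bl
  have e : ((J + 1 : ℕ) : ℝ≥0∞) * (Dat.Np D M K : ℝ≥0∞) * (ENNReal.ofReal (5 / 2) *
      𝔇.Psi Λ κ R J g p w ^ (1 / p)) = (((J + 1 : ℕ) : ℝ≥0∞) *
      ENNReal.ofReal (Dat.Np D M K * (5 / 2))) * 𝔇.Psi Λ κ R J g p w ^ (1 / p) := by
    rw [ENNReal.ofReal_mul (Nat.cast_nonneg _), ENNReal.ofReal_natCast]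
    ring
  rw [e, ENNReal.mul_rpow_of_nonneg _ _ hp.le, ENNReal.mul_rpow_of_nonneg _ _ hp.le,
    ← ENNReal.rpow_mul, one_div_mul_cancel hp.ne', ENNReal.rpow_one]

theorem KM_rpow_le (hW : ∀ᵐ x : Vec d × ℝ, 0 < WW i₀ P Q x) {Λ : ℝ} (hΛ : IsLam (4 * k + 1) Λ)
    {K : ℝ}
    (hK : IsK (4 * k + 1) (1 / (64 * Λ)) K) {c : ℝ} (hc : IsVol d c) {δ : ℝ} (hδ : 0 < δ)
    (hδ1 : δ ≤ 1) {R₀ : ℝ} (hR₀ : 0 < R₀)
    {p : ℝ} (hp : 1 < p) {g : ℝ → ℝ≥0∞} (hg : Measurable g)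
    {A : ℝ} (hA : 0 < A) (hτ : ∀ y, g y ≤ ENNReal.ofReal (A / δ)) {J : ℕ} (hJ : (1 / 2 : ℝ) ^ J ≤ δ)
    {e : EuclideanSpace ℝ (Fin (d + 1))} (he : ‖e‖ = 1) (hei : 1 / R₀ ≤ |e i₀|) :
    KM δ (fun x => (mk i₀ P Q T hP hQ hT).F g (prj i₀ x)) e ^ p ≤
      HH i₀ P Q T hP hP' hQ hT Λ (c0 d R₀ * δ ^ 2) (R₀ + 1) A δ (UU d k q c R₀ K) J g p
        (vl i₀ e) := by
  have hp0 : 0 < p := by linarith
  have hK1 := hK.1
  have hc0 := hc.1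
  have hC1 : 0 ≤ C₁ d c R₀ := by unfold C₁; positivity
  have h1 := KM_le i₀ P Q T hP hP' hQ hT hW hΛ hK hc hδ hδ1 hR₀ hp hg hA hτ hJ he hei
  set 𝔇 := mk i₀ P Q T hP hQ hT with h𝔇
  set 𝔇' := mk i₀ (-P) Q T hP' hQ hT with h𝔇'
  set κ := c0 d R₀ * δ ^ 2 with hκ
  set C₂ : ℝ := ((q + 1 + 1 + 1) * (4 * k + 1) : ℕ) * (2 * K) with hC₂
  set N₀ : ℝ := ((Dat.Np (4 * k + 1) (q + 1 + 1 + 1) K : ℕ) : ℝ) with hN₀
  have hN0 : 0 ≤ N₀ := Nat.cast_nonneg _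
  have hC2 : 0 ≤ C₂ := by positivity
  set U := UU d k q c R₀ K with hU
  have hUdef : U = 1 + C₁ d c R₀ * ((d + 1) * 3 * (N₀ * (5 / 2) + C₂)) := rfl
  set v := vl i₀ e with hv
  have hone : ∀ o : Option (Fin d), (Bl 𝔇 Λ K κ (R₀ + 1) J g p (wd δ v o) +
      Bl 𝔇' Λ K κ (R₀ + 1) J (fun y => g (-y)) p (wd δ v o) + ENNReal.ofReal (C₂ * A)) ^ p ≤
      ENNReal.ofReal (3 * (N₀ * (5 / 2) + C₂)) ^ p *
        (((J + 1 : ℕ) : ℝ≥0∞) ^ p * (𝔇.Psi Λ κ (R₀ + 1) J g p (wd δ v o) +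
      𝔇'.Psi Λ κ (R₀ + 1) J (fun y => g (-y)) p (wd δ v o)) + ENNReal.ofReal A ^ p) := by
    intro o
    have h3 := rpow_sum_le hp.le ![Bl 𝔇 Λ K κ (R₀ + 1) J g p (wd δ v o),
      Bl 𝔇' Λ K κ (R₀ + 1) J (fun y => g (-y)) p (wd δ v o), ENNReal.ofReal (C₂ * A)]
    simp only [Fin.sum_univ_three, Matrix.cons_val_zero, Matrix.cons_val_one,
      Matrix.cons_val_two, Matrix.tail_cons, Matrix.head_cons, Fintype.card_fin] at h3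
    have h3' : (Bl 𝔇 Λ K κ (R₀ + 1) J g p (wd δ v o) +
      Bl 𝔇' Λ K κ (R₀ + 1) J (fun y => g (-y)) p (wd δ v o) + ENNReal.ofReal (C₂ * A)) ^ p ≤
      ((3 : ℕ) : ℝ≥0∞) ^ p * (Bl 𝔇 Λ K κ (R₀ + 1) J g p (wd δ v o) ^ p +
      Bl 𝔇' Λ K κ (R₀ + 1) J (fun y => g (-y)) p (wd δ v o) ^ p + ENNReal.ofReal (C₂ * A) ^ p) := h3
    refine h3'.trans ?_
    rw [Bl_rpow 𝔇 Λ K κ (R₀ + 1) J g hp0, Bl_rpow 𝔇' Λ K κ (R₀ + 1) J _ hp0, ← hN₀]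
    have e3 : ENNReal.ofReal 3 = ((3:ℕ) : ℝ≥0∞) := by
      rw [← ENNReal.ofReal_natCast]; norm_num
    have e4 : ENNReal.ofReal (3 * (N₀ * (5 / 2) + C₂)) ^ p =
        ((3:ℕ) : ℝ≥0∞) ^ p * ENNReal.ofReal (N₀ * (5 / 2) + C₂) ^ p := by
      rw [ENNReal.ofReal_mul (p := 3) (by norm_num), ENNReal.mul_rpow_of_nonneg _ _ hp0.le, e3]
    rw [e4, mul_assoc (((3:ℕ) : ℝ≥0∞) ^ p)]
    refine mul_le_mul' le_rfl ?_
    have g1 : ENNReal.ofReal (N₀ * (5 / 2)) ^ p ≤ ENNReal.ofReal (N₀ * (5 / 2) + C₂) ^ p :=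
      ENNReal.rpow_le_rpow (ENNReal.ofReal_le_ofReal (by linarith)) hp0.le
    have g2 : ENNReal.ofReal (C₂ * A) ^ p ≤
        ENNReal.ofReal (N₀ * (5 / 2) + C₂) ^ p * ENNReal.ofReal A ^ p := by
      rw [← ENNReal.mul_rpow_of_nonneg _ _ hp0.le, ← ENNReal.ofReal_mul (by positivity)]
      apply ENNReal.rpow_le_rpow _ hp0.le
      apply ENNReal.ofReal_le_ofReal
      have : 0 ≤ N₀ * (5 / 2) * A := by positivity
      nlinarith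
    calc _ ≤ (((J + 1 : ℕ) : ℝ≥0∞) ^ p * (ENNReal.ofReal (N₀ * (5 / 2) + C₂) ^ p)) *
            𝔇.Psi Λ κ (R₀ + 1) J g p (wd δ v o) +
          (((J + 1 : ℕ) : ℝ≥0∞) ^ p * (ENNReal.ofReal (N₀ * (5 / 2) + C₂) ^ p)) *
            𝔇'.Psi Λ κ (R₀ + 1) J (fun y => g (-y)) p (wd δ v o) +
          ENNReal.ofReal (N₀ * (5 / 2) + C₂) ^ p * ENNReal.ofReal A ^ p := by
          gcongr
      _ = _ := by ring
  have hcard : Fintype.card (Option (Fin d)) = d + 1 := by simp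
  calc KM δ (fun x => 𝔇.F g (prj i₀ x)) e ^ p
      ≤ (ENNReal.ofReal (C₁ d c R₀) * ∑ o : Option (Fin d),
        (Bl 𝔇 Λ K κ (R₀ + 1) J g p (wd δ v o) +
          Bl 𝔇' Λ K κ (R₀ + 1) J (fun y => g (-y)) p (wd δ v o) +
          ENNReal.ofReal (C₂ * A))) ^ p := ENNReal.rpow_le_rpow h1 hp0.le
    _ ≤ ENNReal.ofReal (C₁ d c R₀) ^ p * (((d + 1 : ℕ) : ℝ≥0∞) ^ p * ∑ o : Option (Fin d),
        (ENNReal.ofReal (3 * (N₀ * (5 / 2) + C₂)) ^ p *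
        (((J + 1 : ℕ) : ℝ≥0∞) ^ p * (𝔇.Psi Λ κ (R₀ + 1) J g p (wd δ v o) +
      𝔇'.Psi Λ κ (R₀ + 1) J (fun y => g (-y)) p (wd δ v o)) + ENNReal.ofReal A ^ p))) := by
        rw [ENNReal.mul_rpow_of_nonneg _ _ hp0.le]
        refine mul_le_mul' le_rfl ((rpow_sum_le hp.le _).trans ?_)
        rw [hcard]
        refine mul_le_mul' le_rfl (Finset.sum_le_sum fun o _ => hone o)
    _ = (ENNReal.ofReal (C₁ d c R₀) * ((d + 1 : ℕ) : ℝ≥0∞) *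
        ENNReal.ofReal (3 * (N₀ * (5 / 2) + C₂))) ^ p * ∑ o : Option (Fin d),
        (((J + 1 : ℕ) : ℝ≥0∞) ^ p * (𝔇.Psi Λ κ (R₀ + 1) J g p (wd δ v o) +
      𝔇'.Psi Λ κ (R₀ + 1) J (fun y => g (-y)) p (wd δ v o)) + ENNReal.ofReal A ^ p) := by
        rw [← Finset.mul_sum, ENNReal.mul_rpow_of_nonneg _ _ hp0.le,
          ENNReal.mul_rpow_of_nonneg _ _ hp0.le]
        ring
    _ ≤ ENNReal.ofReal U ^ p * ∑ o : Option (Fin d),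
        (((J + 1 : ℕ) : ℝ≥0∞) ^ p * (𝔇.Psi Λ κ (R₀ + 1) J g p (wd δ v o) +
      𝔇'.Psi Λ κ (R₀ + 1) J (fun y => g (-y)) p (wd δ v o)) + ENNReal.ofReal A ^ p) := by
        refine mul_le_mul' (ENNReal.rpow_le_rpow ?_ hp0.le) le_rfl
        rw [← ENNReal.ofReal_natCast, ← ENNReal.ofReal_mul hC1, ← ENNReal.ofReal_mul (by positivity)]
        apply ENNReal.ofReal_le_ofReal
        rw [hUdef]
        push_cast
        have e5 : C₁ d c R₀ * ((d:ℝ) + 1) * (3 * (N₀ * (5 / 2) + C₂)) =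
          C₁ d c R₀ * (((d:ℝ) + 1) * 3 * (N₀ * (5 / 2) + C₂)) := by ring
        rw [e5]
        linarith
    _ = _ := rfl

end

end Pool.Agent.D0H14.KP
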