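import Pool.Agent.D0H14.KP.StepB

set_option autoImplicit false

/-!
The estimate at the critical exponent for bounded functions of one quotient.
-/

open MeasureTheory Set Filter Topology ENNReal NNReal Metric

namespace Pool.Agent.D0H14.KP

open Pool.Agent.H803R2.Kak Pool.Agent.H803R2.KakFTO Pool.Agent.R250.AC

variable {d : ℕ}

theorem pow_le_add_rpow {A η : ℝ} (hA : 0 < A) (hη : 0 < η) (x : ℝ≥0∞) (n : ℕ) :
    x ^ n ≤ ENNReal.ofReal A ^ n + ENNReal.ofReal (A ^ (-η)) * x ^ ((n:ℝ) + η) := by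
  rcases le_total x (ENNReal.ofReal A) with h | h
  · calc x ^ n ≤ ENNReal.ofReal A ^ n := by gcongr
      _ ≤ _ := le_self_add
  · refine le_trans ?_ le_add_self
    by_cases hx : x = ∞
    · rw [hx, ENNReal.top_rpow_of_pos (by positivity), ENNReal.mul_top]
      · exact le_top
      · simp only [ne_eq, ENNReal.ofReal_eq_zero, not_le]; positivity
    · have hx0 : x ≠ 0 := by
        intro h0
        rw [h0] at h
        have := le_antisymm h zero_le
        rw [ENNReal.ofReal_eq_zero] at this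
        linarith
      have h1 : x ^ n = x ^ (-η) * x ^ ((n:ℝ) + η) := by
        rw [← ENNReal.rpow_add _ _ hx0 hx, ← ENNReal.rpow_natCast]
        congr 1
        ring
      rw [h1, ← ENNReal.ofReal_rpow_of_pos hA]
      gcongr ?_ * _
      rw [ENNReal.rpow_neg, ENNReal.rpow_neg]
      exact ENNReal.inv_le_inv.2 (ENNReal.rpow_le_rpow h hη.le)

theorem exp_bound {δ : ℝ} (hδ : 0 < δ) (hδ1 : δ < 1) :
    δ ^ (-(1 / (1 + Real.log (1 / δ)))) ≤ 3 := by
  have hlog : 0 ≤ Real.log (1 / δ) := Real.log_nonneg (by rw [le_div_iff₀ hδ]; linarith)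
  rw [Real.rpow_def_of_pos hδ]
  have h1 : Real.log δ = -Real.log (1 / δ) := by rw [one_div, Real.log_inv]; ring
  have h2 : Real.log δ * -(1 / (1 + Real.log (1 / δ))) ≤ 1 := by
    rw [h1, neg_mul_neg, mul_one_div, div_le_one (by linarith)]
    linarith
  calc Real.exp (Real.log δ * -(1 / (1 + Real.log (1 / δ)))) ≤ Real.exp 1 := Real.exp_le_exp.2 h2
    _ ≤ 3 := Real.exp_one_lt_d9.le.trans (by norm_num)

theorem exists_J {δ : ℝ} (hδ : 0 < δ) (hδ1 : δ < 1) :
    ∃ J : ℕ, (1/2:ℝ) ^ J ≤ δ ∧ (J:ℝ) + 1 ≤ 3 * (1 + Real.log (1 / δ)) := by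
  refine ⟨⌈Real.logb 2 (1 / δ)⌉₊, ?_, ?_⟩
  · have h1 : Real.logb 2 (1 / δ) ≤ ⌈Real.logb 2 (1 / δ)⌉₊ := Nat.le_ceil _
    rw [Real.logb_le_iff_le_rpow (by norm_num) (by positivity), Real.rpow_natCast] at h1
    rw [div_le_iff₀ hδ] at h1
    set k := ⌈Real.logb 2 (1 / δ)⌉₊
    calc (1/2:ℝ) ^ k = (1/2:ℝ) ^ k * 1 := by ring
      _ ≤ (1/2:ℝ) ^ k * (2 ^ k * δ) := by gcongr
      _ = ((1/2:ℝ) ^ k * 2 ^ k) * δ := by ring
      _ = δ := by rw [← mul_pow]; norm_num
  · have h0 : 0 ≤ Real.logb 2 (1 / δ) := Real.logb_nonneg (by norm_num) (by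
      rw [le_div_iff₀ hδ]; linarith)
    have h1 := (Nat.ceil_lt_add_one h0).le
    have hlog2 : 2 / 3 < Real.log 2 := by
      have := Real.log_two_gt_d9
      linarith
    have hlog : 0 < Real.log (1 / δ) := Real.log_pos (by rw [lt_div_iff₀ hδ]; linarith)
    have h2 : Real.logb 2 (1 / δ) ≤ (3/2) * Real.log (1 / δ) := by
      rw [Real.logb, div_le_iff₀ (by linarith)]
      nlinarith
    linarith

section

variable (i₀ : Fin (d + 1)) (P Q : MvPolynomial (Fin (d + 1)) ℝ) {q : ℕ}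
    (T : Fin q → MvPolynomial (Fin (d + 1)) ℝ) {k : ℕ} (hP : P.totalDegree ≤ k)
    (hP' : (-P).totalDegree ≤ k) (hQ : Q.totalDegree ≤ k) (hT : ∀ j, (T j).totalDegree ≤ k)

theorem measurable_HH (Λ κ R A δ U : ℝ) (J : ℕ) (g : ℝ → ℝ≥0∞) (p : ℝ) :
    Measurable (HH i₀ P Q T hP hP' hQ hT Λ κ R A δ U J g p) := by
  unfold HH
  apply Measurable.const_mul
  apply Finset.measurable_sum
  intro o _
  apply Measurable.add_const
  apply Measurable.const_mul
  have hw : Measurable (fun v : Vec d => wd δ v o) := by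
    cases o with
    | none => exact measurable_id
    | some l => exact measurable_id.add_const _
  exact ((Dat.measurable_Psi _ _ _ _ _ _ _).comp hw).add
    ((Dat.measurable_Psi _ _ _ _ _ _ _).comp hw)

theorem lintegral_wd {Ψ : Vec d → ℝ≥0∞} (B : Set (Vec d)) (δ : ℝ) (o : Option (Fin d)) :
    ∫⁻ v in B, Ψ (wd δ v o) ≤ ∫⁻ v, Ψ v := by
  refine (setLIntegral_le_lintegral _ _).trans (le_of_eq ?_)
  cases o with
  | none => rfl
  | some l => exact lintegral_add_right_eq_self Ψ (EuclideanSpace.single l δ)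

theorem lintegral_HH (Λ κ R A δ U : ℝ) (J : ℕ) (g : ℝ → ℝ≥0∞) (p : ℝ) (R₀ : ℝ) {X : ℝ≥0∞}
    (h1 : ∫⁻ v, (mk i₀ P Q T hP hQ hT).Psi Λ κ R J g p v ≤ X)
    (h2 : ∫⁻ v, (mk i₀ (-P) Q T hP' hQ hT).Psi Λ κ R J (fun y => g (-y)) p v ≤ X) :
    ∫⁻ v in closedBall (0 : Vec d) R₀, HH i₀ P Q T hP hP' hQ hT Λ κ R A δ U J g p v ≤
      ENNReal.ofReal U ^ p * (((d + 1 : ℕ) : ℝ≥0∞) * (((J + 1 : ℕ) : ℝ≥0∞) ^ p * (X + X) +
        ENNReal.ofReal A ^ p * volume (closedBall (0 : Vec d) R₀))) := by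
  have hw : ∀ o, Measurable (fun v : Vec d => wd δ v o) := by
    intro o
    cases o with
    | none => exact measurable_id
    | some l => exact measurable_id.add_const _
  have hm1 : ∀ o, Measurable (fun v : Vec d =>
      (mk i₀ P Q T hP hQ hT).Psi Λ κ R J g p (wd δ v o)) :=
    fun o => (Dat.measurable_Psi _ _ _ _ _ _ _).comp (hw o)
  have hm2 : ∀ o, Measurable (fun v : Vec d =>
      (mk i₀ (-P) Q T hP' hQ hT).Psi Λ κ R J (fun y => g (-y)) p (wd δ v o)) :=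
    fun o => (Dat.measurable_Psi _ _ _ _ _ _ _).comp (hw o)
  have hm3 : ∀ o, Measurable (fun v : Vec d =>
      (mk i₀ P Q T hP hQ hT).Psi Λ κ R J g p (wd δ v o) +
      (mk i₀ (-P) Q T hP' hQ hT).Psi Λ κ R J (fun y => g (-y)) p (wd δ v o)) :=
    fun o => (hm1 o).add (hm2 o)
  have hm4 : ∀ o, Measurable (fun v : Vec d =>
      ((J + 1 : ℕ) : ℝ≥0∞) ^ p * ((mk i₀ P Q T hP hQ hT).Psi Λ κ R J g p (wd δ v o) +
      (mk i₀ (-P) Q T hP' hQ hT).Psi Λ κ R J (fun y => g (-y)) p (wd δ v o))) :=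
    fun o => (hm3 o).const_mul _
  have hm5 : ∀ o, Measurable (fun v : Vec d =>
      ((J + 1 : ℕ) : ℝ≥0∞) ^ p * ((mk i₀ P Q T hP hQ hT).Psi Λ κ R J g p (wd δ v o) +
      (mk i₀ (-P) Q T hP' hQ hT).Psi Λ κ R J (fun y => g (-y)) p (wd δ v o)) +
      ENNReal.ofReal A ^ p) :=
    fun o => (hm4 o).add_const _
  unfold HH
  rw [lintegral_const_mul _ (Finset.measurable_sum _ fun o _ => hm5 o),
    lintegral_finsetSum _ (fun o _ => hm5 o)]
  refine mul_le_mul' le_rfl ?_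
  calc ∑ o : Option (Fin d), ∫⁻ v in closedBall (0 : Vec d) R₀,
        (((J + 1 : ℕ) : ℝ≥0∞) ^ p * ((mk i₀ P Q T hP hQ hT).Psi Λ κ R J g p (wd δ v o) +
        (mk i₀ (-P) Q T hP' hQ hT).Psi Λ κ R J (fun y => g (-y)) p (wd δ v o)) +
        ENNReal.ofReal A ^ p)
      ≤ ∑ _o : Option (Fin d), (((J + 1 : ℕ) : ℝ≥0∞) ^ p * (X + X) +
        ENNReal.ofReal A ^ p * volume (closedBall (0 : Vec d) R₀)) := by
        apply Finset.sum_le_sum
        intro o _
        rw [lintegral_add_left (hm4 o), lintegral_const_mul _ (hm3 o),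
          lintegral_add_left (hm1 o), setLIntegral_const]
        refine add_le_add (mul_le_mul' le_rfl (add_le_add ?_ ?_)) le_rfl
        · exact (lintegral_wd _ δ o).trans h1
        · exact (lintegral_wd _ δ o).trans h2
    _ = _ := by
        rw [Finset.sum_const, nsmul_eq_mul, Finset.card_univ]
        simp

end

end Pool.Agent.D0H14.KP
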