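import Pool.Agent.D0H14.KP.Cyl
import Pool.Agent.H742R2.Kk.Sphere

set_option autoImplicit false

/-!
Tubes in euclidean space and the charts of the sphere.
-/

open MeasureTheory Set Filter Topology ENNReal NNReal Metric

namespace Pool.Agent.D0H14.KP

open Pool.Agent.H803R2.Kak Pool.Agent.H803R2.KakFTO
open scoped Pointwise

variable {d : ℕ}

/-- The coordinates of a point of euclidean space, with the coordinate `i₀` singled out. -/
noncomputable def prj (i₀ : Fin (d + 1)) (x : EuclideanSpace ℝ (Fin (d + 1))) : Vec d × ℝ :=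
  (WithLp.toLp 2 (fun l => x (i₀.succAbove l)), x i₀)

theorem crd_prj (i₀ : Fin (d + 1)) (x : EuclideanSpace ℝ (Fin (d + 1))) (j : Fin (d + 1)) :
    crd i₀ (prj i₀ x) j = x j := by
  rcases Fin.eq_self_or_eq_succAbove i₀ j with rfl | ⟨l, rfl⟩
  · rw [crd_self]; rfl
  · rw [crd_above]; rfl

theorem prj_preserving (i₀ : Fin (d + 1)) :
    MeasurePreserving (prj (d := d) i₀) volume volume := by
  have h1 := (PiLp.volume_preserving_ofLp (Fin (d + 1)))
  have h2 := volume_preserving_piFinSuccAbove (fun _ : Fin (d + 1) => ℝ) i₀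
  have h3 : MeasurePreserving (Prod.swap : ℝ × (Fin d → ℝ) → (Fin d → ℝ) × ℝ) volume volume :=
    Measure.measurePreserving_swap
  have h4 := (PiLp.volume_preserving_toLp (Fin d)).prod (MeasurePreserving.id (volume : Measure ℝ))
  have h5 := h4.comp (h3.comp (h2.comp h1))
  exact h5

theorem norm_prj_fst_le (i₀ : Fin (d + 1)) (x : EuclideanSpace ℝ (Fin (d + 1))) :
    ‖(prj i₀ x).1‖ ≤ ‖x‖ := by
  apply le_of_sq_le_sq _ (norm_nonneg _)
  rw [EuclideanSpace.norm_sq_eq, EuclideanSpace.norm_sq_eq, Fin.sum_univ_succAbove _ i₀]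
  have : 0 ≤ ‖x i₀‖ ^ 2 := by positivity
  show ∑ l, ‖x (i₀.succAbove l)‖ ^ 2 ≤ _
  linarith

/-- The velocity of a direction. -/
noncomputable def vl (i₀ : Fin (d + 1)) (e : EuclideanSpace ℝ (Fin (d + 1))) : Vec d :=
  (e i₀)⁻¹ • (prj i₀ e).1

/-- The closed tube. -/
def tube {n : ℕ} (δ : ℝ) (e b : EuclideanSpace ℝ (Fin n)) : Set (EuclideanSpace ℝ (Fin n)) :=
  {y | |inner ℝ (y - b) e| ≤ 1 / 2 ∧ ‖(y - b) - (inner ℝ (y - b) e : ℝ) • e‖ ≤ δ}

theorem tube_sub (i₀ : Fin (d + 1)) {δ : ℝ} (hδ1 : δ ≤ 1)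
    {e : EuclideanSpace ℝ (Fin (d + 1))} (he : ‖e‖ = 1) (he0 : e i₀ ≠ 0) {R₀ : ℝ}
    (hv : ‖vl i₀ e‖ ≤ R₀) (a : EuclideanSpace ℝ (Fin (d + 1))) :
    tube δ e a ⊆ prj i₀ ⁻¹' (cyl (vl i₀ e) (prj i₀ a) ((1 + R₀) * δ)) := by
  rintro x ⟨h1, h2⟩
  set s : ℝ := inner ℝ (x - a) e with hs
  set z := (x - a) - s • e with hz
  have hxa : ∀ j, x j - a j = s * e j + z j := by
    intro j
    have : x - a = s • e + z := by rw [hz]; abel
    have h3 := congrArg (fun y : EuclideanSpace ℝ (Fin (d + 1)) => y j) this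
    simpa using h3
  have hcoord : ∀ y : EuclideanSpace ℝ (Fin (d + 1)), |y i₀| ≤ ‖y‖ := by
    intro y
    have := PiLp.norm_apply_le y i₀
    simpa using this
  have hδ0 : 0 ≤ δ := (norm_nonneg _).trans h2
  constructor
  · show |x i₀ - a i₀| ≤ 3 / 2
    rw [hxa]
    refine (abs_add_le _ _).trans ?_
    rw [abs_mul]
    have h3 := hcoord e
    have h4 := hcoord z
    rw [he] at h3
    have h5 : |s| * |e i₀| ≤ 1 / 2 * 1 := by gcongr
    linarith
  · have e1 : (prj i₀ x).1 - (prj i₀ a).1 - ((prj i₀ x).2 - (prj i₀ a).2) • vl i₀ e =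
        (prj i₀ z).1 - z i₀ • vl i₀ e := by
      ext l
      simp only [prj, vl, PiLp.sub_apply, PiLp.smul_apply, smul_eq_mul]
      have h3 := hxa (i₀.succAbove l)
      have h4 := hxa i₀
      rw [h3, h4]
      field_simp
      ring
    rw [e1]
    refine (norm_sub_le _ _).trans ?_
    rw [norm_smul, Real.norm_eq_abs]
    have h3 := norm_prj_fst_le i₀ z
    have h4 := hcoord z
    have h5 : |z i₀| * ‖vl i₀ e‖ ≤ δ * R₀ := by
      have := norm_nonneg (vl i₀ e)
      have := abs_nonneg (z i₀)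
      have h6 : |z i₀| ≤ δ := h4.trans h2
      gcongr
    calc ‖(prj i₀ z).1‖ + |z i₀| * ‖vl i₀ e‖ ≤ δ + δ * R₀ := add_le_add (h3.trans h2) h5
      _ = _ := by ring

theorem norm_vl_le (i₀ : Fin (d + 1)) {e : EuclideanSpace ℝ (Fin (d + 1))} (he : ‖e‖ = 1) {R₀ : ℝ}
    (hR : 0 < R₀) (he0 : 1 / R₀ ≤ |e i₀|) : ‖vl i₀ e‖ ≤ R₀ := by
  unfold vl
  rw [norm_smul, norm_inv, Real.norm_eq_abs]
  have h1 : 0 < |e i₀| := lt_of_lt_of_le (by positivity) he0
  have h2 := norm_prj_fst_le i₀ e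
  rw [he] at h2
  rw [inv_mul_le_iff₀ h1]
  rw [div_le_iff₀ hR] at he0
  linarith

/-- Some coordinate is large. -/
theorem exists_coord {e : EuclideanSpace ℝ (Fin (d + 1))} (he : ‖e‖ = 1) :
    ∃ i₀, 1 / ((d:ℝ) + 1) ≤ |e i₀| := by
  by_contra hno
  push Not at hno
  have h1 : ‖e‖ ^ 2 < 1 := by
    rw [EuclideanSpace.norm_sq_eq]
    calc ∑ i, ‖e i‖ ^ 2 < ∑ _i : Fin (d + 1), 1 / ((d:ℝ) + 1) := by
          apply Finset.sum_lt_sum_of_nonempty Finset.univ_nonempty
          intro i _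
          have h2 := hno i
          rw [Real.norm_eq_abs]
          have h3 : |e i| < 1 := by
            refine h2.trans_le ?_
            rw [div_le_one (by positivity)]
            have : (0:ℝ) ≤ d := by positivity
            linarith
          have h4 := abs_nonneg (e i)
          nlinarith
      _ = 1 := by
          rw [Finset.sum_const, Finset.card_univ, Fintype.card_fin, nsmul_eq_mul]
          push_cast
          field_simp
  rw [he] at h1
  norm_num at h1

theorem volume_cone_le (i₀ : Fin (d + 1)) {V : Set (Vec d)} (hV : MeasurableSet V) :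
    volume {x : EuclideanSpace ℝ (Fin (d + 1)) | |x i₀| ≤ 1 ∧ x i₀ ≠ 0 ∧ vl i₀ x ∈ V} ≤
      2 * volume V := by
  set A : Set (Vec d × ℝ) := {p | |p.2| ≤ 1 ∧ p.2 ≠ 0 ∧ p.2⁻¹ • p.1 ∈ V} with hA
  have hAm : MeasurableSet A := by
    have e1 : Measurable fun p : Vec d × ℝ => |p.2| := by fun_prop
    have e2 : Measurable fun p : Vec d × ℝ => p.2 := by fun_prop
    have e3 : Measurable fun p : Vec d × ℝ => p.2⁻¹ • p.1 := by fun_prop
    refine MeasurableSet.inter (measurableSet_le e1 measurable_const)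
      (MeasurableSet.inter (measurableSet_eq_fun e2 measurable_const).compl (hV.preimage e3))
  have hpre : {x : EuclideanSpace ℝ (Fin (d + 1)) | |x i₀| ≤ 1 ∧ x i₀ ≠ 0 ∧ vl i₀ x ∈ V} =
      prj i₀ ⁻¹' A := rfl
  rw [hpre, (prj_preserving i₀).measure_preimage hAm.nullMeasurableSet]
  have hprod : volume A = ∫⁻ s : ℝ, volume ((fun y : Vec d => (y, s)) ⁻¹' A) := by
    rw [Measure.volume_eq_prod, Measure.prod_apply_symm hAm]
  have hbound : ∀ s : ℝ, volume ((fun y : Vec d => (y, s)) ⁻¹' A) ≤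
      (Icc (-1:ℝ) 1).indicator (fun _ => volume V) s := by
    intro s
    by_cases hs : s ∈ Icc (-1:ℝ) 1
    · rw [indicator_of_mem hs]
      by_cases hs0 : s = 0
      · have : (fun y : Vec d => (y, s)) ⁻¹' A = ∅ := by
          ext y; simp [hA, hs0]
        rw [this, measure_empty]; exact zero_le
      · have hsub : (fun y : Vec d => (y, s)) ⁻¹' A ⊆ (fun y : Vec d => s⁻¹ • y) ⁻¹' V := by
          intro y hy
          exact hy.2.2
        refine (measure_mono hsub).trans ?_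
        rw [Measure.addHaar_preimage_smul volume (inv_ne_zero hs0)]
        have hs1 : |s| ≤ 1 := abs_le.2 hs
        have : ENNReal.ofReal |((s⁻¹) ^ Module.finrank ℝ (Vec d))⁻¹| ≤ 1 := by
          rw [inv_pow, inv_inv, abs_pow]
          exact ENNReal.ofReal_le_one.2 (pow_le_one₀ (abs_nonneg _) hs1)
        calc _ ≤ 1 * volume V := by gcongr
          _ = volume V := one_mul _
    · have : (fun y : Vec d => (y, s)) ⁻¹' A = ∅ := by
        ext y
        simp only [hA, mem_preimage, mem_ofPred_eq, mem_empty_iff_false, iff_false, not_and]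
        intro h
        exact absurd (abs_le.1 h) hs
      rw [this, measure_empty]; exact zero_le
  rw [hprod]
  calc ∫⁻ s, volume ((fun y : Vec d => (y, s)) ⁻¹' A)
      ≤ ∫⁻ s, (Icc (-1:ℝ) 1).indicator (fun _ => volume V) s := lintegral_mono hbound
    _ = 2 * volume V := by
        rw [lintegral_indicator measurableSet_Icc, setLIntegral_const, Real.volume_Icc, mul_comm]
        norm_num

/-- The surface measure of the unit sphere. -/
noncomputable def surf (n : ℕ) : Measure (sphere (0 : EuclideanSpace ℝ (Fin n)) 1) :=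
  (volume : Measure (EuclideanSpace ℝ (Fin n))).toSphere

theorem measurable_vl (i₀ : Fin (d + 1)) : Measurable (vl (d := d) i₀) := by
  have h1 : Measurable (prj (d := d) i₀) := (prj_preserving i₀).measurable
  have h2 : Measurable fun e : EuclideanSpace ℝ (Fin (d + 1)) => e i₀ := by fun_prop
  exact h2.inv.smul (measurable_fst.comp h1)

/-- The part of the sphere in a chart. -/
def SS (i₀ : Fin (d + 1)) (R₀ : ℝ) : Set (sphere (0 : EuclideanSpace ℝ (Fin (d + 1))) 1) :=
  {e | 1 / R₀ ≤ |(e : EuclideanSpace ℝ (Fin (d + 1))) i₀|}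

theorem measurableSet_SS (i₀ : Fin (d + 1)) (R₀ : ℝ) : MeasurableSet (SS i₀ R₀) := by
  have : Measurable fun e : sphere (0 : EuclideanSpace ℝ (Fin (d + 1))) 1 =>
      |(e : EuclideanSpace ℝ (Fin (d + 1))) i₀| := by fun_prop
  exact measurableSet_le measurable_const this

theorem surf_le (i₀ : Fin (d + 1)) {R₀ : ℝ} (hR : 0 < R₀) {V : Set (Vec d)}
    (hV : MeasurableSet V) :
    surf (d + 1) (SS i₀ R₀ ∩ {e | vl i₀ (e : EuclideanSpace ℝ (Fin (d + 1))) ∈ V}) ≤
      2 * (d + 1) * volume (V ∩ closedBall 0 R₀) := by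
  set S' : Set (sphere (0 : EuclideanSpace ℝ (Fin (d + 1))) 1) :=
    SS i₀ R₀ ∩ {e | vl i₀ (e : EuclideanSpace ℝ (Fin (d + 1))) ∈ V} with hS'
  have hS'm : MeasurableSet S' :=
    (measurableSet_SS i₀ R₀).inter (((measurable_vl i₀).comp measurable_subtype_coe) hV)
  have hcone : Ioo (0:ℝ) 1 • ((↑) '' S' : Set (EuclideanSpace ℝ (Fin (d + 1)))) ⊆
      {x : EuclideanSpace ℝ (Fin (d + 1)) | |x i₀| ≤ 1 ∧ x i₀ ≠ 0 ∧
        vl i₀ x ∈ V ∩ closedBall 0 R₀} := by
    rintro _ ⟨r, hr, _, ⟨e, he, rfl⟩, rfl⟩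
    have hr0 : r ≠ 0 := hr.1.ne'
    have hnorm : ‖(e : EuclideanSpace ℝ (Fin (d + 1)))‖ = 1 := by simp
    have he0 : |(e : EuclideanSpace ℝ (Fin (d + 1))) i₀| ≤ 1 := by
      have := PiLp.norm_apply_le (e : EuclideanSpace ℝ (Fin (d + 1))) i₀
      rw [hnorm] at this
      simpa using this
    have he1 : 1 / R₀ ≤ |(e : EuclideanSpace ℝ (Fin (d + 1))) i₀| := he.1
    have he2 : (e : EuclideanSpace ℝ (Fin (d + 1))) i₀ ≠ 0 := by
      intro h0
      rw [h0, abs_zero] at he1
      have : 0 < 1 / R₀ := by positivity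
      linarith
    refine ⟨?_, ?_, ?_⟩
    · simp only [PiLp.smul_apply, smul_eq_mul, abs_mul, abs_of_pos hr.1]
      calc r * |(e : EuclideanSpace ℝ (Fin (d + 1))) i₀| ≤ 1 * 1 := by
            gcongr
            exact hr.2.le
        _ = 1 := one_mul 1
    · simpa using ⟨hr0, he2⟩
    · have : vl i₀ (r • (e : EuclideanSpace ℝ (Fin (d + 1)))) =
          vl i₀ (e : EuclideanSpace ℝ (Fin (d + 1))) := by
        ext j
        simp only [vl, prj, PiLp.smul_apply, smul_eq_mul]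
        field_simp
      simp only [this]
      refine ⟨he.2, ?_⟩
      rw [mem_closedBall_zero_iff]
      exact norm_vl_le i₀ hnorm hR he1
  calc surf (d + 1) S' = ((d + 1 : ℕ) : ℝ≥0∞) *
        volume (Ioo (0:ℝ) 1 • ((↑) '' S' : Set (EuclideanSpace ℝ (Fin (d + 1))))) := by
        unfold surf
        rw [Measure.toSphere_apply' _ hS'm, finrank_euclideanSpace_fin]
    _ ≤ ((d + 1 : ℕ) : ℝ≥0∞) * (2 * volume (V ∩ closedBall 0 R₀)) := by
        gcongr
        exact (measure_mono hcone).trans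
          (volume_cone_le i₀ (hV.inter measurableSet_closedBall))
    _ = _ := by
        push_cast
        ring

/-- Integration in a chart. -/
theorem chart (i₀ : Fin (d + 1)) {R₀ : ℝ} (hR : 0 < R₀) {H : Vec d → ℝ≥0∞} (hH : Measurable H) :
    ∫⁻ e in SS i₀ R₀, H (vl i₀ (e : EuclideanSpace ℝ (Fin (d + 1)))) ∂(surf (d + 1)) ≤
      2 * (d + 1) * ∫⁻ v in closedBall (0 : Vec d) R₀, H v := by
  have hm : Measurable (fun e : sphere (0 : EuclideanSpace ℝ (Fin (d + 1))) 1 =>
      vl i₀ (e : EuclideanSpace ℝ (Fin (d + 1)))) := (measurable_vl i₀).comp measurable_subtype_coe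
  rw [← lintegral_map hH hm]
  have hle : ((surf (d + 1)).restrict (SS i₀ R₀)).map
      (fun e : sphere (0 : EuclideanSpace ℝ (Fin (d + 1))) 1 =>
        vl i₀ (e : EuclideanSpace ℝ (Fin (d + 1)))) ≤
      (2 * (d + 1) : ℝ≥0∞) • (volume.restrict (closedBall (0 : Vec d) R₀)) := by
    rw [Measure.le_iff]
    intro V hV
    rw [Measure.map_apply hm hV, Measure.restrict_apply (hm hV), inter_comm, Measure.smul_apply,
      Measure.restrict_apply hV, smul_eq_mul]
    exact surf_le i₀ hR hV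
  calc _ ≤ ∫⁻ v, H v ∂((2 * (d + 1) : ℝ≥0∞) • (volume.restrict (closedBall (0 : Vec d) R₀))) :=
        lintegral_mono' hle le_rfl
    _ = _ := by rw [lintegral_smul_measure, smul_eq_mul]

end Pool.Agent.D0H14.KP
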