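import Pool.Agent.D0H14.KP.OneP

set_option autoImplicit false

/-!
The whole sphere, unbounded functions, degenerate quotients.
-/

open MeasureTheory Set Filter Topology ENNReal NNReal Metric

namespace Pool.Agent.D0H14.KP

open Pool.Agent.H803R2.Kak Pool.Agent.H803R2.KakFTO Pool.Agent.R250.AC

variable {d : ℕ}

/-- The value of a polynomial. -/
noncomputable def vv {n : ℕ} (p : MvPolynomial (Fin n) ℝ) (x : EuclideanSpace ℝ (Fin n)) : ℝ :=
  MvPolynomial.eval (fun l => x l) p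

/-- The function `g (P / Q)` on the set where `Q` and the `T j` are positive. -/
noncomputable def FE {n q : ℕ} (P Q : MvPolynomial (Fin n) ℝ) (T : Fin q → MvPolynomial (Fin n) ℝ)
    (g : ℝ → ℝ≥0∞) (x : EuclideanSpace ℝ (Fin n)) : ℝ≥0∞ :=
  {x | (∀ j, 0 < vv (T j) x) ∧ 0 < vv Q x}.indicator (fun x => g (vv P x / vv Q x)) x

theorem pf_prj (i₀ : Fin (d + 1)) (p : MvPolynomial (Fin (d + 1)) ℝ)
    (x : EuclideanSpace ℝ (Fin (d + 1))) : pf i₀ p (prj i₀ x) = vv p x := by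
  unfold pf vv
  congr 2
  ext j
  exact crd_prj i₀ x j

theorem F_prj (i₀ : Fin (d + 1)) (P Q : MvPolynomial (Fin (d + 1)) ℝ) {q k : ℕ}
    (T : Fin q → MvPolynomial (Fin (d + 1)) ℝ) (hP : P.totalDegree ≤ k)
    (hQ : Q.totalDegree ≤ k) (hT : ∀ j, (T j).totalDegree ≤ k) (g : ℝ → ℝ≥0∞)
    (x : EuclideanSpace ℝ (Fin (d + 1))) :
    (mk i₀ P Q T hP hQ hT).F g (prj i₀ x) = FE P Q T g x := by
  have hA : prj i₀ x ∈ (mk i₀ P Q T hP hQ hT).A ↔
      x ∈ {x | (∀ j, 0 < vv (T j) x) ∧ 0 < vv Q x} := by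
    show ((∀ j, 0 < pf i₀ (T j) (prj i₀ x)) ∧ 0 < pf i₀ Q (prj i₀ x)) ↔ _
    simp only [pf_prj, mem_ofPred_eq]
  have hu : (mk i₀ P Q T hP hQ hT).u (prj i₀ x) = vv P x / vv Q x := by
    show pf i₀ P (prj i₀ x) / pf i₀ Q (prj i₀ x) = _
    rw [pf_prj, pf_prj]
  unfold Dat.F FE
  by_cases hx : x ∈ {x | (∀ j, 0 < vv (T j) x) ∧ 0 < vv Q x}
  · rw [indicator_of_mem hx, indicator_of_mem (hA.2 hx), hu]
  · rw [indicator_of_notMem hx, indicator_of_notMem (fun h => hx (hA.1 h))]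

theorem continuous_vv {n : ℕ} (p : MvPolynomial (Fin n) ℝ) : Continuous (vv p) := by
  unfold vv
  exact (MvPolynomial.continuous_eval p).comp (by fun_prop)

theorem measurable_FE {n q : ℕ} (P Q : MvPolynomial (Fin n) ℝ) (T : Fin q → MvPolynomial (Fin n) ℝ)
    {g : ℝ → ℝ≥0∞} (hg : Measurable g) : Measurable (FE P Q T g) := by
  have h1 : MeasurableSet {x | (∀ j, 0 < vv (T j) x) ∧ 0 < vv Q x} := by
    have : {x | (∀ j, 0 < vv (T j) x) ∧ 0 < vv Q x} = (⋂ j, {x | 0 < vv (T j) x}) ∩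
        {x | 0 < vv Q x} := by ext x; simp
    rw [this]
    exact ((isOpen_iInter_of_finite fun j => isOpen_lt continuous_const (continuous_vv _)).inter
      (isOpen_lt continuous_const (continuous_vv _))).measurableSet
  have h2 : Measurable (fun x => g (vv P x / vv Q x)) :=
    hg.comp ((continuous_vv P).measurable.div (continuous_vv Q).measurable)
  exact h2.indicator h1

theorem ae_WW (i₀ : Fin (d + 1)) (P Q : MvPolynomial (Fin (d + 1)) ℝ) {j : Fin (d + 1)}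
    (hj : VV P Q j ≠ 0) : ∀ᵐ x : Vec d × ℝ, 0 < WW i₀ P Q x := by
  have h1 := ae_eval_ne_zero hj
  have hm : MeasurableSet {y : Vec d × ℝ | pf i₀ (VV P Q j) y = 0} := by
    have : Continuous (pf i₀ (VV P Q j)) :=
      (MvPolynomial.continuous_eval _).comp (continuous_crd i₀)
    exact this.measurable (measurableSet_singleton 0)
  have h2 : ∀ᵐ y : Vec d × ℝ, pf i₀ (VV P Q j) y ≠ 0 := by
    rw [ae_iff]
    simp only [ne_eq, not_not]
    rw [← (prj_preserving i₀).measure_preimage hm.nullMeasurableSet]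
    rw [ae_iff] at h1
    simp only [ne_eq, not_not] at h1
    refine measure_mono_null ?_ h1
    intro x hx
    have hx' : pf i₀ (VV P Q j) (prj i₀ x) = 0 := hx
    rw [pf_prj] at hx'
    exact hx'
  filter_upwards [h2] with x hx
  unfold WW
  refine lt_of_lt_of_le ?_ (Finset.single_le_sum (f := fun j => pf i₀ (VV P Q j) x ^ 2)
    (fun _ _ => sq_nonneg _) (Finset.mem_univ j))
  positivity

/-- Bounded functions, whole sphere. -/
theorem sphere_bdd (hd : 1 ≤ d) (q k : ℕ) : ∃ C : ℝ, 0 < C ∧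
    ∀ (P Q : MvPolynomial (Fin (d + 1)) ℝ)
    (T : Fin q → MvPolynomial (Fin (d + 1)) ℝ) (_ : P.totalDegree ≤ k)
    (_ : Q.totalDegree ≤ k) (_ : ∀ j, (T j).totalDegree ≤ k)
    (_ : ∃ j, VV P Q j ≠ 0) (g : ℝ → ℝ≥0∞) (_ : Measurable g) (δ A : ℝ)
    (_ : 0 < δ) (_ : δ < 1) (_ : 0 < A) (_ : ∀ y, g y ≤ ENNReal.ofReal (A / δ))
    (_ : ∫⁻ x, FE P Q T g x ^ (d + 1) ≤ ENNReal.ofReal (A ^ (d + 1))),
    ∃ G : sphere (0 : EuclideanSpace ℝ (Fin (d + 1))) 1 → ℝ≥0∞, Measurable G ∧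
      (∀ e : sphere (0 : EuclideanSpace ℝ (Fin (d + 1))) 1, KM δ (FE P Q T g) (e : EuclideanSpace ℝ (Fin (d + 1))) ^ (d + 1) ≤ G e) ∧
      ∫⁻ e, G e ∂(surf (d + 1)) ≤
      ENNReal.ofReal (C * (1 + Real.log (1 / δ)) ^ (2 * d + 5) * A ^ (d + 1)) := by
  obtain ⟨C, hC, h⟩ := one_chart hd q k
  refine ⟨(d + 1) * C, by positivity, ?_⟩
  intro P Q T hP hQ hT ⟨j, hj⟩ g hg δ A hδ hδ1 hA hτ hI
  have hlog : 0 ≤ Real.log (1 / δ) := Real.log_nonneg (by rw [le_div_iff₀ hδ]; linarith)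
  have hone : ∀ i₀ : Fin (d + 1), ∃ G : sphere (0 : EuclideanSpace ℝ (Fin (d + 1))) 1 → ℝ≥0∞,
      Measurable G ∧ (∀ e ∈ SS i₀ ((d:ℝ) + 1), KM δ (FE P Q T g)
        (e : EuclideanSpace ℝ (Fin (d + 1))) ^ (d + 1) ≤ G e) ∧
      ∫⁻ e in SS i₀ ((d:ℝ) + 1), G e ∂(surf (d + 1)) ≤
      ENNReal.ofReal (C * (1 + Real.log (1 / δ)) ^ (2 * d + 5) * A ^ (d + 1)) := by
    intro i₀
    have hFm := (mk i₀ P Q T hP hQ hT).measurable_F hg
    have hI' : ∫⁻ x, (mk i₀ P Q T hP hQ hT).F g x ^ (d + 1) ≤ ENNReal.ofReal (A ^ (d + 1)) := by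
      rw [← (prj_preserving i₀).lintegral_comp (hFm.pow_const _)]
      simp_rw [F_prj]
      exact hI
    have := h i₀ P Q T hP hQ hT (ae_WW i₀ P Q hj) g hg δ A hδ hδ1 hA hτ hI'
    simp_rw [F_prj] at this
    exact this
  choose G hGm hGle hGint using hone
  refine ⟨fun e => ∑ i₀, (SS i₀ ((d:ℝ) + 1)).indicator (G i₀) e,
    Finset.measurable_sum _ (fun i₀ _ => (hGm i₀).indicator (measurableSet_SS _ _)), ?_, ?_⟩
  · intro e
    obtain ⟨i₀, hi⟩ := exists_coord (e := (e : EuclideanSpace ℝ (Fin (d + 1)))) (by simp)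
    have hmem : e ∈ SS i₀ ((d:ℝ) + 1) := hi
    refine (hGle i₀ e hmem).trans ?_
    refine le_trans ?_ (Finset.single_le_sum (f := fun i₀ => (SS i₀ ((d:ℝ) + 1)).indicator (G i₀) e)
      (fun _ _ => zero_le) (Finset.mem_univ i₀))
    show G i₀ e ≤ (SS i₀ ((d:ℝ) + 1)).indicator (G i₀) e
    rw [indicator_of_mem hmem]
  · rw [lintegral_finsetSum _ (fun i₀ _ => (hGm i₀).indicator (measurableSet_SS _ _))]
    calc ∑ i₀, ∫⁻ e, (SS i₀ ((d:ℝ) + 1)).indicator (G i₀) e ∂(surf (d + 1))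
        ≤ ∑ _i₀ : Fin (d + 1),
          ENNReal.ofReal (C * (1 + Real.log (1 / δ)) ^ (2 * d + 5) * A ^ (d + 1)) := by
          apply Finset.sum_le_sum
          intro i₀ _
          rw [lintegral_indicator (measurableSet_SS _ _)]
          exact hGint i₀
      _ = _ := by
          rw [Finset.sum_const, Finset.card_univ, Fintype.card_fin, nsmul_eq_mul,
            ← ENNReal.ofReal_natCast, ← ENNReal.ofReal_mul (by positivity)]
          congr 1
          push_cast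
          ring

theorem add_two_pow (x y : ℝ≥0∞) (n : ℕ) : (x + y) ^ n ≤ 2 ^ n * (x ^ n + y ^ n) := by
  set w := max x y with hw
  have h1 : x + y ≤ 2 * w := by
    calc x + y ≤ w + w := add_le_add (le_max_left _ _) (le_max_right _ _)
      _ = 2 * w := by ring
  have h2 : w ^ n ≤ x ^ n + y ^ n := by
    rcases max_cases x y with ⟨h, -⟩ | ⟨h, -⟩
    · rw [hw, h]; exact le_self_add
    · rw [hw, h]; exact le_add_self
  calc (x + y) ^ n ≤ (2 * w) ^ n := by gcongr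
    _ = 2 ^ n * w ^ n := mul_pow _ _ _
    _ ≤ _ := by gcongr

theorem FE_trunc {n q : ℕ} (P Q : MvPolynomial (Fin n) ℝ) (T : Fin q → MvPolynomial (Fin n) ℝ)
    (g : ℝ → ℝ≥0∞) {r : ℝ} (hr : 0 < r) (m : ℕ) (x : EuclideanSpace ℝ (Fin n)) :
    FE P Q T g x ≤ FE P Q T (fun y => min (g y) (ENNReal.ofReal r)) x +
      ENNReal.ofReal ((r ^ m)⁻¹) * FE P Q T g x ^ (m + 1) := by
  by_cases hx : x ∈ {x | (∀ j, 0 < vv (T j) x) ∧ 0 < vv Q x}
  · unfold FE
    rw [indicator_of_mem hx, indicator_of_mem hx]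
    set z := g (vv P x / vv Q x) with hz
    show z ≤ min z (ENNReal.ofReal r) + ENNReal.ofReal (r ^ m)⁻¹ * z ^ (m + 1)
    rcases le_total z (ENNReal.ofReal r) with h | h
    · rw [min_eq_left h]; exact le_self_add
    · refine le_trans ?_ le_add_self
      calc z = ENNReal.ofReal ((r ^ m)⁻¹) * ENNReal.ofReal r ^ m * z := by
            rw [← ENNReal.ofReal_pow hr.le, ← ENNReal.ofReal_mul (by positivity),
              inv_mul_cancel₀ (by positivity), ENNReal.ofReal_one, one_mul]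
        _ ≤ ENNReal.ofReal ((r ^ m)⁻¹) * z ^ m * z := by gcongr
        _ = _ := by rw [pow_succ]; ring
  · unfold FE
    rw [indicator_of_notMem hx]
    exact zero_le

/-- Unbounded functions, bound with any upper bound of the integral. -/
theorem sphere_any (hd : 1 ≤ d) (q k : ℕ) : ∃ C : ℝ, 0 < C ∧
    ∀ (P Q : MvPolynomial (Fin (d + 1)) ℝ)
    (T : Fin q → MvPolynomial (Fin (d + 1)) ℝ) (_ : P.totalDegree ≤ k)
    (_ : Q.totalDegree ≤ k) (_ : ∀ j, (T j).totalDegree ≤ k)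
    (_ : ∃ j, VV P Q j ≠ 0) (g : ℝ → ℝ≥0∞) (_ : Measurable g) (δ A : ℝ)
    (_ : 0 < δ) (_ : δ < 1) (_ : 0 < A)
    (_ : ∫⁻ x, FE P Q T g x ^ (d + 1) ≤ ENNReal.ofReal (A ^ (d + 1))),
    ∃ G : sphere (0 : EuclideanSpace ℝ (Fin (d + 1))) 1 → ℝ≥0∞, Measurable G ∧
      (∀ e : sphere (0 : EuclideanSpace ℝ (Fin (d + 1))) 1, KM δ (FE P Q T g) (e : EuclideanSpace ℝ (Fin (d + 1))) ^ (d + 1) ≤ G e) ∧
      ∫⁻ e, G e ∂(surf (d + 1)) ≤
      ENNReal.ofReal (C * (1 + Real.log (1 / δ)) ^ (2 * d + 5) * A ^ (d + 1)) := by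
  obtain ⟨C, hC, h⟩ := sphere_bdd hd q k
  obtain ⟨c, hc, hvol⟩ := Pool.Agent.H742R2.Kk.volume_tube d
  have hfin : IsFiniteMeasure (surf (d + 1)) := by unfold surf; infer_instance
  set σ : ℝ := (surf (d + 1) univ).toReal with hσ
  have hσeq : surf (d + 1) univ = ENNReal.ofReal σ := (ENNReal.ofReal_toReal (measure_ne_top _ _)).symm
  have hσ0 : 0 ≤ σ := ENNReal.toReal_nonneg
  refine ⟨2 ^ (d + 1) * (C + (c⁻¹) ^ (d + 1) * σ), by positivity, ?_⟩
  intro P Q T hP hQ hT hj g hg δ A hδ hδ1 hA hI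
  have hlog : 0 ≤ Real.log (1 / δ) := Real.log_nonneg (by rw [le_div_iff₀ hδ]; linarith)
  set L : ℝ := 1 + Real.log (1 / δ) with hL
  have hL1 : 1 ≤ L := by linarith
  set r : ℝ := A / δ with hr
  have hr0 : 0 < r := by positivity
  set g' : ℝ → ℝ≥0∞ := fun y => min (g y) (ENNReal.ofReal r) with hg'
  have hg'm : Measurable g' := hg.min measurable_const
  have hg'le : ∀ x, FE P Q T g' x ≤ FE P Q T g x := by
    intro x
    unfold FE
    by_cases hx : x ∈ {x | (∀ j, 0 < vv (T j) x) ∧ 0 < vv Q x}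
    · rw [indicator_of_mem hx, indicator_of_mem hx]; exact min_le_left _ _
    · rw [indicator_of_notMem hx, indicator_of_notMem hx]
  have hI' : ∫⁻ x, FE P Q T g' x ^ (d + 1) ≤ ENNReal.ofReal (A ^ (d + 1)) := by
    refine le_trans (lintegral_mono fun x => ?_) hI
    exact pow_le_pow_left' (hg'le x) _
  obtain ⟨G, hGm, hGle, h1⟩ := h P Q T hP hQ hT hj g' hg'm δ A hδ hδ1 hA
    (fun y => min_le_right _ _) hI'
  have hpt : ∀ e : sphere (0 : EuclideanSpace ℝ (Fin (d + 1))) 1,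
      KM δ (FE P Q T g) (e : EuclideanSpace ℝ (Fin (d + 1))) ≤
      KM δ (FE P Q T g') (e : EuclideanSpace ℝ (Fin (d + 1))) + ENNReal.ofReal (c⁻¹ * A) := by
    intro e
    unfold KM
    refine iSup_le fun a => ?_
    have hinv : (volume (tube δ (e : EuclideanSpace ℝ (Fin (d + 1))) a))⁻¹ ≤
        ENNReal.ofReal (c⁻¹ * (δ ^ d)⁻¹) := by
      rw [← mul_inv, ENNReal.ofReal_inv_of_pos (by positivity)]
      exact ENNReal.inv_le_inv.2 (hvol δ e a hδ (by simp))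
    calc (volume (tube δ (e : EuclideanSpace ℝ (Fin (d + 1))) a))⁻¹ *
          ∫⁻ y in tube δ (e : EuclideanSpace ℝ (Fin (d + 1))) a, FE P Q T g y
        ≤ (volume (tube δ (e : EuclideanSpace ℝ (Fin (d + 1))) a))⁻¹ *
          ∫⁻ y in tube δ (e : EuclideanSpace ℝ (Fin (d + 1))) a, (FE P Q T g' y +
            ENNReal.ofReal ((r ^ d)⁻¹) * FE P Q T g y ^ (d + 1)) := by
          gcongr with y
          exact FE_trunc P Q T g hr0 d y
      _ = (volume (tube δ (e : EuclideanSpace ℝ (Fin (d + 1))) a))⁻¹ *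
            (∫⁻ y in tube δ (e : EuclideanSpace ℝ (Fin (d + 1))) a, FE P Q T g' y) +
          (volume (tube δ (e : EuclideanSpace ℝ (Fin (d + 1))) a))⁻¹ *
            (ENNReal.ofReal ((r ^ d)⁻¹) *
              ∫⁻ y in tube δ (e : EuclideanSpace ℝ (Fin (d + 1))) a, FE P Q T g y ^ (d + 1)) := by
          rw [lintegral_add_left (measurable_FE P Q T hg'm), mul_add,
            lintegral_const_mul' _ _ ENNReal.ofReal_ne_top]
      _ ≤ (⨆ a, (volume (tube δ (e : EuclideanSpace ℝ (Fin (d + 1))) a))⁻¹ *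
            ∫⁻ y in tube δ (e : EuclideanSpace ℝ (Fin (d + 1))) a, FE P Q T g' y) +
          ENNReal.ofReal (c⁻¹ * (δ ^ d)⁻¹) * (ENNReal.ofReal ((r ^ d)⁻¹) *
            ENNReal.ofReal (A ^ (d + 1))) := by
          refine add_le_add ?_ (mul_le_mul' hinv (mul_le_mul' le_rfl
            ((setLIntegral_le_lintegral _ _).trans hI)))
          exact le_iSup (fun a => (volume (tube δ (e : EuclideanSpace ℝ (Fin (d + 1))) a))⁻¹ *
              ∫⁻ y in tube δ (e : EuclideanSpace ℝ (Fin (d + 1))) a, FE P Q T g' y) a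
      _ = _ := by
          congr 1
          rw [← ENNReal.ofReal_mul (by positivity), ← ENNReal.ofReal_mul (by positivity)]
          congr 1
          rw [hr, div_pow, pow_succ]
          field_simp
  refine ⟨fun e => 2 ^ (d + 1) * (ENNReal.ofReal (c⁻¹ * A) ^ (d + 1) + G e),
    (hGm.const_add _).const_mul _, ?_, ?_⟩
  · intro e
    calc KM δ (FE P Q T g) (e : EuclideanSpace ℝ (Fin (d + 1))) ^ (d + 1)
        ≤ (KM δ (FE P Q T g') (e : EuclideanSpace ℝ (Fin (d + 1))) +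
          ENNReal.ofReal (c⁻¹ * A)) ^ (d + 1) := pow_le_pow_left' (hpt e) _
      _ ≤ _ := add_two_pow _ _ _
      _ ≤ 2 ^ (d + 1) * (G e + ENNReal.ofReal (c⁻¹ * A) ^ (d + 1)) := by
          gcongr
          exact hGle e
      _ = _ := by rw [add_comm (G e)]
  calc ∫⁻ e, 2 ^ (d + 1) * (ENNReal.ofReal (c⁻¹ * A) ^ (d + 1) + G e) ∂(surf (d + 1))
      = 2 ^ (d + 1) * (ENNReal.ofReal (c⁻¹ * A) ^ (d + 1) * surf (d + 1) univ +
        ∫⁻ e, G e ∂(surf (d + 1))) := by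
        rw [lintegral_const_mul' _ _ (by finiteness), lintegral_add_left measurable_const,
          lintegral_const]
    _ ≤ ENNReal.ofReal (2 ^ (d + 1)) * (ENNReal.ofReal ((c⁻¹ * A) ^ (d + 1)) * ENNReal.ofReal σ +
        ENNReal.ofReal (C * L ^ (2 * d + 5) * A ^ (d + 1))) := by
        rw [hσeq, ENNReal.ofReal_pow (by norm_num), ENNReal.ofReal_pow (by positivity),
          ENNReal.ofReal_ofNat]
        gcongr
    _ = ENNReal.ofReal (2 ^ (d + 1) * ((c⁻¹ * A) ^ (d + 1) * σ +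
        C * L ^ (2 * d + 5) * A ^ (d + 1))) := by
        rw [← ENNReal.ofReal_mul (by positivity), ← ENNReal.ofReal_add (by positivity)
          (by positivity), ← ENNReal.ofReal_mul (by positivity)]
    _ ≤ _ := by
        apply ENNReal.ofReal_le_ofReal
        have hLp : (1:ℝ) ≤ L ^ (2 * d + 5) := one_le_pow₀ hL1
        have h9 : 0 ≤ (c⁻¹) ^ (d + 1) * σ * A ^ (d + 1) := by positivity
        have h10 := le_mul_of_one_le_left h9 hLp
        calc 2 ^ (d + 1) * ((c⁻¹ * A) ^ (d + 1) * σ + C * L ^ (2 * d + 5) * A ^ (d + 1))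
            = 2 ^ (d + 1) * ((c⁻¹) ^ (d + 1) * σ * A ^ (d + 1) +
              C * L ^ (2 * d + 5) * A ^ (d + 1)) := by rw [mul_pow]; ring
          _ ≤ 2 ^ (d + 1) * (L ^ (2 * d + 5) * ((c⁻¹) ^ (d + 1) * σ * A ^ (d + 1)) +
              C * L ^ (2 * d + 5) * A ^ (d + 1)) := by gcongr
          _ = _ := by ring

end Pool.Agent.D0H14.KP
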